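import Pool.Agent.PPR.Weyl

/-!
# The averaging theorem
-/

set_option autoImplicit false

namespace Pool.Agent.PPR

open MeasureTheory ProbabilityTheory Filter Topology

lemma pow_fac_tendsto {D : ℕ} (y : Fin D → Circle) (N : ℕ)
    (h : ∀ i, Tor (y i) → y i ^ N.factorial = 1) (hn : ¬ ∀ i, Tor (y i)) :
    Tendsto (fun J : ℕ => ((J : ℝ) + 1)⁻¹ • ∑ j ∈ Finset.range (J + 1),
      ((∏ i : Fin D, y i ^ ((N.factorial * (j + 1)) ^ ((i : ℕ) + 1)) : Circle) : ℂ))
        atTop (𝓝 0) := by
  classical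
  push Not at hn
  have hne : (Finset.univ.filter fun i => ¬ Tor (y i)).Nonempty := by
    obtain ⟨i, hi⟩ := hn
    exact ⟨i, by simpa using hi⟩
  obtain ⟨i₀, hi₀, hmax⟩ := Finset.exists_max_image _ id hne
  have hi₀' : ¬ Tor (y i₀) := (Finset.mem_filter.1 hi₀).2
  have h1 := weyl_circle (fun i => y i ^ (N.factorial ^ ((i : ℕ) + 1))) i₀ (fun n hn' h2 => by
    apply hi₀'
    refine ⟨N.factorial ^ ((i₀ : ℕ) + 1) * n, by positivity, ?_⟩
    rw [pow_mul]
    exact h2) (fun i hi => by
    have h2 : Tor (y i) := by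
      by_contra h3
      have h4 := hmax i (by simpa using h3)
      exact absurd hi (not_lt.2 h4)
    rw [pow_succ', pow_mul, h i h2, one_pow])
  refine h1.congr fun J => ?_
  congr 1
  refine Finset.sum_congr rfl fun j _ => ?_
  congr 1
  refine Finset.prod_congr rfl fun i _ => ?_
  rw [← pow_mul, mul_pow]

lemma pow_fac_one {D : ℕ} (y : Fin D → Circle) (N : ℕ)
    (h : ∀ i, y i ^ N.factorial = 1) (J : ℕ) :
    ((J : ℝ) + 1)⁻¹ • ∑ j ∈ Finset.range (J + 1),
      ((∏ i : Fin D, y i ^ ((N.factorial * (j + 1)) ^ ((i : ℕ) + 1)) : Circle) : ℂ) = 1 := by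
  have h1 : ∀ j, ((∏ i : Fin D, y i ^ ((N.factorial * (j + 1)) ^ ((i : ℕ) + 1)) : Circle) : ℂ) =
      1 := by
    intro j
    rw [Finset.prod_eq_one, Circle.coe_one]
    intro i _
    rw [pow_succ', mul_assoc, pow_mul, h i, one_pow]
  simp only [h1]
  rw [Finset.sum_const, Finset.card_range, nsmul_eq_mul, mul_one]
  have h2 : (((J + 1 : ℕ) : ℂ)) = (((J : ℝ) + 1 : ℝ) : ℂ) := by push_cast; rfl
  rw [h2, Complex.real_smul, ← Complex.ofReal_mul, inv_mul_cancel₀ (by positivity)]
  simp

theorem avp {Ω : Type*} [MeasurableSpace Ω] (μ : Measure Ω) [IsProbabilityMeasure μ] {D : ℕ}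
    (Y : Fin D → Ω → Circle) (hY : ∀ i, Measurable (Y i)) (g : Ω → ℂ) (hg : Integrable g μ)
    (ε : ℝ) (hε : 0 < ε) :
    ∀ᶠ N : ℕ in atTop, ∀ᶠ K : ℕ in atTop,
      ‖((K : ℝ) + 1)⁻¹ • ∑ j ∈ Finset.range (K + 1),
          ∫ ω, g ω * ((∏ i, Y i ω ^ ((N.factorial * (j + 1)) ^ ((i : ℕ) + 1)) : Circle) : ℂ) ∂μ -
        ∫ ω, Set.indicator {ω | ∀ i, Tor (Y i ω)} g ω ∂μ‖ ≤ ε := by
  classical
  set T : Set Ω := {ω | ∀ i, Tor (Y i ω)} with hT
  let E : ℕ → Set Ω := fun N => {ω | ∀ i, Tor (Y i ω) → Y i ω ^ N.factorial = 1}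
  let f : ℕ → ℕ → Ω → ℂ := fun N K ω => ((K : ℝ) + 1)⁻¹ • ∑ j ∈ Finset.range (K + 1),
    ((∏ i, Y i ω ^ ((N.factorial * (j + 1)) ^ ((i : ℕ) + 1)) : Circle) : ℂ)
  have hTor : ∀ i, MeasurableSet {ω | Tor (Y i ω)} := by
    intro i
    have h1 : {ω | Tor (Y i ω)} = ⋃ n : ℕ, {ω | 0 < n ∧ Y i ω ^ n = 1} := by
      ext ω
      simp [Tor]
    rw [h1]
    refine MeasurableSet.iUnion fun n => ?_
    by_cases hn : 0 < n
    · simp only [hn, true_and]
      exact ((hY i).pow_const n) (measurableSet_singleton 1)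
    · simp [hn]
  have hTm : MeasurableSet T := by
    have h1 : T = ⋂ i, {ω | Tor (Y i ω)} := by
      ext ω
      simp [hT]
    rw [h1]
    exact MeasurableSet.iInter hTor
  have hEm : ∀ N, MeasurableSet (E N) := by
    intro N
    have h1 : E N = ⋂ i, ({ω | Tor (Y i ω)}ᶜ ∪ {ω | Y i ω ^ N.factorial = 1}) := by
      ext ω
      simp only [E, Set.mem_ofPred_eq, Set.mem_iInter, Set.mem_union, Set.mem_compl_iff]
      exact forall_congr' fun i => imp_iff_not_or
    rw [h1]
    exact MeasurableSet.iInter fun i => (hTor i).compl.union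
      (((hY i).pow_const _) (measurableSet_singleton 1))
  have hpm : ∀ N j, Measurable fun ω =>
      ((∏ i, Y i ω ^ ((N * (j + 1)) ^ ((i : ℕ) + 1)) : Circle) : ℂ) := by
    intro N j
    have h1 : Measurable fun ω => (∏ i, Y i ω ^ ((N * (j + 1)) ^ ((i : ℕ) + 1)) : Circle) :=
      Finset.measurable_fun_prod _ fun i _ => (hY i).pow_const _
    have h3 : Continuous (fun z : Circle => (z : ℂ)) := continuous_induced_dom
    have h2 : Measurable (fun z : Circle => (z : ℂ)) := h3.measurable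
    exact h2.comp h1
  have hfm : ∀ N K, Measurable (f N K) := by
    intro N K
    exact (Finset.measurable_fun_sum (Finset.range (K + 1))
      fun j _ => hpm N.factorial j).const_smul (((K : ℝ) + 1)⁻¹)
  have hf1 : ∀ N K ω, ‖f N K ω‖ ≤ 1 := by
    intro N K ω
    simp only [f]
    rw [norm_smul, norm_inv, Real.norm_of_nonneg (by positivity),
      inv_mul_le_iff₀ (by positivity : (0 : ℝ) < (K : ℝ) + 1), mul_one]
    refine (norm_sum_le _ _).trans ?_
    simp only [Circle.norm_coe]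
    rw [Finset.sum_const, Finset.card_range, nsmul_eq_mul, mul_one]
    push_cast
    rfl
  have hlim : ∀ N ω, ω ∈ E N → Tendsto (fun K => f N K ω) atTop
      (𝓝 (T.indicator (fun _ => (1 : ℂ)) ω)) := by
    intro N ω hω
    by_cases hωT : ω ∈ T
    · rw [Set.indicator_of_mem hωT]
      have h1 : ∀ K, f N K ω = 1 := fun K =>
        pow_fac_one (fun i => Y i ω) N (fun i => hω i (hωT i)) K
      simp only [h1]
      exact tendsto_const_nhds
    · rw [Set.indicator_of_notMem hωT]
      exact pow_fac_tendsto (fun i => Y i ω) N hω hωT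
  have hEev : ∀ ω, ∀ᶠ N in atTop, ω ∈ E N := by
    intro ω
    have h1 : ∀ i, ∀ᶠ N : ℕ in atTop, Tor (Y i ω) → Y i ω ^ N.factorial = 1 := by
      intro i
      by_cases hi : Tor (Y i ω)
      · obtain ⟨n, hn, hn'⟩ := hi
        filter_upwards [eventually_ge_atTop n] with N hN _
        obtain ⟨m, hm⟩ := Nat.dvd_factorial hn hN
        rw [hm, pow_mul, hn', one_pow]
      · exact Eventually.of_forall fun N h => absurd h hi
    exact eventually_all.2 h1
  have hg2 : Integrable (fun ω => 2 * ‖g ω‖) μ := hg.norm.const_mul 2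
  have hind : ∀ ω, ‖T.indicator (fun _ => (1 : ℂ)) ω‖ ≤ 1 := by
    intro ω
    by_cases hωT : ω ∈ T
    · rw [Set.indicator_of_mem hωT, norm_one]
    · rw [Set.indicator_of_notMem hωT, norm_zero]
      exact zero_le_one
  have hindm : Measurable (T.indicator (fun _ => (1 : ℂ))) := measurable_const.indicator hTm
  have h1 : Tendsto (fun N => ∫ ω, (E N)ᶜ.indicator (fun ω => 2 * ‖g ω‖) ω ∂μ) atTop
      (𝓝 (∫ _ω, (0 : ℝ) ∂μ)) := by
    refine tendsto_integral_of_dominated_convergence (fun ω => 2 * ‖g ω‖) ?_ hg2 ?_ ?_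
    · intro N
      exact hg2.aestronglyMeasurable.indicator (hEm N).compl
    · intro N
      filter_upwards with ω
      refine (norm_indicator_le_norm_self _ _).trans ?_
      rw [Real.norm_of_nonneg (by positivity)]
    · filter_upwards with ω
      refine tendsto_const_nhds.congr' ?_
      filter_upwards [hEev ω] with N hN
      rw [Set.indicator_of_notMem]
      simpa using hN
  rw [integral_zero] at h1
  filter_upwards [h1.eventually_lt_const (show (0 : ℝ) < ε / 2 by positivity)] with N hN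
  have h2 : Tendsto (fun K => ∫ ω, (E N).indicator (fun ω => ‖g ω‖ *
      ‖f N K ω - T.indicator (fun _ => (1 : ℂ)) ω‖) ω ∂μ) atTop (𝓝 (∫ _ω, (0 : ℝ) ∂μ)) := by
    refine tendsto_integral_of_dominated_convergence (fun ω => 2 * ‖g ω‖) ?_ hg2 ?_ ?_
    · intro K
      refine AEStronglyMeasurable.indicator ?_ (hEm N)
      exact hg.norm.aestronglyMeasurable.mul
        ((hfm N K).sub hindm).norm.aestronglyMeasurable
    · intro K
      filter_upwards with ω
      refine (norm_indicator_le_norm_self _ _).trans ?_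
      rw [Real.norm_of_nonneg (by positivity)]
      have h3 : ‖f N K ω - T.indicator (fun _ => (1 : ℂ)) ω‖ ≤ 2 := by
        refine (norm_sub_le _ _).trans ?_
        have := hf1 N K ω
        have := hind ω
        linarith
      have h4 := mul_le_mul_of_nonneg_left h3 (norm_nonneg (g ω))
      linarith
    · filter_upwards with ω
      by_cases hω : ω ∈ E N
      · simp only [Set.indicator_of_mem hω]
        have h3 := (hlim N ω hω).sub_const (T.indicator (fun _ => (1 : ℂ)) ω)
        rw [sub_self] at h3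
        have h4 := h3.norm.const_mul ‖g ω‖
        rw [norm_zero, mul_zero] at h4
        exact h4
      · simp only [Set.indicator_of_notMem hω]
        exact tendsto_const_nhds
  rw [integral_zero] at h2
  filter_upwards [h2.eventually_lt_const (show (0 : ℝ) < ε / 2 by positivity)] with K hK
  have hgf : ∀ F : Ω → ℂ, Measurable F → (∀ ω, ‖F ω‖ ≤ 1) → Integrable (fun ω => g ω * F ω) μ := by
    intro F hF hF1
    refine hg.mul_bdd (c := 1) hF.aestronglyMeasurable ?_
    filter_upwards with ω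
    exact hF1 ω
  have h3 : ((K : ℝ) + 1)⁻¹ • ∑ j ∈ Finset.range (K + 1),
          ∫ ω, g ω * ((∏ i, Y i ω ^ ((N.factorial * (j + 1)) ^ ((i : ℕ) + 1)) : Circle) : ℂ) ∂μ -
        ∫ ω, Set.indicator T g ω ∂μ =
      ∫ ω, g ω * (f N K ω - T.indicator (fun _ => (1 : ℂ)) ω) ∂μ := by
    have h4 : ∀ ω, g ω * (f N K ω - T.indicator (fun _ => (1 : ℂ)) ω) =
        g ω * f N K ω - g ω * T.indicator (fun _ => (1 : ℂ)) ω := fun ω => mul_sub _ _ _
    simp only [h4]
    rw [integral_sub (hgf _ (hfm N K) (hf1 N K)) (hgf _ hindm hind)]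
    congr 1
    · rw [← integral_finsetSum _ fun j _ => hgf _ (hpm N.factorial j) fun ω => by
        rw [Circle.norm_coe], ← integral_smul]
      congr 1
      funext ω
      simp only [f]
      rw [← Finset.mul_sum, mul_smul_comm]
    · congr 1
      funext ω
      by_cases hωT : ω ∈ T
      · rw [Set.indicator_of_mem hωT, Set.indicator_of_mem hωT, mul_one]
      · rw [Set.indicator_of_notMem hωT, Set.indicator_of_notMem hωT, mul_zero]
  rw [h3]
  have h5 : Integrable (fun ω => (E N)ᶜ.indicator (fun ω => 2 * ‖g ω‖) ω) μ :=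
    hg2.indicator (hEm N).compl
  have h6 : Integrable (fun ω => (E N).indicator (fun ω => ‖g ω‖ *
      ‖f N K ω - T.indicator (fun _ => (1 : ℂ)) ω‖) ω) μ := by
    refine Integrable.indicator ?_ (hEm N)
    refine hg.norm.mul_bdd (c := 2) ((hfm N K).sub hindm).norm.aestronglyMeasurable ?_
    filter_upwards with ω
    rw [norm_norm]
    refine (norm_sub_le _ _).trans ?_
    have := hf1 N K ω
    have := hind ω
    linarith
  have h7 : ‖∫ ω, g ω * (f N K ω - T.indicator (fun _ => (1 : ℂ)) ω) ∂μ‖ ≤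
      ∫ ω, ((E N)ᶜ.indicator (fun ω => 2 * ‖g ω‖) ω + (E N).indicator (fun ω => ‖g ω‖ *
      ‖f N K ω - T.indicator (fun _ => (1 : ℂ)) ω‖) ω) ∂μ := by
    refine norm_integral_le_of_norm_le (h5.add h6) ?_
    filter_upwards with ω
    rw [norm_mul]
    by_cases hω : ω ∈ E N
    · have hω' : ω ∉ (E N)ᶜ := fun h => h hω
      rw [Set.indicator_of_mem hω (fun ω => ‖g ω‖ *
        ‖f N K ω - T.indicator (fun _ => (1 : ℂ)) ω‖), Set.indicator_of_notMem hω', zero_add]
    · have hω' : ω ∈ (E N)ᶜ := hω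
      rw [Set.indicator_of_notMem hω (fun ω => ‖g ω‖ *
        ‖f N K ω - T.indicator (fun _ => (1 : ℂ)) ω‖), Set.indicator_of_mem hω', add_zero]
      have h3 : ‖f N K ω - T.indicator (fun _ => (1 : ℂ)) ω‖ ≤ 2 := by
        refine (norm_sub_le _ _).trans ?_
        have := hf1 N K ω
        have := hind ω
        linarith
      have h4 := mul_le_mul_of_nonneg_left h3 (norm_nonneg (g ω))
      linarith
  rw [integral_add h5 h6] at h7
  linarith

end Pool.Agent.PPR
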