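import Pool.Agent.PPR.Defs

/-!
# Multiplicative averages and densities
-/

set_option autoImplicit false

namespace Pool.Agent.PPR

open MeasureTheory ProbabilityTheory Filter Topology

lemma xx_pos (X : ℕ) (e : Fin (X + 1) → ZMod (X + 1)) : 0 < xx X e :=
  Finset.prod_pos fun i _ => pow_pos (Nat.prime_nth_prime (i : ℕ)).pos _

lemma card_box (X : ℕ) :
    ((Finset.univ : Finset (Fin (X + 1) → ZMod (X + 1))).card : ℝ) = ((X : ℝ) + 1) ^ (X + 1) := by
  rw [Finset.card_univ, Fintype.card_fun, ZMod.card, Fintype.card_fin]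
  push_cast
  rfl

lemma wt_pos (X : ℕ) : 0 < ((X : ℝ) + 1) ^ (X + 1) := by positivity

lemma avgX_const {E : Type*} [AddCommGroup E] [Module ℝ E] (X : ℕ) (c : E) :
    avgX X (fun _ => c) = c := by
  rw [avgX, Finset.sum_const, ← Nat.cast_smul_eq_nsmul ℝ, card_box, smul_smul,
    inv_mul_cancel₀ (wt_pos X).ne', one_smul]

lemma avgX_mono (X : ℕ) {f g : ℕ → ℝ} (h : ∀ n, 0 < n → f n ≤ g n) : avgX X f ≤ avgX X g := by
  rw [avgX, avgX, smul_eq_mul, smul_eq_mul]
  exact mul_le_mul_of_nonneg_left (Finset.sum_le_sum fun e _ => h _ (xx_pos X e))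
    (inv_nonneg.2 (wt_pos X).le)

lemma norm_avgX_le {E : Type*} [NormedAddCommGroup E] [NormedSpace ℝ E] (X : ℕ) {f : ℕ → E}
    {B : ℝ} (h : ∀ n, 0 < n → ‖f n‖ ≤ B) : ‖avgX X f‖ ≤ B := by
  rw [avgX, norm_smul, norm_inv, Real.norm_of_nonneg (wt_pos X).le]
  calc (((X : ℝ) + 1) ^ (X + 1))⁻¹ * ‖∑ e : Fin (X + 1) → ZMod (X + 1), f (xx X e)‖
      ≤ (((X : ℝ) + 1) ^ (X + 1))⁻¹ * ∑ _e : Fin (X + 1) → ZMod (X + 1), B :=
        mul_le_mul_of_nonneg_left ((norm_sum_le _ _).trans
          (Finset.sum_le_sum fun e _ => h _ (xx_pos X e))) (inv_nonneg.2 (wt_pos X).le)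
    _ = B := by
        rw [Finset.sum_const, nsmul_eq_mul, card_box, ← mul_assoc,
          inv_mul_cancel₀ (wt_pos X).ne', one_mul]

lemma avgK_const {E : Type*} [AddCommGroup E] [Module ℝ E] (K : ℕ) (c : E) (x : ℕ) :
    avgK K (fun _ => c) x = c := by
  have h : ((K : ℝ) + 1) ≠ 0 := by positivity
  rw [avgK, Finset.sum_const, Finset.card_range, ← Nat.cast_smul_eq_nsmul ℝ, smul_smul]
  push_cast
  rw [inv_mul_cancel₀ h, one_smul]

lemma norm_avgK_le {E : Type*} [NormedAddCommGroup E] [NormedSpace ℝ E] (K : ℕ) {f : ℕ → E}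
    {B : ℝ} {x : ℕ} (hx : 0 < x) (h : ∀ n, 0 < n → ‖f n‖ ≤ B) : ‖avgK K f x‖ ≤ B := by
  have hK : (0 : ℝ) < (K : ℝ) + 1 := by positivity
  rw [avgK, norm_smul, norm_inv, Real.norm_of_nonneg hK.le]
  calc ((K : ℝ) + 1)⁻¹ * ‖∑ j ∈ Finset.range (K + 1), f (x * (j + 1))‖
      ≤ ((K : ℝ) + 1)⁻¹ * ∑ _j ∈ Finset.range (K + 1), B :=
        mul_le_mul_of_nonneg_left ((norm_sum_le _ _).trans
          (Finset.sum_le_sum fun j _ => h _ (Nat.mul_pos hx (Nat.succ_pos j))))
          (inv_nonneg.2 hK.le)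
    _ = B := by
        rw [Finset.sum_const, nsmul_eq_mul, Finset.card_range]
        push_cast
        rw [← mul_assoc, inv_mul_cancel₀ hK.ne', one_mul]

lemma avgX_add {E : Type*} [AddCommGroup E] [Module ℝ E] (X : ℕ) (f g : ℕ → E) :
    avgX X (fun n => f n + g n) = avgX X f + avgX X g := by
  rw [avgX, avgX, avgX, Finset.sum_add_distrib, smul_add]

lemma avgX_sum {E : Type*} [AddCommGroup E] [Module ℝ E] (X : ℕ) {ι : Type*} (s : Finset ι)
    (f : ι → ℕ → E) : avgX X (fun n => ∑ i ∈ s, f i n) = ∑ i ∈ s, avgX X (f i) := by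
  simp only [avgX]
  rw [Finset.sum_comm, Finset.smul_sum]

lemma avgX_ind_mem (X : ℕ) (A : Set ℕ) :
    avgX X (A.indicator (fun _ => (1 : ℝ))) ∈ Set.Icc (0 : ℝ) 1 := by
  classical
  constructor
  · have := avgX_mono X (f := fun _ => (0 : ℝ)) (g := A.indicator (fun _ => (1 : ℝ)))
      (fun n _ => Set.indicator_nonneg (fun _ _ => zero_le_one) n)
    rwa [avgX_const] at this
  · have := avgX_mono X (f := A.indicator (fun _ => (1 : ℝ))) (g := fun _ => (1 : ℝ))
      (fun n _ => Set.indicator_le_self' (fun _ _ => zero_le_one) n)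
    rwa [avgX_const] at this

theorem tendsto_dens (U : Ultrafilter ℕ) (A : Set ℕ) :
    Tendsto (fun X => avgX X (A.indicator (fun _ => (1 : ℝ)))) (U : Filter ℕ)
      (𝓝 (dens U A)) := by
  obtain ⟨x, -, hx⟩ := isCompact_Icc.ultrafilter_le_nhds'
    (U.map (fun X => avgX X (A.indicator (fun _ => (1 : ℝ)))))
    (show Set.Icc (0 : ℝ) 1 ∈ U.map (fun X => avgX X (A.indicator (fun _ => (1 : ℝ)))) from
      Filter.mem_map.2 (Filter.univ_mem' fun X => avgX_ind_mem X A))
  have h : Tendsto (fun X => avgX X (A.indicator (fun _ => (1 : ℝ)))) (U : Filter ℕ) (𝓝 x) := hx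
  rw [dens, h.limUnder_eq]
  exact h

theorem dens_nonneg (U : Ultrafilter ℕ) (A : Set ℕ) : 0 ≤ dens U A :=
  ge_of_tendsto' (tendsto_dens U A) fun X => (avgX_ind_mem X A).1

theorem dens_le_one (U : Ultrafilter ℕ) (A : Set ℕ) : dens U A ≤ 1 :=
  le_of_tendsto' (tendsto_dens U A) fun X => (avgX_ind_mem X A).2

theorem dens_mono (U : Ultrafilter ℕ) {A B : Set ℕ} (h : ∀ n, 0 < n → n ∈ A → n ∈ B) :
    dens U A ≤ dens U B := by
  classical
  refine le_of_tendsto_of_tendsto' (tendsto_dens U A) (tendsto_dens U B) fun X =>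
    avgX_mono X fun n hn => ?_
  by_cases hA : n ∈ A
  · rw [Set.indicator_of_mem hA, Set.indicator_of_mem (h n hn hA)]
  · rw [Set.indicator_of_notMem hA]
    exact Set.indicator_nonneg (fun _ _ => zero_le_one) n

theorem dens_univ (U : Ultrafilter ℕ) : dens U Set.univ = 1 := by
  have h := tendsto_dens U Set.univ
  simp only [Set.indicator_univ, avgX_const] at h
  exact tendsto_nhds_unique h tendsto_const_nhds

theorem dens_iUnion_le (U : Ultrafilter ℕ) {r : ℕ} (A : Fin r → Set ℕ) :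
    dens U (⋃ i, A i) ≤ ∑ i, dens U (A i) := by
  classical
  refine le_of_tendsto_of_tendsto' (tendsto_dens U _)
    (tendsto_finsetSum _ fun i _ => tendsto_dens U (A i)) fun X => ?_
  rw [← avgX_sum]
  refine avgX_mono X fun n _ => ?_
  by_cases hn : n ∈ ⋃ i, A i
  · obtain ⟨i, hi⟩ := Set.mem_iUnion.1 hn
    rw [Set.indicator_of_mem hn]
    calc (1 : ℝ) = (A i).indicator (fun _ => (1 : ℝ)) n := by rw [Set.indicator_of_mem hi]
      _ ≤ ∑ i, (A i).indicator (fun _ => (1 : ℝ)) n :=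
        Finset.single_le_sum (f := fun i => (A i).indicator (fun _ => (1 : ℝ)) n)
          (fun j _ => Set.indicator_nonneg (fun _ _ => zero_le_one) n) (Finset.mem_univ i)
  · rw [Set.indicator_of_notMem hn]
    exact Finset.sum_nonneg fun j _ => Set.indicator_nonneg (fun _ _ => zero_le_one) n

/-- number of the points of the box whose coordinate `i` is less than `v` -/
lemma card_small (X : ℕ) (i : Fin (X + 1)) (v : ℕ) :
    (Finset.univ.filter fun e : Fin (X + 1) → ZMod (X + 1) => (e i).val < v).card ≤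
      v * (X + 1) ^ X := by
  classical
  set S : Finset (ZMod (X + 1)) := Finset.univ.filter fun z => z.val < v with hS
  have h1 : (Finset.univ.filter fun e : Fin (X + 1) → ZMod (X + 1) => (e i).val < v) =
      Fintype.piFinset (fun j => if j = i then S else Finset.univ) := by
    ext e
    simp only [Finset.mem_filter, Finset.mem_univ, true_and, Fintype.mem_piFinset]
    constructor
    · intro h j
      by_cases hj : j = i
      · subst hj
        simp [hS, h]
      · simp [hj]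
    · intro h
      have := h i
      simpa [hS] using this
  have h2 : S.card ≤ v := by
    calc S.card = (S.image ZMod.val).card :=
          (Finset.card_image_of_injective _ (ZMod.val_injective (X + 1))).symm
      _ ≤ (Finset.range v).card := by
          apply Finset.card_le_card
          intro m hm
          obtain ⟨z, hz, rfl⟩ := Finset.mem_image.1 hm
          exact Finset.mem_range.2 (Finset.mem_filter.1 hz).2
      _ = v := Finset.card_range v
  rw [h1, Fintype.card_piFinset]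
  rw [← Finset.mul_prod_erase Finset.univ _ (Finset.mem_univ i)]
  have h3 : ∏ x ∈ Finset.univ.erase i, (if x = i then S else Finset.univ :
      Finset (ZMod (X + 1))).card = (X + 1) ^ X := by
    rw [Finset.prod_congr rfl (g := fun _ => X + 1)]
    · rw [Finset.prod_const, Finset.card_erase_of_mem (Finset.mem_univ i), Finset.card_univ,
        Fintype.card_fin, Nat.add_sub_cancel]
    · intro x hx
      rw [if_neg (Finset.ne_of_mem_erase hx), Finset.card_univ, ZMod.card]
  rw [h3, if_pos rfl]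
  exact Nat.mul_le_mul_right _ h2

lemma dvd_xx {N X : ℕ} (hN : 0 < N) (hX : N ≤ X) {e : Fin (X + 1) → ZMod (X + 1)}
    (he : ∀ i : Fin (X + 1), (i : ℕ) ≤ N → N ≤ (e i).val) : N ∣ xx X e := by
  rw [Nat.dvd_iff_prime_pow_dvd_dvd]
  intro p k hp hk
  rcases Nat.eq_zero_or_pos k with rfl | hk0
  · simp
  have h1 : p ^ k ≤ N := Nat.le_of_dvd hN hk
  have hkN : k ≤ N := (Nat.lt_pow_self hp.one_lt).le.trans h1
  have hpN : p ≤ N := (Nat.le_self_pow hk0.ne' p).trans h1
  have hc : Nat.count Nat.Prime p ≤ N := le_trans (Nat.count_le _) hpN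
  set i : Fin (X + 1) := ⟨Nat.count Nat.Prime p, by omega⟩ with hi
  have hpr : pr (i : ℕ) = p := Nat.nth_count hp
  have h2 : p ^ k ∣ pr (i : ℕ) ^ (e i).val := by
    rw [hpr]
    exact pow_dvd_pow _ (hkN.trans (he i hc))
  exact h2.trans (Finset.dvd_prod_of_mem (fun j : Fin (X + 1) => pr j ^ (e j).val)
    (Finset.mem_univ i))

lemma avgX_dvd_lower {N X : ℕ} (hN : 0 < N) (hX : N ≤ X) :
    1 - ((N : ℝ) + 1) * N / ((X : ℝ) + 1) ≤ avgX X (fun n => if N ∣ n then (1 : ℝ) else 0) := by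
  classical
  set T : Finset (Fin (X + 1)) := Finset.univ.filter fun i => (i : ℕ) ≤ N with hT
  have hTc : T.card ≤ N + 1 := by
    calc T.card = (T.image (fun i : Fin (X + 1) => (i : ℕ))).card :=
          (Finset.card_image_of_injective _ Fin.val_injective).symm
      _ ≤ (Finset.range (N + 1)).card := by
          apply Finset.card_le_card
          intro m hm
          obtain ⟨z, hz, rfl⟩ := Finset.mem_image.1 hm
          exact Finset.mem_range.2 (Nat.lt_succ_of_le (Finset.mem_filter.1 hz).2)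
      _ = N + 1 := Finset.card_range _
  have hpt : ∀ e : Fin (X + 1) → ZMod (X + 1),
      1 - ∑ i ∈ T, (if (e i).val < N then (1 : ℝ) else 0) ≤
        (if N ∣ xx X e then (1 : ℝ) else 0) := by
    intro e
    have hnn : ∀ i ∈ T, (0 : ℝ) ≤ (if (e i).val < N then (1 : ℝ) else 0) := by
      intro i _
      split_ifs <;> norm_num
    by_cases hd : N ∣ xx X e
    · rw [if_pos hd]
      have := Finset.sum_nonneg hnn
      linarith
    · rw [if_neg hd]
      have : ∃ i : Fin (X + 1), (i : ℕ) ≤ N ∧ (e i).val < N := by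
        by_contra hcon
        push Not at hcon
        exact hd (dvd_xx hN hX hcon)
      obtain ⟨i, hi1, hi2⟩ := this
      have h1 := Finset.single_le_sum hnn (Finset.mem_filter.2 ⟨Finset.mem_univ i, hi1⟩ : i ∈ T)
      rw [if_pos hi2] at h1
      linarith
  have hw := wt_pos X
  have hsum : ∑ e : Fin (X + 1) → ZMod (X + 1),
      ∑ i ∈ T, (if (e i).val < N then (1 : ℝ) else 0) ≤
        ((N : ℝ) + 1) * (N * ((X : ℝ) + 1) ^ X) := by
    rw [Finset.sum_comm]
    calc ∑ i ∈ T, ∑ e : Fin (X + 1) → ZMod (X + 1), (if (e i).val < N then (1 : ℝ) else 0)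
        ≤ ∑ _i ∈ T, (N * ((X : ℝ) + 1) ^ X) := by
          refine Finset.sum_le_sum fun i _ => ?_
          rw [Finset.sum_boole]
          exact_mod_cast card_small X i N
      _ = (T.card : ℝ) * (N * ((X : ℝ) + 1) ^ X) := by rw [Finset.sum_const, nsmul_eq_mul]
      _ ≤ ((N : ℝ) + 1) * (N * ((X : ℝ) + 1) ^ X) := by
          gcongr
          exact_mod_cast hTc
  rw [avgX, smul_eq_mul]
  have h3 : (((X : ℝ) + 1) ^ (X + 1)) - ((N : ℝ) + 1) * (N * ((X : ℝ) + 1) ^ X) ≤
      ∑ e : Fin (X + 1) → ZMod (X + 1), (if N ∣ xx X e then (1 : ℝ) else 0) := by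
    calc (((X : ℝ) + 1) ^ (X + 1)) - ((N : ℝ) + 1) * (N * ((X : ℝ) + 1) ^ X)
        ≤ ∑ e : Fin (X + 1) → ZMod (X + 1),
          (1 - ∑ i ∈ T, (if (e i).val < N then (1 : ℝ) else 0)) := by
          rw [Finset.sum_sub_distrib, Finset.sum_const, nsmul_eq_mul, card_box, mul_one]
          linarith
      _ ≤ _ := Finset.sum_le_sum fun e _ => hpt e
  calc 1 - ((N : ℝ) + 1) * N / ((X : ℝ) + 1)
      = (((X : ℝ) + 1) ^ (X + 1))⁻¹ *
        ((((X : ℝ) + 1) ^ (X + 1)) - ((N : ℝ) + 1) * (N * ((X : ℝ) + 1) ^ X)) := by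
        have h5 : ((X : ℝ) + 1) ≠ 0 := by positivity
        rw [pow_succ]
        field_simp
    _ ≤ _ := mul_le_mul_of_nonneg_left h3 (inv_nonneg.2 hw.le)

/-- most points of the box are divisible by `N` -/
theorem avgX_dvd (N : ℕ) (hN : 0 < N) :
    Tendsto (fun X => avgX X (fun n => if N ∣ n then (1 : ℝ) else 0)) atTop (𝓝 1) := by
  have h1 : Tendsto (fun X : ℕ => 1 - ((N : ℝ) + 1) * N / ((X : ℝ) + 1)) atTop (𝓝 1) := by
    have h2 : Tendsto (fun X : ℕ => ((N : ℝ) + 1) * N / ((X : ℝ) + 1)) atTop (𝓝 0) :=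
      tendsto_const_nhds.div_atTop (tendsto_atTop_add_const_right _ _ tendsto_natCast_atTop_atTop)
    simpa using (tendsto_const_nhds (x := (1 : ℝ))).sub h2
  refine tendsto_of_tendsto_of_tendsto_of_le_of_le' h1 tendsto_const_nhds
    (Filter.eventually_atTop.2 ⟨N, fun X hX => avgX_dvd_lower hN hX⟩)
    (Filter.Eventually.of_forall fun X => ?_)
  have := avgX_mono X (f := fun n => if N ∣ n then (1 : ℝ) else 0) (g := fun _ => (1 : ℝ))
    (fun n _ => by
      show (if N ∣ n then (1 : ℝ) else 0) ≤ 1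
      split_ifs <;> norm_num)
  rwa [avgX_const] at this

lemma xx_step (X : ℕ) (i : Fin (X + 1)) (e : Fin (X + 1) → ZMod (X + 1)) (he : (e i).val ≠ 0) :
    xx X e = pr i * xx X (e - Pi.single i 1) := by
  have hX : 1 < X + 1 := by
    have := ZMod.val_lt (e i)
    omega
  have h1 : (1 : ZMod (X + 1)).val = 1 := by
    rw [ZMod.val_one_eq_one_mod, Nat.mod_eq_of_lt hX]
  have h2 : ((e - (Pi.single i 1 : Fin (X + 1) → ZMod (X + 1))) i).val + 1 = (e i).val := by
    rw [Pi.sub_apply, Pi.single_eq_same, ZMod.val_sub (by rw [h1]; omega), h1]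
    omega
  rw [xx, xx, ← Finset.mul_prod_erase Finset.univ _ (Finset.mem_univ i),
    ← Finset.mul_prod_erase Finset.univ _ (Finset.mem_univ i), ← mul_assoc, ← h2, pow_succ']
  congr 1
  refine Finset.prod_congr rfl fun j hj => ?_
  rw [Pi.sub_apply, Pi.single_eq_of_ne (Finset.ne_of_mem_erase hj), sub_zero]

lemma avgX_shift_prime (p : ℕ) (hp : p.Prime) :
    ∃ C : ℝ, 0 ≤ C ∧ ∀ (E : Type) [NormedAddCommGroup E] [NormedSpace ℝ E] (X : ℕ) (f : ℕ → E)
      (B : ℝ), (∀ n, ‖f n‖ ≤ B) →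
        ‖avgX X (fun n => f (p * n)) - avgX X f‖ ≤ B * C / ((X : ℝ) + 1) := by
  classical
  set i0 := Nat.count Nat.Prime p with hi0
  refine ⟨2 * ((i0 : ℝ) + 1), by positivity, ?_⟩
  intro E _ _ X f B hf
  have hB : 0 ≤ B := (norm_nonneg _).trans (hf 0)
  have hX : (0 : ℝ) < (X : ℝ) + 1 := by positivity
  by_cases hi : i0 ≤ X
  · set i : Fin (X + 1) := ⟨i0, by omega⟩ with hidef
    have hpr : pr (i : ℕ) = p := Nat.nth_count hp
    set s : Fin (X + 1) → ZMod (X + 1) := Pi.single i 1 with hs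
    have h1 : ∑ e : Fin (X + 1) → ZMod (X + 1), f (p * xx X e) =
        ∑ e : Fin (X + 1) → ZMod (X + 1), f (p * xx X (e - s)) :=
      ((Equiv.subRight s).sum_comp fun e => f (p * xx X e)).symm
    have h2 : avgX X (fun n => f (p * n)) - avgX X f =
        ((((X : ℝ) + 1) ^ (X + 1))⁻¹ : ℝ) •
          ∑ e : Fin (X + 1) → ZMod (X + 1), (f (p * xx X (e - s)) - f (xx X e)) := by
      rw [avgX, avgX, h1, ← smul_sub, Finset.sum_sub_distrib]
    have h3 : ∀ e : Fin (X + 1) → ZMod (X + 1), ‖f (p * xx X (e - s)) - f (xx X e)‖ ≤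
        (2 * B) * (if (e i).val < 1 then (1 : ℝ) else 0) := by
      intro e
      split_ifs with he
      · rw [mul_one, two_mul]
        exact (norm_sub_le _ _).trans (add_le_add (hf _) (hf _))
      · rw [xx_step X i e (by omega), hpr, sub_self, norm_zero, mul_zero]
    rw [h2, norm_smul, norm_inv, Real.norm_of_nonneg (wt_pos X).le]
    have h4 : ‖∑ e : Fin (X + 1) → ZMod (X + 1), (f (p * xx X (e - s)) - f (xx X e))‖ ≤
        (2 * B) * (((X : ℝ) + 1) ^ X) := by
      refine (norm_sum_le _ _).trans ((Finset.sum_le_sum fun e _ => h3 e).trans ?_)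
      rw [← Finset.mul_sum, Finset.sum_boole]
      have := card_small X i 1
      rw [one_mul] at this
      refine mul_le_mul_of_nonneg_left ?_ (by positivity)
      exact_mod_cast this
    calc (((X : ℝ) + 1) ^ (X + 1))⁻¹ *
          ‖∑ e : Fin (X + 1) → ZMod (X + 1), (f (p * xx X (e - s)) - f (xx X e))‖
        ≤ (((X : ℝ) + 1) ^ (X + 1))⁻¹ * ((2 * B) * (((X : ℝ) + 1) ^ X)) :=
          mul_le_mul_of_nonneg_left h4 (inv_nonneg.2 (wt_pos X).le)
      _ = 2 * B / ((X : ℝ) + 1) := by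
          rw [pow_succ]
          field_simp
      _ ≤ B * (2 * ((i0 : ℝ) + 1)) / ((X : ℝ) + 1) := by
          refine div_le_div_of_nonneg_right ?_ hX.le
          nlinarith [Nat.cast_nonneg (α := ℝ) i0]
  · push Not at hi
    have h1 : ‖avgX X (fun n => f (p * n)) - avgX X f‖ ≤ B + B :=
      (norm_sub_le _ _).trans (add_le_add (norm_avgX_le X fun n _ => hf _)
        (norm_avgX_le X fun n _ => hf _))
    refine h1.trans ?_
    rw [le_div_iff₀ hX]
    have h2 : (X : ℝ) + 1 ≤ (i0 : ℝ) + 1 := by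
      have : (X : ℝ) ≤ i0 := by exact_mod_cast hi.le
      linarith
    nlinarith

/-- asymptotic invariance under multiplication by `h` -/
theorem avgX_shift (h : ℕ) (hh : 0 < h) :
    ∃ C : ℝ, 0 ≤ C ∧ ∀ (E : Type) [NormedAddCommGroup E] [NormedSpace ℝ E] (X : ℕ) (f : ℕ → E)
      (B : ℝ), (∀ n, ‖f n‖ ≤ B) →
        ‖avgX X (fun n => f (h * n)) - avgX X f‖ ≤ B * C / ((X : ℝ) + 1) := by
  revert hh
  refine Nat.recOnMul (motive := fun h : ℕ => 0 < h →
    ∃ C : ℝ, 0 ≤ C ∧ ∀ (E : Type) [NormedAddCommGroup E] [NormedSpace ℝ E] (X : ℕ) (f : ℕ → E)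
      (B : ℝ), (∀ n, ‖f n‖ ≤ B) →
        ‖avgX X (fun n => f (h * n)) - avgX X f‖ ≤ B * C / ((X : ℝ) + 1)) ?_ ?_ ?_ ?_ h
  · intro h0
    exact absurd h0 (lt_irrefl 0)
  · intro _
    refine ⟨0, le_rfl, ?_⟩
    intro E _ _ X f B hf
    simp only [one_mul, sub_self, norm_zero, mul_zero, zero_div, le_refl]
  · intro p hp _
    exact avgX_shift_prime p hp
  · intro a b ha hb hab
    have ha0 : 0 < a := Nat.pos_of_ne_zero fun h0 => by simp [h0] at hab
    have hb0 : 0 < b := Nat.pos_of_ne_zero fun h0 => by simp [h0] at hab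
    obtain ⟨C, hC, h1⟩ := ha ha0
    obtain ⟨C', hC', h2⟩ := hb hb0
    refine ⟨C + C', add_nonneg hC hC', ?_⟩
    intro E _ _ X f B hf
    have h3 := h1 E X f B hf
    have h4 := h2 E X (fun n => f (a * n)) B fun n => hf _
    have h5 : avgX X (fun n => f (a * b * n)) - avgX X f =
        (avgX X (fun n => f (a * (b * n))) - avgX X (fun n => f (a * n))) +
          (avgX X (fun n => f (a * n)) - avgX X f) := by
      simp only [mul_assoc]
      abel
    rw [h5]
    refine (norm_add_le _ _).trans ((add_le_add h4 h3).trans (le_of_eq ?_))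
    ring

end Pool.Agent.PPR
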