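import Pool.Agent.PPR.Defs

/-!
# Completeness of characters
-/

set_option autoImplicit false

namespace Pool.Agent.PPR

open MeasureTheory ProbabilityTheory Filter Topology BoundedContinuousFunction

variable {I : Type*} [Countable I] [AddCommGroup I]

section Alg

omit [Countable I]

/-- the set of characters -/
def EE (I : Type*) [AddCommGroup I] : Set (I → Circle) := {x | ∀ v w, x (v + w) = x v * x w}

lemma EE_zero {x : I → Circle} (hx : x ∈ EE I) : x 0 = 1 := by
  have h := hx 0 0
  rw [add_zero] at h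
  exact (mul_eq_left.1 h.symm)

lemma EE_neg {x : I → Circle} (hx : x ∈ EE I) (w : I) : x (-w) = (x w)⁻¹ := by
  rw [eq_inv_iff_mul_eq_one, ← hx, neg_add_cancel, EE_zero hx]

lemma EE_neg_coe {x : I → Circle} (hx : x ∈ EE I) (w : I) :
    ((x (-w) : Circle) : ℂ) = (starRingEnd ℂ) (x w : ℂ) := by
  rw [EE_neg hx, Circle.coe_inv_eq_conj]

/-- the monoid homomorphism of a character -/
noncomputable def chi (x : I → Circle) (hx : x ∈ EE I) : Multiplicative I →* ℂ where
  toFun w := ((x w.toAdd : Circle) : ℂ)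
  map_one' := by
    change ((x 0 : Circle) : ℂ) = 1
    rw [EE_zero hx]
    rfl
  map_mul' v w := by
    change ((x (v.toAdd + w.toAdd) : Circle) : ℂ) = _
    rw [hx]
    rfl

/-- evaluation of a trigonometric polynomial -/
noncomputable def evl (x : I → Circle) (hx : x ∈ EE I) : AddMonoidAlgebra ℂ I →ₐ[ℂ] ℂ :=
  AddMonoidAlgebra.lift ℂ ℂ I (chi x hx)

lemma evl_single (x : I → Circle) (hx : x ∈ EE I) (w : I) (c : ℂ) :
    evl x hx (AddMonoidAlgebra.single w c) = c * x w := by
  unfold evl
  rw [AddMonoidAlgebra.lift_single]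
  rfl

lemma exists_star (s : AddMonoidAlgebra ℂ I) : ∃ t : AddMonoidAlgebra ℂ I,
    ∀ (x : I → Circle) (hx : x ∈ EE I), evl x hx t = (starRingEnd ℂ) (evl x hx s) := by
  induction s using AddMonoidAlgebra.induction_linear with
  | zero => exact ⟨0, fun x hx => by simp⟩
  | add f g hf hg =>
    obtain ⟨a, ha⟩ := hf
    obtain ⟨b, hb⟩ := hg
    exact ⟨a + b, fun x hx => by rw [map_add, map_add, map_add, ha, hb]⟩
  | single w c =>
    refine ⟨AddMonoidAlgebra.single (-w) ((starRingEnd ℂ) c), fun x hx => ?_⟩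
    rw [evl_single, evl_single, map_mul, EE_neg_coe hx]

/-- the star subalgebra of functions which are trigonometric polynomials on the characters -/
noncomputable def trigAlg (I : Type*) [AddCommGroup I] : StarSubalgebra ℂ ((I → Circle) →ᵇ ℂ) where
  carrier := {g | ∃ s : AddMonoidAlgebra ℂ I, ∀ (x : I → Circle) (hx : x ∈ EE I),
    g x = evl x hx s}
  mul_mem' := by
    rintro f g ⟨s, hs⟩ ⟨t, ht⟩
    exact ⟨s * t, fun x hx => by rw [map_mul, ← hs, ← ht]; rfl⟩
  one_mem' := ⟨1, fun x hx => by rw [map_one]; rfl⟩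
  add_mem' := by
    rintro f g ⟨s, hs⟩ ⟨t, ht⟩
    exact ⟨s + t, fun x hx => by rw [map_add, ← hs, ← ht]; rfl⟩
  zero_mem' := ⟨0, fun x hx => by rw [map_zero]; rfl⟩
  algebraMap_mem' c := ⟨algebraMap ℂ _ c, fun x hx => by rw [AlgHom.commutes]; rfl⟩
  star_mem' := by
    rintro f ⟨s, hs⟩
    obtain ⟨t, ht⟩ := exists_star s
    exact ⟨t, fun x hx => by rw [ht, ← hs]; rfl⟩

/-- the coordinate functions -/
noncomputable def coordF (w : I) : (I → Circle) →ᵇ ℂ :=
  BoundedContinuousFunction.mkOfBound
    ⟨fun x => ((x w : Circle) : ℂ), by fun_prop⟩ 2 (by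
      intro x y
      rw [dist_eq_norm]
      refine (norm_sub_le _ _).trans ?_
      simp only [ContinuousMap.coe_mk, Circle.norm_coe]
      norm_num)

lemma coordF_mem (w : I) : coordF w ∈ trigAlg I :=
  ⟨AddMonoidAlgebra.single w 1, fun x hx => by rw [evl_single, one_mul]; rfl⟩

end Alg

lemma ae_EE (Q : Measure (I → Circle)) (h : ∀ v w, ∀ᵐ x ∂Q, x (v + w) = x v * x w) :
    ∀ᵐ x ∂Q, x ∈ EE I := by
  unfold EE
  simp only [Set.mem_ofPred_eq]
  rw [ae_all_iff]
  intro v
  rw [ae_all_iff]
  exact h v

omit [Countable I] [AddCommGroup I] in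
lemma measurable_coe (w : I) : Measurable (fun x : I → Circle => ((x w : Circle) : ℂ)) :=
  (Continuous.measurable (by fun_prop) : Measurable (fun z : Circle => (z : ℂ))).comp
    (measurable_pi_apply w)

omit [Countable I] [AddCommGroup I] in
lemma integrable_coe (Q : Measure (I → Circle)) [IsFiniteMeasure Q] (w : I) :
    Integrable (fun x : I → Circle => ((x w : Circle) : ℂ)) Q :=
  Integrable.of_bound (measurable_coe w).aestronglyMeasurable 1
    (Eventually.of_forall fun x => by rw [Circle.norm_coe])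

theorem measure_ext (Q Q' : Measure (I → Circle)) [IsFiniteMeasure Q] [IsFiniteMeasure Q']
    (h : ∀ v w, ∀ᵐ x ∂Q, x (v + w) = x v * x w) (h' : ∀ v w, ∀ᵐ x ∂Q', x (v + w) = x v * x w)
    (hf : ∀ w, ∫ x, ((x w : Circle) : ℂ) ∂Q = ∫ x, ((x w : Circle) : ℂ) ∂Q') : Q = Q' := by
  classical
  have hE := ae_EE Q h
  have hE' := ae_EE Q' h'
  refine ext_of_forall_mem_subalgebra_integral_eq_of_polish (A := trigAlg I) ?_ ?_
  · intro x y hxy
    obtain ⟨w, hw⟩ : ∃ w, x w ≠ y w := by
      by_contra hc
      push Not at hc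
      exact hxy (funext hc)
    refine ⟨_, ⟨toContinuousMapStarₐ ℂ (coordF w), ⟨coordF w, coordF_mem w, rfl⟩, rfl⟩, ?_⟩
    intro he
    exact hw (Circle.ext he)
  · rintro g ⟨s, hs⟩
    have key : ∀ s : AddMonoidAlgebra ℂ I, ∃ G : (I → Circle) → ℂ,
        (∀ x (hx : x ∈ EE I), G x = evl x hx s) ∧ Integrable G Q ∧ Integrable G Q' ∧
          ∫ x, G x ∂Q = ∫ x, G x ∂Q' := by
      intro s
      induction s using AddMonoidAlgebra.induction_linear with
      | zero => exact ⟨0, fun x hx => by simp, integrable_zero _ _ _, integrable_zero _ _ _, by simp⟩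
      | add f g hf hg =>
        obtain ⟨a, ha, ha1, ha2, ha3⟩ := hf
        obtain ⟨b, hb, hb1, hb2, hb3⟩ := hg
        refine ⟨a + b, fun x hx => by rw [map_add, ← ha, ← hb]; rfl, ha1.add hb1, ha2.add hb2, ?_⟩
        simp only [Pi.add_apply]
        rw [integral_add ha1 hb1, integral_add ha2 hb2, ha3, hb3]
      | single w c =>
        refine ⟨fun x => c * x w, fun x hx => by rw [evl_single],
          (integrable_coe Q w).const_mul c, (integrable_coe Q' w).const_mul c, ?_⟩
        rw [integral_const_mul, integral_const_mul, hf]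
    obtain ⟨G, hG, -, -, hG3⟩ := key s
    have e1 : ∫ x, g x ∂Q = ∫ x, G x ∂Q := by
      refine integral_congr_ae ?_
      filter_upwards [hE] with x hx
      rw [hs x hx, hG x hx]
    have e2 : ∫ x, g x ∂Q' = ∫ x, G x ∂Q' := by
      refine integral_congr_ae ?_
      filter_upwards [hE'] with x hx
      rw [hs x hx, hG x hx]
    rw [e1, e2, hG3]

/-- the real case -/
lemma complete_real (Q : Measure (I → Circle)) [IsFiniteMeasure Q]
    (h : ∀ v w, ∀ᵐ x ∂Q, x (v + w) = x v * x w) (f : (I → Circle) → ℝ) (hf : Integrable f Q)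
    (h0 : ∀ w, ∫ x, (f x : ℂ) * ((x w : Circle) : ℂ) ∂Q = 0) : f =ᵐ[Q] 0 := by
  have hp : AEMeasurable (fun x => ENNReal.ofReal (f x)) Q := hf.aemeasurable.ennreal_ofReal
  have hn : AEMeasurable (fun x => ENNReal.ofReal (-f x)) Q := hf.neg.aemeasurable.ennreal_ofReal
  have hpi : ∫⁻ x, ENNReal.ofReal (f x) ∂Q ≠ ⊤ := by
    refine ne_top_of_le_ne_top hf.2.ne (lintegral_mono fun x => ?_)
    exact Real.ofReal_le_enorm (f x)
  have hni : ∫⁻ x, ENNReal.ofReal (-f x) ∂Q ≠ ⊤ := by
    refine ne_top_of_le_ne_top hf.neg.2.ne (lintegral_mono fun x => ?_)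
    exact Real.ofReal_le_enorm (-f x)
  have : IsFiniteMeasure (Q.withDensity fun x => ENNReal.ofReal (f x)) :=
    isFiniteMeasure_withDensity hpi
  have : IsFiniteMeasure (Q.withDensity fun x => ENNReal.ofReal (-f x)) :=
    isFiniteMeasure_withDensity hni
  have key : (Q.withDensity fun x => ENNReal.ofReal (f x)) =
      Q.withDensity fun x => ENNReal.ofReal (-f x) := by
    refine measure_ext _ _ (fun v w => ?_) (fun v w => ?_) fun w => ?_
    · exact (withDensity_absolutelyContinuous _ _).ae_le (h v w)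
    · exact (withDensity_absolutelyContinuous _ _).ae_le (h v w)
    · rw [integral_withDensity_eq_integral_toReal_smul₀ hp (by simp),
        integral_withDensity_eq_integral_toReal_smul₀ hn (by simp), ← sub_eq_zero,
        ← integral_sub, ← h0 w]
      · refine integral_congr_ae (Eventually.of_forall fun x => ?_)
        simp only [Complex.real_smul]
        rw [← sub_mul, ← Complex.ofReal_sub]
        congr 2
        rcases le_total 0 (f x) with h1 | h1
        · rw [ENNReal.toReal_ofReal h1, ENNReal.ofReal_of_nonpos (by linarith)]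
          simp
        · rw [ENNReal.ofReal_of_nonpos h1, ENNReal.toReal_ofReal (by linarith)]
          simp
      · refine Integrable.mono' hf.norm ?_ (Eventually.of_forall fun x => ?_)
        · exact hp.ennreal_toReal.aestronglyMeasurable.smul
            (measurable_coe w).aestronglyMeasurable
        · rw [norm_smul, Circle.norm_coe, mul_one, Real.norm_of_nonneg ENNReal.toReal_nonneg]
          rcases le_total 0 (f x) with h1 | h1
          · rw [ENNReal.toReal_ofReal h1]
            exact Real.le_norm_self _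
          · rw [ENNReal.ofReal_of_nonpos h1]
            simp
      · refine Integrable.mono' hf.norm ?_ (Eventually.of_forall fun x => ?_)
        · exact hn.ennreal_toReal.aestronglyMeasurable.smul
            (measurable_coe w).aestronglyMeasurable
        · rw [norm_smul, Circle.norm_coe, mul_one, Real.norm_of_nonneg ENNReal.toReal_nonneg]
          rcases le_total 0 (-f x) with h1 | h1
          · rw [ENNReal.toReal_ofReal h1, ← norm_neg]
            exact Real.le_norm_self _
          · rw [ENNReal.ofReal_of_nonpos h1]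
            simp
  rw [withDensity_eq_iff hp hn hpi] at key
  filter_upwards [key] with x hx
  rcases le_total 0 (f x) with h1 | h1
  · rw [ENNReal.ofReal_of_nonpos (by linarith : -f x ≤ 0), ENNReal.ofReal_eq_zero] at hx
    exact le_antisymm hx h1
  · rw [ENNReal.ofReal_of_nonpos h1, eq_comm, ENNReal.ofReal_eq_zero] at hx
    have h2 : 0 ≤ f x := by linarith
    exact le_antisymm h1 h2

theorem complete (Q : Measure (I → Circle)) [IsFiniteMeasure Q]
    (h : ∀ v w, ∀ᵐ x ∂Q, x (v + w) = x v * x w) (f : (I → Circle) → ℂ) (hf : Integrable f Q)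
    (h0 : ∀ w, ∫ x, f x * ((x w : Circle) : ℂ) ∂Q = 0) : f =ᵐ[Q] 0 := by
  have hE := ae_EE Q h
  have hint : ∀ w, Integrable (fun x => f x * ((x w : Circle) : ℂ)) Q := by
    intro w
    refine Integrable.mono' hf.norm (hf.aestronglyMeasurable.mul
      (measurable_coe w).aestronglyMeasurable) (Eventually.of_forall fun x => ?_)
    rw [norm_mul, Circle.norm_coe, mul_one]
  have hint' : ∀ w, Integrable (fun x => (starRingEnd ℂ) (f x) * ((x w : Circle) : ℂ)) Q := by
    intro w
    refine Integrable.mono' hf.norm ((Complex.continuous_conj.comp_aestronglyMeasurable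
      hf.aestronglyMeasurable).mul
      (measurable_coe w).aestronglyMeasurable) (Eventually.of_forall fun x => ?_)
    rw [norm_mul, Circle.norm_coe, mul_one, RCLike.norm_conj]
  have h1 : ∀ w, ∫ x, (starRingEnd ℂ) (f x) * ((x w : Circle) : ℂ) ∂Q = 0 := by
    intro w
    have h2 : ∫ x, (starRingEnd ℂ) (f x * ((x (-w) : Circle) : ℂ)) ∂Q = 0 := by
      rw [integral_conj, h0, map_zero]
    rw [← h2]
    refine integral_congr_ae ?_
    filter_upwards [hE] with x hx
    rw [map_mul, EE_neg_coe hx, Complex.conj_conj]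
  have hre : (fun x => (f x).re) =ᵐ[Q] 0 := by
    refine complete_real Q h _ hf.re fun w => ?_
    have h2 : ∀ x : I → Circle, ((f x).re : ℂ) * ((x w : Circle) : ℂ) =
        (2 : ℂ)⁻¹ * (f x * ((x w : Circle) : ℂ) + (starRingEnd ℂ) (f x) * ((x w : Circle) : ℂ)) := by
      intro x
      rw [← add_mul, Complex.add_conj]
      push_cast
      ring
    simp only [h2]
    rw [integral_const_mul, integral_add (hint w) (hint' w), h0, h1]
    simp
  have him : (fun x => (f x).im) =ᵐ[Q] 0 := by
    refine complete_real Q h _ hf.im fun w => ?_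
    have h2 : ∀ x : I → Circle, ((f x).im : ℂ) * ((x w : Circle) : ℂ) =
        (2 * Complex.I)⁻¹ * (f x * ((x w : Circle) : ℂ) -
          (starRingEnd ℂ) (f x) * ((x w : Circle) : ℂ)) := by
      intro x
      rw [← sub_mul, Complex.sub_conj]
      have : (Complex.I : ℂ) ≠ 0 := Complex.I_ne_zero
      field_simp
      push_cast
      ring
    simp only [h2]
    rw [integral_const_mul, integral_sub (hint w) (hint' w), h0, h1]
    simp
  filter_upwards [hre, him] with x h2 h3
  exact Complex.ext (by simpa using h2) (by simpa using h3)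

end Pool.Agent.PPR
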