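import Mathlib

/-!
# Rational valued completely additive functions with bounded defects vanish
-/

set_option autoImplicit false

namespace Pool.Agent.PPR

open Finset

/-- Extension of `l` to the rationals. -/
noncomputable def ntL (l : ℕ → ℚ) (x : ℚ) : ℚ := l x.num.natAbs - l x.den

lemma ntL_div (l : ℕ → ℚ) (hl : ∀ a b : ℕ, 0 < a → 0 < b → l (a * b) = l a + l b)
    (a b : ℕ) (ha : 0 < a) (hb : 0 < b) : ntL l ((a : ℚ) / b) = l a - l b := by
  set x : ℚ := (a : ℚ) / b with hx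
  have hxpos : 0 < x := by positivity
  have hnum : 0 < x.num.natAbs := Int.natAbs_pos.2 (Rat.num_pos.2 hxpos).ne'
  have hden : 0 < x.den := x.den_pos
  have h1 : a * x.den = x.num.natAbs * b := by
    have h2 : (x.num : ℚ) / x.den = (a : ℚ) / b := by rw [Rat.num_div_den]
    have hd : (x.den : ℚ) ≠ 0 := by exact_mod_cast hden.ne'
    have hb' : (b : ℚ) ≠ 0 := by exact_mod_cast hb.ne'
    rw [div_eq_div_iff hd hb'] at h2
    have h3 : ((x.num.natAbs : ℤ)) = x.num := Int.natAbs_of_nonneg (Rat.num_pos.2 hxpos).le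
    have h4 : (x.num : ℤ) * b = a * x.den := by exact_mod_cast h2
    rw [← h3] at h4
    exact_mod_cast h4.symm
  have h5 := hl a x.den ha hden
  have h6 := hl x.num.natAbs b hnum hb
  unfold ntL
  rw [h1] at h5
  linarith

lemma ntL_nat (l : ℕ → ℚ) (hl : ∀ a b : ℕ, 0 < a → 0 < b → l (a * b) = l a + l b)
    (a : ℕ) (ha : 0 < a) : ntL l (a : ℚ) = l a := by
  have h := ntL_div l hl a 1 ha one_pos
  have h1 : l 1 = 0 := by
    have := hl 1 1 one_pos one_pos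
    simp at this
    exact this
  simpa [h1] using h

lemma nt_rep (x : ℚ) (hx : 0 < x) : ∃ a b : ℕ, 0 < a ∧ 0 < b ∧ x = (a : ℚ) / b := by
  refine ⟨x.num.natAbs, x.den, Int.natAbs_pos.2 (Rat.num_pos.2 hx).ne', x.den_pos, ?_⟩
  have h3 : ((x.num.natAbs : ℤ)) = x.num := Int.natAbs_of_nonneg (Rat.num_pos.2 hx).le
  have h4 : ((x.num.natAbs : ℕ) : ℚ) = (x.num : ℚ) := by rw [← Int.cast_natCast, h3]
  rw [h4, Rat.num_div_den]

lemma ntL_mul (l : ℕ → ℚ) (hl : ∀ a b : ℕ, 0 < a → 0 < b → l (a * b) = l a + l b)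
    (x z : ℚ) (hx : 0 < x) (hz : 0 < z) : ntL l (x * z) = ntL l x + ntL l z := by
  obtain ⟨a, b, ha, hb, rfl⟩ := nt_rep x hx
  obtain ⟨a', b', ha', hb', rfl⟩ := nt_rep z hz
  have h1 : (a : ℚ) / b * (a' / b') = ((a * a' : ℕ) : ℚ) / ((b * b' : ℕ) : ℚ) := by
    push_cast
    rw [div_mul_div_comm]
  rw [h1, ntL_div l hl _ _ (Nat.mul_pos ha ha') (Nat.mul_pos hb hb'), ntL_div l hl _ _ ha hb,
    ntL_div l hl _ _ ha' hb', hl _ _ ha ha', hl _ _ hb hb']
  ring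

lemma ntL_zpow (l : ℕ → ℚ) (hl : ∀ a b : ℕ, 0 < a → 0 < b → l (a * b) = l a + l b)
    (x : ℚ) (hx : 0 < x) (i : ℤ) : ntL l (x ^ i) = i * ntL l x := by
  have h1 : ntL l 1 = 0 := by
    have := ntL_mul l hl 1 1 one_pos one_pos
    simp at this
    exact this
  have hn : ∀ n : ℕ, ntL l (x ^ n) = n * ntL l x := by
    intro n
    induction n with
    | zero => simp [h1]
    | succ n ih =>
      rw [pow_succ, ntL_mul l hl _ _ (pow_pos hx n) hx, ih]
      push_cast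
      ring
  rcases i with n | n
  · simpa using hn n
  · rw [zpow_negSucc]
    have h2 := ntL_mul l hl ((x ^ (n + 1))⁻¹) (x ^ (n + 1)) (by positivity) (by positivity)
    rw [inv_mul_cancel₀ (by positivity), h1, hn (n + 1)] at h2
    push_cast at h2 ⊢
    linarith

section

variable (y : ℕ) (l : ℕ → ℚ)

/-- the function `x ^ y L(x)` -/
noncomputable def ntD (x : ℚ) : ℝ := ((x ^ y * ntL l x : ℚ) : ℝ)

/-- The relation for rational arguments and arbitrary index types. -/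
lemma nt_rat (hl : ∀ a b : ℕ, 0 < a → 0 < b → l (a * b) = l a + l b)
    (h : ∀ (s : ℕ) (c : Fin s → ℚ), ∃ C : ℝ, ∀ k : Fin s → ℕ, (∀ j, 0 < k j) →
      ∑ j, c j * (k j : ℚ) ^ y = 0 →
      |((∑ j, c j * (k j : ℚ) ^ y * l (k j) : ℚ) : ℝ)| ≤ C * ∑ j, (k j : ℝ) ^ y)
    (σ : Type) [Fintype σ] (c : σ → ℚ) :
    ∃ C : ℝ, 0 ≤ C ∧ ∀ z : σ → ℚ, (∀ j, 0 < z j) → ∑ j, c j * z j ^ y = 0 →
      |∑ j, (c j : ℝ) * ntD y l (z j)| ≤ C * ∑ j, ((z j : ℚ) : ℝ) ^ y := by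
  classical
  let eq := Fintype.equivFin σ
  obtain ⟨C, hC⟩ := h (Fintype.card σ) (c ∘ eq.symm)
  refine ⟨max C 0, le_max_right _ _, fun z hz hsum => ?_⟩
  choose a b ha hb hab using fun j => nt_rep (z j) (hz j)
  -- common denominator
  set M : ℕ := ∏ j, b j with hM
  have hMpos : 0 < M := Finset.prod_pos fun j _ => hb j
  set k : σ → ℕ := fun j => a j * ∏ i ∈ univ.erase j, b i with hk
  have hkpos : ∀ j, 0 < k j := fun j =>
    Nat.mul_pos (ha j) (Finset.prod_pos fun i _ => hb i)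
  have hkz : ∀ j, (k j : ℚ) = M * z j := by
    intro j
    have hb' : (b j : ℚ) ≠ 0 := by exact_mod_cast (hb j).ne'
    have h1 : (M : ℚ) = b j * ∏ i ∈ univ.erase j, (b i : ℚ) := by
      rw [hM]
      push_cast
      exact (Finset.mul_prod_erase univ (fun i => (b i : ℚ)) (mem_univ j)).symm
    simp only [hk]
    push_cast
    rw [h1, hab j]
    field_simp
  have hMq : (0 : ℚ) < M := by exact_mod_cast hMpos
  have hs1 : ∑ j : Fin (Fintype.card σ), (c ∘ eq.symm) j * ((k ∘ eq.symm) j : ℚ) ^ y = 0 := by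
    simp only [Function.comp_apply]
    rw [Equiv.sum_comp eq.symm (fun j => c j * (k j : ℚ) ^ y)]
    have : ∀ j, c j * (k j : ℚ) ^ y = (M : ℚ) ^ y * (c j * z j ^ y) := fun j => by
      rw [hkz j]; ring
    simp_rw [this]
    rw [← Finset.mul_sum, hsum, mul_zero]
  have h2 := hC (k ∘ eq.symm) (fun j => hkpos _) hs1
  simp only [Function.comp_apply] at h2
  rw [Equiv.sum_comp eq.symm (fun j => c j * (k j : ℚ) ^ y * l (k j)),
    Equiv.sum_comp eq.symm (fun j => ((k j : ℕ) : ℝ) ^ y)] at h2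
  have h3 : ∑ j, c j * (k j : ℚ) ^ y * l (k j)
      = (M : ℚ) ^ y * ∑ j, c j * (z j ^ y * ntL l (z j)) := by
    have h4 : ∀ j, c j * (k j : ℚ) ^ y * l (k j)
        = (M : ℚ) ^ y * (c j * (z j ^ y * ntL l (z j)))
          + (M : ℚ) ^ y * ntL l M * (c j * z j ^ y) := by
      intro j
      rw [← ntL_nat l hl (k j) (hkpos j), hkz j, ntL_mul l hl _ _ hMq (hz j)]
      ring
    simp_rw [h4]
    rw [Finset.sum_add_distrib, ← Finset.mul_sum, ← Finset.mul_sum, hsum, mul_zero, add_zero]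
  have h5 : ∑ j, ((k j : ℕ) : ℝ) ^ y = (M : ℝ) ^ y * ∑ j, ((z j : ℚ) : ℝ) ^ y := by
    rw [Finset.mul_sum]
    refine Finset.sum_congr rfl fun j _ => ?_
    have : ((k j : ℕ) : ℝ) = (M : ℝ) * ((z j : ℚ) : ℝ) := by exact_mod_cast hkz j
    rw [this, mul_pow]
  rw [h3, h5] at h2
  have hMr : (0 : ℝ) < (M : ℝ) ^ y := by positivity
  have h6 : ((((M : ℚ) ^ y * ∑ j, c j * (z j ^ y * ntL l (z j)) : ℚ)) : ℝ)
      = (M : ℝ) ^ y * ∑ j, (c j : ℝ) * ntD y l (z j) := by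
    unfold ntD
    push_cast
    rfl
  rw [h6, abs_mul, abs_of_pos hMr, ← mul_assoc, mul_comm C, mul_assoc] at h2
  have h7 := le_of_mul_le_mul_left h2 hMr
  refine h7.trans ?_
  refine mul_le_mul_of_nonneg_right (le_max_left _ _) ?_
  exact Finset.sum_nonneg fun j _ => by
    have : (0 : ℝ) < ((z j : ℚ) : ℝ) := by exact_mod_cast hz j
    positivity

end

/-! ### Forward differences -/

lemma nt_diff (n : ℕ) (k : ℕ) (hk : k ≤ n) :
    ∑ j ∈ range (n + 1), ((-1 : ℚ) ^ (n - j) * n.choose j) * (1 + (j : ℚ)) ^ k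
      = if k = n then (n.factorial : ℚ) else 0 := by
  have h1 : (fwdDiff (1 : ℚ))^[n] (fun r : ℚ => r ^ k) 1
      = ∑ j ∈ range (n + 1), ((-1 : ℚ) ^ (n - j) * n.choose j) * (1 + (j : ℚ)) ^ k := by
    rw [fwdDiff_iter_eq_sum_shift]
    refine Finset.sum_congr rfl fun j _ => ?_
    rw [zsmul_eq_mul]
    push_cast
    simp
  rw [← h1]
  split_ifs with h
  · subst h
    rw [fwdDiff_iter_eq_factorial]
    rfl
  · rw [fwdDiff_iter_pow_eq_zero_of_lt (lt_of_le_of_ne hk h)]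
    rfl

/-- The linear function `x` as a combination of `(x + 1 + j) ^ y` and a constant. -/
lemma nt_lin (n : ℕ) (x : ℚ) :
    ∑ j : Fin (n + 1), (((-1 : ℚ) ^ (n - (j : ℕ)) * n.choose j) / ((n + 1).factorial : ℚ))
        * (x + 1 + (j : ℕ)) ^ (n + 1)
      - ∑ j : Fin (n + 1), (((-1 : ℚ) ^ (n - (j : ℕ)) * n.choose j) / ((n + 1).factorial : ℚ))
        * (1 + ((j : ℕ) : ℚ)) ^ (n + 1) = x := by
  have hf : ((n + 1).factorial : ℚ) ≠ 0 := by exact_mod_cast (Nat.factorial_pos _).ne'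
  have e1 : ∀ j : ℕ, (x + 1 + (j : ℚ)) ^ (n + 1)
      = ∑ m ∈ range (n + 1 + 1), x ^ m * (1 + (j : ℚ)) ^ (n + 1 - m) * ((n + 1).choose m) := by
    intro j
    rw [add_assoc, add_pow]
  have e2 : ∑ j ∈ range (n + 1), ((-1 : ℚ) ^ (n - j) * n.choose j) * (x + 1 + (j : ℚ)) ^ (n + 1)
      = ∑ m ∈ range (n + 1 + 1), x ^ m * ((n + 1).choose m)
        * ∑ j ∈ range (n + 1), ((-1 : ℚ) ^ (n - j) * n.choose j)
          * (1 + (j : ℚ)) ^ (n + 1 - m) := by
    simp_rw [e1, Finset.mul_sum]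
    rw [Finset.sum_comm]
    refine Finset.sum_congr rfl fun m _ => Finset.sum_congr rfl fun j _ => ?_
    ring
  have e3 : ∑ j ∈ range (n + 1), ((-1 : ℚ) ^ (n - j) * n.choose j) * (x + 1 + (j : ℚ)) ^ (n + 1)
      = ∑ j ∈ range (n + 1), ((-1 : ℚ) ^ (n - j) * n.choose j) * (1 + (j : ℚ)) ^ (n + 1)
        + x * ((n + 1).factorial : ℚ) := by
    rw [e2, Finset.sum_range_succ']
    have e4 : ∀ m ∈ range (n + 1), x ^ (m + 1) * ((n + 1).choose (m + 1))
        * ∑ j ∈ range (n + 1), ((-1 : ℚ) ^ (n - j) * n.choose j)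
          * (1 + (j : ℚ)) ^ (n + 1 - (m + 1))
        = if m = 0 then x * ((n + 1).factorial : ℚ) else 0 := by
      intro m hm
      rw [nt_diff n (n + 1 - (m + 1)) (by omega)]
      by_cases h0 : m = 0
      · subst h0
        simp [Nat.factorial_succ]
        ring
      · have hm' := Finset.mem_range.1 hm
        rw [if_neg (by omega), if_neg h0, mul_zero]
    rw [Finset.sum_congr rfl e4]
    simp
    ring
  have conv : ∀ g : ℕ → ℚ, ∑ j : Fin (n + 1),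
      (((-1 : ℚ) ^ (n - (j : ℕ)) * n.choose j) / ((n + 1).factorial : ℚ)) * g j
      = (∑ j ∈ range (n + 1), ((-1 : ℚ) ^ (n - j) * n.choose j) * g j)
        / ((n + 1).factorial : ℚ) := by
    intro g
    rw [Finset.sum_div, ← Fin.sum_univ_eq_sum_range
      (fun j => ((-1 : ℚ) ^ (n - j) * n.choose j) * g j / ((n + 1).factorial : ℚ))]
    refine Finset.sum_congr rfl fun j _ => ?_
    ring
  rw [conv (fun j => (x + 1 + (j : ℚ)) ^ (n + 1)), conv (fun j => (1 + (j : ℚ)) ^ (n + 1)), e3]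
  field_simp
  ring

/-- The coefficients. -/
noncomputable def ntB (n : ℕ) (j : Fin (n + 1)) : ℚ :=
  ((-1 : ℚ) ^ (n - (j : ℕ)) * n.choose j) / ((n + 1).factorial : ℚ)

/-- The constant. -/
noncomputable def ntA (n : ℕ) : ℚ := ∑ j : Fin (n + 1), ntB n j * (1 + ((j : ℕ) : ℚ)) ^ (n + 1)

lemma nt_lin' (n : ℕ) (x : ℚ) :
    ∑ j : Fin (n + 1), ntB n j * (x + 1 + (j : ℕ)) ^ (n + 1) - ntA n = x := nt_lin n x

/-- The combination `E`. -/
noncomputable def ntE (n : ℕ) (l : ℕ → ℚ) (x : ℚ) : ℝ :=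
  ∑ j : Fin (n + 1), (ntB n j : ℝ) * ntD (n + 1) l (x + 1 + (j : ℕ))

lemma ntD_one (y : ℕ) (l : ℕ → ℚ)
    (hl : ∀ a b : ℕ, 0 < a → 0 < b → l (a * b) = l a + l b) : ntD y l 1 = 0 := by
  have h1 : ntL l 1 = 0 := by
    have := ntL_mul l hl 1 1 one_pos one_pos
    simp at this
    exact this
  simp [ntD, h1]

section

variable (n : ℕ) (l : ℕ → ℚ)
  (hl : ∀ a b : ℕ, 0 < a → 0 < b → l (a * b) = l a + l b)
  (h : ∀ (s : ℕ) (c : Fin s → ℚ), ∃ C : ℝ, ∀ k : Fin s → ℕ, (∀ j, 0 < k j) →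
      ∑ j, c j * (k j : ℚ) ^ (n + 1) = 0 →
      |((∑ j, c j * (k j : ℚ) ^ (n + 1) * l (k j) : ℚ) : ℝ)| ≤ C * ∑ j, (k j : ℝ) ^ (n + 1))

include hl h

lemma nt_quasi : ∃ C : ℝ, ∀ x x' : ℚ, 0 ≤ x → x ≤ 1 → 0 ≤ x' → x' ≤ 1 →
    |ntE n l (x + x') - ntE n l x - ntE n l x'| ≤ C := by
  obtain ⟨C, hC0, hC⟩ := nt_rat (n + 1) l hl h ((Fin 3 × Fin (n + 1)) ⊕ Unit)
    (Sum.elim (fun q => (![1, -1, -1] : Fin 3 → ℚ) q.1 * ntB n q.2) (fun _ => ntA n))
  refine ⟨C * ∑ _j : (Fin 3 × Fin (n + 1)) ⊕ Unit, ((n : ℝ) + 4) ^ (n + 1),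
    fun x x' hx hx1 hx' hx1' => ?_⟩
  set z : (Fin 3 × Fin (n + 1)) ⊕ Unit → ℚ :=
    Sum.elim (fun q => (![x + x', x, x'] : Fin 3 → ℚ) q.1 + 1 + ((q.2 : ℕ) : ℚ)) (fun _ => 1)
    with hz
  have hb : ∀ a : Fin 3, 0 ≤ (![x + x', x, x'] : Fin 3 → ℚ) a ∧
      (![x + x', x, x'] : Fin 3 → ℚ) a ≤ 2 := by
    intro a
    fin_cases a <;> simp <;> constructor <;> linarith
  have hzpos : ∀ j, 0 < z j := by
    rintro (⟨a, j⟩ | u)
    · have := (hb a).1
      simp only [hz, Sum.elim_inl]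
      positivity
    · simp [hz]
  have hzle : ∀ j, z j ≤ n + 4 := by
    rintro (⟨a, j⟩ | u)
    · have h1 := (hb a).2
      simp only [hz, Sum.elim_inl]
      have h2 : ((j : ℕ) : ℚ) ≤ n := by exact_mod_cast Nat.lt_succ_iff.1 j.2
      linarith
    · simp only [hz, Sum.elim_inr]
      have : (0 : ℚ) ≤ n := Nat.cast_nonneg n
      linarith
  have hsum : ∑ j, (Sum.elim (fun q : Fin 3 × Fin (n + 1) =>
      (![1, -1, -1] : Fin 3 → ℚ) q.1 * ntB n q.2) (fun _ => ntA n) : _ → ℚ) j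
      * z j ^ (n + 1) = 0 := by
    rw [Fintype.sum_sum_type]
    simp only [hz, Sum.elim_inl, Sum.elim_inr, Finset.univ_unique, Finset.sum_singleton,
      one_pow, mul_one]
    rw [Fintype.sum_prod_type, Fin.sum_univ_three]
    simp only [Matrix.cons_val_zero, Matrix.cons_val_one, Matrix.cons_val_two, Matrix.head_cons,
      Matrix.tail_cons, one_mul, neg_mul, Finset.sum_neg_distrib]
    have e1 := nt_lin' n (x + x')
    have e2 := nt_lin' n x
    have e3 := nt_lin' n x'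
    linarith
  have hmain := hC z hzpos hsum
  have hlhs : ∑ j, (((Sum.elim (fun q : Fin 3 × Fin (n + 1) =>
      (![1, -1, -1] : Fin 3 → ℚ) q.1 * ntB n q.2) (fun _ => ntA n) : _ → ℚ) j : ℚ) : ℝ)
      * ntD (n + 1) l (z j) = ntE n l (x + x') - ntE n l x - ntE n l x' := by
    rw [Fintype.sum_sum_type]
    simp only [hz, Sum.elim_inl, Sum.elim_inr, Finset.univ_unique, Finset.sum_singleton]
    rw [ntD_one (n + 1) l hl, Fintype.sum_prod_type, Fin.sum_univ_three]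
    simp only [Matrix.cons_val_zero, Matrix.cons_val_one, Matrix.cons_val_two, Matrix.head_cons,
      Matrix.tail_cons, one_mul, neg_mul, Finset.sum_neg_distrib, Matrix.cons_val]
    unfold ntE
    push_cast
    simp only [neg_mul, Finset.sum_neg_distrib]
    ring
  rw [hlhs] at hmain
  refine hmain.trans (mul_le_mul_of_nonneg_left (Finset.sum_le_sum fun j _ => ?_) hC0)
  have h1 : (0 : ℝ) ≤ ((z j : ℚ) : ℝ) := by exact_mod_cast (hzpos j).le
  have h2 : ((z j : ℚ) : ℝ) ≤ (n : ℝ) + 4 := by exact_mod_cast hzle j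
  exact pow_le_pow_left₀ h1 h2 _

lemma nt_close : ∃ C : ℝ, ∀ x : ℚ, 0 < x → x ≤ 1 →
    |ntD (n + 1) l x - ntE n l (x ^ (n + 1))| ≤ C := by
  obtain ⟨C, hC0, hC⟩ := nt_rat (n + 1) l hl h (Unit ⊕ (Fin (n + 1) ⊕ Unit))
    (Sum.elim (fun _ => 1) (Sum.elim (fun j => - ntB n j) (fun _ => ntA n)))
  refine ⟨C * ∑ _j : Unit ⊕ (Fin (n + 1) ⊕ Unit), ((n : ℝ) + 4) ^ (n + 1),
    fun x hx hx1 => ?_⟩
  have hu0 : 0 < x ^ (n + 1) := pow_pos hx _
  have hu1 : x ^ (n + 1) ≤ 1 := pow_le_one₀ hx.le hx1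
  set z : Unit ⊕ (Fin (n + 1) ⊕ Unit) → ℚ :=
    Sum.elim (fun _ => x) (Sum.elim (fun j => x ^ (n + 1) + 1 + ((j : ℕ) : ℚ)) (fun _ => 1))
    with hz
  have hzpos : ∀ j, 0 < z j := by
    rintro (u | j | u)
    · simpa [hz] using hx
    · simp only [hz, Sum.elim_inl, Sum.elim_inr]
      positivity
    · simp [hz]
  have hn0 : (0 : ℚ) ≤ n := Nat.cast_nonneg n
  have hzle : ∀ j, z j ≤ n + 4 := by
    rintro (u | j | u)
    · simp only [hz, Sum.elim_inl]; linarith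
    · simp only [hz, Sum.elim_inl, Sum.elim_inr]
      have h2 : ((j : ℕ) : ℚ) ≤ n := by exact_mod_cast Nat.lt_succ_iff.1 j.2
      linarith
    · simp only [hz, Sum.elim_inr]; linarith
  have hsum : ∑ j, (Sum.elim (fun _ => (1 : ℚ)) (Sum.elim (fun j => - ntB n j)
      (fun _ => ntA n)) : Unit ⊕ (Fin (n + 1) ⊕ Unit) → ℚ) j * z j ^ (n + 1) = 0 := by
    rw [Fintype.sum_sum_type, Fintype.sum_sum_type]
    simp only [hz, Sum.elim_inl, Sum.elim_inr, Finset.univ_unique, Finset.sum_singleton,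
      one_pow, mul_one, one_mul, neg_mul, Finset.sum_neg_distrib]
    have e1 := nt_lin' n (x ^ (n + 1))
    linarith
  have hmain := hC z hzpos hsum
  have hlhs : ∑ j, (((Sum.elim (fun _ => (1 : ℚ)) (Sum.elim (fun j => - ntB n j)
      (fun _ => ntA n)) : Unit ⊕ (Fin (n + 1) ⊕ Unit) → ℚ) j : ℚ) : ℝ)
      * ntD (n + 1) l (z j) = ntD (n + 1) l x - ntE n l (x ^ (n + 1)) := by
    rw [Fintype.sum_sum_type, Fintype.sum_sum_type]
    simp only [hz, Sum.elim_inl, Sum.elim_inr, Finset.univ_unique, Finset.sum_singleton]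
    rw [ntD_one (n + 1) l hl]
    unfold ntE
    push_cast
    simp only [neg_mul, Finset.sum_neg_distrib]
    ring
  rw [hlhs] at hmain
  refine hmain.trans (mul_le_mul_of_nonneg_left (Finset.sum_le_sum fun j _ => ?_) hC0)
  have h1 : (0 : ℝ) ≤ ((z j : ℚ) : ℝ) := by exact_mod_cast (hzpos j).le
  have h2 : ((z j : ℚ) : ℝ) ≤ (n : ℝ) + 4 := by exact_mod_cast hzle j
  exact pow_le_pow_left₀ h1 h2 _

end

/-- A quasi-additive function on the rationals of `[0,1]` is bounded. -/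
lemma nt_bdd (E : ℚ → ℝ) (C : ℝ) (hE : ∀ x x' : ℚ, 0 ≤ x → x ≤ 1 → 0 ≤ x' → x' ≤ 1 →
    |E (x + x') - E x - E x'| ≤ C) :
    ∀ x : ℚ, 0 ≤ x → x ≤ 1 → |E x| ≤ 2 * |E 1| + 3 * C := by
  have hC : 0 ≤ C := (abs_nonneg _).trans (hE 0 0 le_rfl zero_le_one le_rfl zero_le_one)
  intro x hx hx1
  -- denominators
  set q : ℕ := x.den with hq
  have hqpos : 0 < q := x.den_pos
  have hqq : (0 : ℚ) < q := by exact_mod_cast hqpos
  obtain ⟨p0, hp0, hmax⟩ := Finset.exists_max_image (range (q + 1))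
    (fun p => |E ((p : ℚ) / q)|) ⟨0, by simp⟩
  have hp0' : p0 ≤ q := by
    have := Finset.mem_range.1 hp0
    omega
  set S : ℝ := |E ((p0 : ℚ) / q)| with hS
  have hmax' : ∀ p : ℕ, p ≤ q → |E ((p : ℚ) / q)| ≤ S := fun p hp =>
    hmax p (Finset.mem_range.2 (by omega))
  -- small arguments
  have hsmall : ∀ p : ℕ, 2 * p ≤ q → |E ((p : ℚ) / q)| ≤ (S + C) / 2 := by
    intro p hp
    have h1 : (0 : ℚ) ≤ (p : ℚ) / q := by positivity
    have h2 : (p : ℚ) / q ≤ 1 := by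
      rw [div_le_one hqq]
      have : p ≤ q := by omega
      exact_mod_cast this
    have h3 := hE _ _ h1 h2 h1 h2
    have h4 : (p : ℚ) / q + (p : ℚ) / q = ((2 * p : ℕ) : ℚ) / q := by push_cast; ring
    rw [h4] at h3
    have h5 := hmax' (2 * p) hp
    have h6 : |2 * E ((p : ℚ) / q)| ≤ C + S := by
      have h7 : 2 * E ((p : ℚ) / q) = E (((2 * p : ℕ) : ℚ) / q)
          - (E (((2 * p : ℕ) : ℚ) / q) - E ((p : ℚ) / q) - E ((p : ℚ) / q)) := by ring
      rw [h7]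
      refine (abs_sub _ _).trans ?_
      linarith
    rw [abs_mul, abs_of_pos (by norm_num : (0 : ℝ) < 2)] at h6
    linarith
  have hS0 : 0 ≤ S := abs_nonneg _
  have hSle : S ≤ |E 1| + C + (S + C) / 2 := by
    by_cases h1 : 2 * p0 ≤ q
    · have := hsmall p0 h1
      have h2 := abs_nonneg (E 1)
      rw [← hS] at this
      linarith
    · have h2 : 2 * (q - p0) ≤ q := by omega
      have h3 := hsmall (q - p0) h2
      have h4 : (0 : ℚ) ≤ (p0 : ℚ) / q := by positivity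
      have h5 : (p0 : ℚ) / q ≤ 1 := by
        rw [div_le_one hqq]
        exact_mod_cast hp0'
      have h6 : (0 : ℚ) ≤ ((q - p0 : ℕ) : ℚ) / q := by positivity
      have h7 : ((q - p0 : ℕ) : ℚ) / q ≤ 1 := by
        rw [div_le_one hqq]
        exact_mod_cast (Nat.sub_le q p0)
      have h8 := hE _ _ h4 h5 h6 h7
      have h9 : (p0 : ℚ) / q + ((q - p0 : ℕ) : ℚ) / q = 1 := by
        rw [← add_div, Nat.cast_sub hp0']
        field_simp
        ring
      rw [h9] at h8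
      have h10 : E ((p0 : ℚ) / q) = (E 1 - E (((q - p0 : ℕ) : ℚ) / q))
          - (E 1 - E ((p0 : ℚ) / q) - E (((q - p0 : ℕ) : ℚ) / q)) := by ring
      have h12 : S ≤ |E 1 - E (((q - p0 : ℕ) : ℚ) / q)|
          + |E 1 - E ((p0 : ℚ) / q) - E (((q - p0 : ℕ) : ℚ) / q)| :=
        (le_of_eq (congrArg abs h10)).trans (abs_sub _ _)
      have h11 := abs_sub (E 1) (E (((q - p0 : ℕ) : ℚ) / q))
      linarith
  have hxq : x = ((x.num.natAbs : ℕ) : ℚ) / q := by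
    have h3 : ((x.num.natAbs : ℤ)) = x.num := Int.natAbs_of_nonneg (Rat.num_nonneg.2 hx)
    rw [← Int.cast_natCast x.num.natAbs, h3, hq, Rat.num_div_den]
  have hle : x.num.natAbs ≤ q := by
    have h3 : ((x.num.natAbs : ℕ) : ℚ) ≤ q := by
      rw [hxq, div_le_one hqq] at hx1
      exact hx1
    exact_mod_cast h3
  have hfin := hmax' _ hle
  rw [← hxq] at hfin
  linarith

lemma nt_zero (n : ℕ) (l : ℕ → ℚ)
    (hl : ∀ a b : ℕ, 0 < a → 0 < b → l (a * b) = l a + l b) (B : ℝ)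
    (hB : ∀ x : ℚ, 0 < x → x ≤ 1 → |ntD (n + 1) l x| ≤ B) :
    ∀ m : ℕ, 0 < m → l m = 0 := by
  -- `L` is bounded on `[1/2, 1]`
  set B' : ℝ := 2 ^ (n + 1) * B with hB'
  have hL : ∀ x : ℚ, 1 / 2 ≤ x → x ≤ 1 → |((ntL l x : ℚ) : ℝ)| ≤ B' := by
    intro x hx hx1
    have hx0 : 0 < x := by linarith
    have h1 := hB x hx0 hx1
    unfold ntD at h1
    push_cast at h1
    rw [abs_mul] at h1
    have h2 : ((1 : ℝ) / 2) ^ (n + 1) ≤ |((x : ℚ) : ℝ) ^ (n + 1)| := by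
      have h3 : ((1 : ℝ) / 2) ≤ ((x : ℚ) : ℝ) := by
        have : ((1 / 2 : ℚ) : ℝ) ≤ ((x : ℚ) : ℝ) := by exact_mod_cast hx
        push_cast at this
        exact this
      rw [abs_of_nonneg (by positivity)]
      exact pow_le_pow_left₀ (by norm_num) h3 _
    have h4 : ((1 : ℝ) / 2) ^ (n + 1) * |((ntL l x : ℚ) : ℝ)| ≤ B :=
      (mul_le_mul_of_nonneg_right h2 (abs_nonneg _)).trans h1
    have h5 : (2 : ℝ) ^ (n + 1) * (((1 : ℝ) / 2) ^ (n + 1) * |((ntL l x : ℚ) : ℝ)|)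
        ≤ 2 ^ (n + 1) * B := mul_le_mul_of_nonneg_left h4 (by positivity)
    have h6 : (2 : ℝ) ^ (n + 1) * (((1 : ℝ) / 2) ^ (n + 1) * |((ntL l x : ℚ) : ℝ)|)
        = |((ntL l x : ℚ) : ℝ)| := by
      rw [← mul_assoc, ← mul_pow]
      norm_num
    rw [h6] at h5
    exact h5
  -- normalisation by powers of two
  have hnorm : ∀ x : ℚ, 0 < x → ∃ i : ℤ, 1 / 2 ≤ x * 2 ^ i ∧ x * 2 ^ i ≤ 1 := by
    intro x hx
    obtain ⟨i, hi1, hi2⟩ := exists_mem_Ioc_zpow hx (one_lt_two : (1 : ℚ) < 2)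
    refine ⟨-(i + 1), ?_, ?_⟩
    · rw [zpow_neg, ← div_eq_mul_inv, le_div_iff₀ (by positivity)]
      rw [zpow_add_one₀ (by norm_num)]
      linarith
    · rw [zpow_neg, ← div_eq_mul_inv, div_le_one (by positivity)]
      exact hi2
  have hmix : ∀ x : ℚ, 0 < x → ∀ i : ℤ, 1 / 2 ≤ x * 2 ^ i → x * 2 ^ i ≤ 1 →
      |(((ntL l x : ℚ) : ℝ) + (i : ℝ) * ((ntL l 2 : ℚ) : ℝ))| ≤ B' := by
    intro x hx i h1 h2
    have h3 := hL _ h1 h2
    rw [ntL_mul l hl _ _ hx (by positivity), ntL_zpow l hl _ (by norm_num)] at h3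
    push_cast at h3
    exact h3
  have hL2 : ntL l 2 = 0 := by
    by_contra hne
    have hne' : (0 : ℝ) < |((ntL l 2 : ℚ) : ℝ)| := by
      rw [abs_pos]
      exact_mod_cast hne
    -- the ratio
    set r : ℚ := ntL l 3 / ntL l 2 with hr
    set w : ℚ := 3 ^ (r.den) * 2 ^ (-r.num) with hw
    have hw0 : 0 < w := by positivity
    have hLw : ntL l w = 0 := by
      rw [hw, ntL_mul l hl _ _ (by positivity) (by positivity), ntL_zpow l hl _ (by norm_num),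
        ← zpow_natCast, ntL_zpow l hl _ (by norm_num)]
      have h1 : ntL l 3 = r * ntL l 2 := by rw [hr]; field_simp
      have h2 : (r.den : ℚ) * r = r.num := by rw [mul_comm]; exact Rat.mul_den_eq_num r
      rw [h1]
      push_cast
      rw [← mul_assoc, h2]
      ring
    have hw1 : w ≠ 1 := by
      intro h1
      have h2 : (3 : ℚ) ^ r.den = 2 ^ r.num := by
        rw [hw, zpow_neg] at h1
        have h3 : (2 : ℚ) ^ r.num ≠ 0 := by positivity
        field_simp at h1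
        exact h1
      rcases le_or_gt r.num 0 with h3 | h3
      · have h4 : (2 : ℚ) ^ r.num ≤ 1 := by
          have := zpow_le_one_of_nonpos₀ (one_le_two (α := ℚ)) h3
          exact this
        have h5 : (1 : ℚ) < 3 ^ r.den := one_lt_pow₀ (by norm_num) r.den_ne_zero
        linarith
      · obtain ⟨m, hm⟩ := Int.eq_ofNat_of_zero_le h3.le
        rw [hm] at h2 h3
        have h4 : (3 : ℕ) ^ r.den = 2 ^ m := by
          have : ((3 ^ r.den : ℕ) : ℚ) = ((2 ^ m : ℕ) : ℚ) := by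
            push_cast
            rw [h2]
            simp
          exact_mod_cast this
        have h5 : m ≠ 0 := by
          rintro rfl
          simp at h3
        have h6 : 2 ∣ 3 ^ r.den := by rw [h4]; exact dvd_pow_self 2 h5
        have h7 := Nat.Prime.dvd_of_dvd_pow Nat.prime_two h6
        omega
    -- one of `w`, `w⁻¹` is larger than one
    obtain ⟨v, hv1, hLv⟩ : ∃ v : ℚ, 1 < v ∧ ntL l v = 0 := by
      rcases lt_or_gt_of_ne hw1 with h | h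
      · refine ⟨w⁻¹, (one_lt_inv₀ hw0).2 h, ?_⟩
        have := ntL_zpow l hl w hw0 (-1)
        rw [zpow_neg_one, hLw, mul_zero] at this
        exact this
      · exact ⟨w, h, hLw⟩
    have hv0 : 0 < v := by linarith
    obtain ⟨M, hM⟩ := exists_nat_gt (B' / |((ntL l 2 : ℚ) : ℝ)|)
    obtain ⟨N, hN⟩ := pow_unbounded_of_one_lt ((2 : ℚ) ^ M) hv1
    obtain ⟨i, hi1, hi2⟩ := hnorm (v ^ N) (pow_pos hv0 N)
    have h1 := hmix (v ^ N) (pow_pos hv0 N) i hi1 hi2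
    have h2 : ntL l (v ^ N) = 0 := by
      rw [← zpow_natCast, ntL_zpow l hl _ hv0, hLv, mul_zero]
    rw [h2] at h1
    simp only [Rat.cast_zero, zero_add] at h1
    rw [abs_mul] at h1
    have h3 : |(i : ℝ)| ≤ B' / |((ntL l 2 : ℚ) : ℝ)| := (le_div_iff₀ hne').2 h1
    have h4 : |(i : ℝ)| < M := lt_of_le_of_lt h3 hM
    have h5 : -(M : ℤ) < i := by
      have := (abs_lt.1 h4).1
      exact_mod_cast this
    have h6 : (2 : ℚ) ^ (-(M : ℤ)) ≤ 2 ^ i := zpow_le_zpow_right₀ (by norm_num) h5.le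
    have h7 : (2 : ℚ) ^ M * 2 ^ (-(M : ℤ)) = 1 := by
      rw [← zpow_natCast, ← zpow_add₀ (by norm_num)]
      simp
    have h8 : (1 : ℚ) < v ^ N * 2 ^ i := by
      calc (1 : ℚ) = 2 ^ M * 2 ^ (-(M : ℤ)) := h7.symm
        _ ≤ 2 ^ M * 2 ^ i := mul_le_mul_of_nonneg_left h6 (by positivity)
        _ < v ^ N * 2 ^ i := mul_lt_mul_of_pos_right hN (by positivity)
    linarith
  intro m hm
  by_contra hne
  have hmq : (0 : ℚ) < m := by exact_mod_cast hm
  have hne' : (0 : ℝ) < |((l m : ℚ) : ℝ)| := by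
    rw [abs_pos]
    exact_mod_cast hne
  obtain ⟨N, hN⟩ := exists_nat_gt (B' / |((l m : ℚ) : ℝ)|)
  obtain ⟨i, hi1, hi2⟩ := hnorm ((m : ℚ) ^ N) (pow_pos hmq N)
  have h1 := hmix ((m : ℚ) ^ N) (pow_pos hmq N) i hi1 hi2
  rw [hL2, ← zpow_natCast, ntL_zpow l hl _ hmq, ntL_nat l hl m hm] at h1
  push_cast at h1
  rw [mul_zero, add_zero, abs_mul] at h1
  have h3 : |((N : ℕ) : ℝ)| ≤ B' / |((l m : ℚ) : ℝ)| := (le_div_iff₀ hne').2 h1
  rw [Nat.abs_cast] at h3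
  linarith

theorem nt (y : ℕ) (hy : 0 < y) (l : ℕ → ℚ)
    (hl : ∀ a b : ℕ, 0 < a → 0 < b → l (a * b) = l a + l b)
    (h : ∀ (s : ℕ) (c : Fin s → ℚ), ∃ C : ℝ, ∀ k : Fin s → ℕ, (∀ j, 0 < k j) →
      ∑ j, c j * (k j : ℚ) ^ y = 0 →
      |((∑ j, c j * (k j : ℚ) ^ y * l (k j) : ℚ) : ℝ)| ≤ C * ∑ j, (k j : ℝ) ^ y) :
    ∀ n : ℕ, 0 < n → l n = 0 := by
  obtain ⟨n, rfl⟩ : ∃ n, y = n + 1 := ⟨y - 1, by omega⟩
  obtain ⟨C1, h1⟩ := nt_quasi n l hl h
  obtain ⟨C2, h2⟩ := nt_close n l hl h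
  have h3 := nt_bdd (ntE n l) C1 h1
  refine nt_zero n l hl (C2 + (2 * |ntE n l 1| + 3 * C1)) fun x hx hx1 => ?_
  have h4 := h2 x hx hx1
  have h5 := h3 (x ^ (n + 1)) (pow_nonneg hx.le _) (pow_le_one₀ hx.le hx1)
  have h6 : ntD (n + 1) l x = (ntD (n + 1) l x - ntE n l (x ^ (n + 1)))
      + ntE n l (x ^ (n + 1)) := by ring
  rw [h6]
  exact (abs_add_le _ _).trans (add_le_add h4 h5)

end Pool.Agent.PPR
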