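import Pool.Agent.PPR.Compl

/-!
# From conditional expectations to an arithmetic inequality
-/

set_option autoImplicit false

namespace Pool.Agent.PPR

open MeasureTheory ProbabilityTheory Filter Topology BoundedContinuousFunction

section Dense

variable {I : Type*} [Countable I] [AddCommGroup I]

/-- evaluation of a finite combination of coordinates -/
noncomputable def tp (a : I →₀ ℂ) (x : I → Circle) : ℂ := a.sum fun w c => c * x w

omit [Countable I] in
lemma tp_evl (s : AddMonoidAlgebra ℂ I) : ∃ a : I →₀ ℂ, ∀ (x : I → Circle) (hx : x ∈ EE I),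
    evl x hx s = tp a x := by
  induction s using AddMonoidAlgebra.induction_linear with
  | zero => exact ⟨0, fun x hx => by simp [tp]⟩
  | add f g hf hg =>
    obtain ⟨a, ha⟩ := hf
    obtain ⟨b, hb⟩ := hg
    refine ⟨a + b, fun x hx => ?_⟩
    rw [map_add, ha, hb]
    unfold tp
    rw [Finsupp.sum_add_index' (by simp) (by intro w c c'; ring)]
  | single w c =>
    refine ⟨Finsupp.single w c, fun x hx => ?_⟩
    rw [evl_single]
    unfold tp
    rw [Finsupp.sum_single_index (by simp)]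

omit [Countable I] [AddCommGroup I] in
lemma measurable_tp (a : I →₀ ℂ) : Measurable (tp a) := by
  unfold tp Finsupp.sum
  exact Finset.measurable_fun_sum _ fun w _ => (measurable_coe w).const_mul _

omit [Countable I] [AddCommGroup I] in
lemma norm_tp_le (a : I →₀ ℂ) (x : I → Circle) : ‖tp a x‖ ≤ a.sum fun _ c => ‖c‖ := by
  unfold tp Finsupp.sum
  refine (norm_sum_le _ _).trans (Finset.sum_le_sum fun w _ => ?_)
  rw [norm_mul, Circle.norm_coe, mul_one]

/-- Trigonometric polynomials are dense in `L ^ 1`. -/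
lemma tp_dense (Q : Measure (I → Circle)) [IsProbabilityMeasure Q]
    (h : ∀ v w, ∀ᵐ x ∂Q, x (v + w) = x v * x w) (G : (I → Circle) → ℂ) (hG : Measurable G)
    (hG1 : ∀ x, ‖G x‖ ≤ 1) (ε : ℝ) (hε : 0 < ε) :
    ∃ a : I →₀ ℂ, ∫ x, ‖G x - tp a x‖ ∂Q ≤ ε := by
  have hE := ae_EE Q h
  have hGi : Integrable G Q := Integrable.of_bound hG.aestronglyMeasurable 1
    (Eventually.of_forall hG1)
  obtain ⟨g, hg1, hg2⟩ := hGi.exists_boundedContinuous_integral_sub_le (half_pos hε)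
  -- Stone-Weierstrass
  let A : StarSubalgebra ℂ C(I → Circle, ℂ) := (trigAlg I).map (toContinuousMapStarₐ ℂ)
  have hA : A.SeparatesPoints := by
    intro x y hxy
    obtain ⟨w, hw⟩ : ∃ w, x w ≠ y w := by
      by_contra hc
      push Not at hc
      exact hxy (funext hc)
    refine ⟨_, ⟨toContinuousMapStarₐ ℂ (coordF w), ⟨coordF w, coordF_mem w, rfl⟩, rfl⟩, ?_⟩
    intro he
    exact hw (Circle.ext he)
  have htop := ContinuousMap.starSubalgebra_topologicalClosure_eq_top_of_separatesPoints A hA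
  have hmem : (g : C(I → Circle, ℂ)) ∈ A.topologicalClosure := by
    rw [htop]
    exact StarSubalgebra.mem_top
  have hcl : (g : C(I → Circle, ℂ)) ∈ closure (A : Set C(I → Circle, ℂ)) := hmem
  rw [Metric.mem_closure_iff] at hcl
  obtain ⟨p, hp, hdist⟩ := hcl (ε / 2) (half_pos hε)
  obtain ⟨p', ⟨s, hs⟩, rfl⟩ := hp
  obtain ⟨a, ha⟩ := tp_evl s
  refine ⟨a, ?_⟩
  have h1 : ∀ᵐ x ∂Q, ‖G x - tp a x‖ ≤ ‖G x - g x‖ + ε / 2 := by
    filter_upwards [hE] with x hx
    have h2 : p' x = tp a x := by rw [hs x hx, ha x hx]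
    have h3 : ‖g x - p' x‖ ≤ ε / 2 := by
      have h4 := (ContinuousMap.dist_apply_le_dist (f := (g : C(I → Circle, ℂ)))
        (g := (toContinuousMapStarₐ ℂ p')) x).trans hdist.le
      rw [dist_eq_norm] at h4
      exact h4
    have h5 : G x - tp a x = (G x - g x) + (g x - p' x) := by rw [h2]; ring
    rw [h5]
    exact (norm_add_le _ _).trans (by linarith)
  have hi1 : Integrable (fun x => ‖G x - g x‖) Q := (hGi.sub hg2).norm
  have hi2 : Integrable (fun x => ‖G x - g x‖ + ε / 2) Q := hi1.add (integrable_const _)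
  have hi0 : Integrable (fun x => ‖G x - tp a x‖) Q := by
    refine Integrable.mono' hi2 ((hG.sub (measurable_tp a)).norm.aestronglyMeasurable) ?_
    filter_upwards [h1] with x hx
    rw [norm_norm]
    exact hx
  calc ∫ x, ‖G x - tp a x‖ ∂Q ≤ ∫ x, (‖G x - g x‖ + ε / 2) ∂Q := integral_mono_ae hi0 hi2 h1
    _ = ∫ x, ‖G x - g x‖ ∂Q + ε / 2 := by
        rw [integral_add hi1 (integrable_const _), integral_const]
        simp
    _ ≤ ε := by linarith

end Dense

/-- Sequential approximation of a product of dilated functions. -/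
lemma tp_approx {I : Type*} [Countable I] [AddCommGroup I] (Q : Measure (I → Circle))
    [IsProbabilityMeasure Q] (h : ∀ v w, ∀ᵐ x ∂Q, x (v + w) = x v * x w) (s : ℕ) :
    ∀ (G : Fin s → (I → Circle) → ℂ), (∀ j, Measurable (G j)) → (∀ j x, ‖G j x‖ ≤ 1) →
    ∀ ε : ℝ, 0 < ε → ∃ a : Fin s → (I →₀ ℂ), ∀ τ : Fin s → (I → Circle) → (I → Circle),
      (∀ j, Measurable (τ j)) → (∀ j, Q.map (τ j) = Q) → ∀ ψ : (I → Circle) → ℂ, Measurable ψ →
      (∀ x, ‖ψ x‖ ≤ 1) →
      ‖∫ x, ψ x * ∏ j, G j (τ j x) ∂Q - ∫ x, ψ x * ∏ j, tp (a j) (τ j x) ∂Q‖ ≤ ε := by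
  induction s with
  | zero =>
    intro G _ _ ε hε
    refine ⟨fun j => j.elim0, fun τ _ _ ψ _ _ => ?_⟩
    simp [hε.le]
  | succ s ih =>
    intro G hG hG1 ε hε
    obtain ⟨a0, ha0⟩ := tp_dense Q h (G 0) (hG 0) (hG1 0) (ε / 2) (half_pos hε)
    set B : ℝ := max 1 (a0.sum fun _ c => ‖c‖) with hB
    have hB0 : 0 < B := lt_of_lt_of_le one_pos (le_max_left _ _)
    obtain ⟨a', ha'⟩ := ih (fun j => G j.succ) (fun j => hG _) (fun j => hG1 _) (ε / (2 * B))
      (by positivity)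
    refine ⟨Fin.cons a0 a', fun τ hτ hτQ ψ hψ hψ1 => ?_⟩
    have hB1 : ∀ x, ‖tp a0 x‖ ≤ B := fun x => (norm_tp_le a0 x).trans (le_max_right _ _)
    -- measurability
    have mG : Measurable fun x => G 0 (τ 0 x) := (hG 0).comp (hτ 0)
    have mP : Measurable fun x => tp a0 (τ 0 x) := (measurable_tp a0).comp (hτ 0)
    have mG' : Measurable fun x => ∏ j : Fin s, G j.succ (τ j.succ x) :=
      Finset.measurable_fun_prod _ fun j _ => (hG _).comp (hτ _)
    have mP' : Measurable fun x => ∏ j : Fin s, tp (a' j) (τ j.succ x) :=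
      Finset.measurable_fun_prod _ fun j _ => (measurable_tp _).comp (hτ _)
    have bG' : ∀ x, ‖∏ j : Fin s, G j.succ (τ j.succ x)‖ ≤ 1 := fun x => by
      rw [norm_prod]
      exact Finset.prod_le_one (fun j _ => norm_nonneg _) fun j _ => hG1 _ _
    obtain ⟨B', hB'⟩ : ∃ B' : ℝ, ∀ x, ‖∏ j : Fin s, tp (a' j) (τ j.succ x)‖ ≤ B' := by
      refine ⟨∏ j : Fin s, ((a' j).sum fun _ c => ‖c‖), fun x => ?_⟩
      rw [norm_prod]
      exact Finset.prod_le_prod (fun j _ => norm_nonneg _) fun j _ => norm_tp_le _ _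
    -- three integrals
    have i1 : Integrable (fun x => ψ x * (G 0 (τ 0 x) * ∏ j : Fin s, G j.succ (τ j.succ x))) Q :=
      Integrable.of_bound (hψ.mul (mG.mul mG')).aestronglyMeasurable 1
        (Eventually.of_forall fun x => by
          rw [norm_mul, norm_mul]
          exact mul_le_one₀ (hψ1 x) (by positivity)
            (mul_le_one₀ (hG1 0 _) (norm_nonneg _) (bG' x)))
    have i2 : Integrable (fun x => ψ x * (tp a0 (τ 0 x) *
        ∏ j : Fin s, G j.succ (τ j.succ x))) Q :=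
      Integrable.of_bound (hψ.mul (mP.mul mG')).aestronglyMeasurable B
        (Eventually.of_forall fun x => by
          rw [norm_mul, norm_mul]
          calc ‖ψ x‖ * (‖tp a0 (τ 0 x)‖ * ‖∏ j : Fin s, G j.succ (τ j.succ x)‖)
              ≤ 1 * (B * 1) := by
                refine mul_le_mul (hψ1 x) ?_ (by positivity) zero_le_one
                exact mul_le_mul (hB1 _) (bG' x) (norm_nonneg _) hB0.le
            _ = B := by ring)
    have i3 : Integrable (fun x => ψ x * (tp a0 (τ 0 x) *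
        ∏ j : Fin s, tp (a' j) (τ j.succ x))) Q :=
      Integrable.of_bound (hψ.mul (mP.mul mP')).aestronglyMeasurable (B * B')
        (Eventually.of_forall fun x => by
          rw [norm_mul, norm_mul]
          calc ‖ψ x‖ * (‖tp a0 (τ 0 x)‖ * ‖∏ j : Fin s, tp (a' j) (τ j.succ x)‖)
              ≤ 1 * (B * B') := by
                refine mul_le_mul (hψ1 x) ?_ (by positivity) zero_le_one
                exact mul_le_mul (hB1 _) (hB' x) (norm_nonneg _) hB0.le
            _ = B * B' := by ring)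
    have e1 : ‖∫ x, ψ x * (G 0 (τ 0 x) * ∏ j : Fin s, G j.succ (τ j.succ x)) ∂Q
        - ∫ x, ψ x * (tp a0 (τ 0 x) * ∏ j : Fin s, G j.succ (τ j.succ x)) ∂Q‖ ≤ ε / 2 := by
      rw [← integral_sub i1 i2]
      refine (norm_integral_le_integral_norm _).trans ?_
      have hb : ∀ x, ‖ψ x * (G 0 (τ 0 x) * ∏ j : Fin s, G j.succ (τ j.succ x))
          - ψ x * (tp a0 (τ 0 x) * ∏ j : Fin s, G j.succ (τ j.succ x))‖
          ≤ ‖G 0 (τ 0 x) - tp a0 (τ 0 x)‖ := by
        intro x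
        have : ψ x * (G 0 (τ 0 x) * ∏ j : Fin s, G j.succ (τ j.succ x))
          - ψ x * (tp a0 (τ 0 x) * ∏ j : Fin s, G j.succ (τ j.succ x))
          = (ψ x * ∏ j : Fin s, G j.succ (τ j.succ x)) * (G 0 (τ 0 x) - tp a0 (τ 0 x)) := by ring
        rw [this, norm_mul]
        refine mul_le_of_le_one_left (norm_nonneg _) ?_
        rw [norm_mul]
        exact mul_le_one₀ (hψ1 x) (norm_nonneg _) (bG' x)
      have mdiff : Measurable fun x => ‖G 0 x - tp a0 x‖ := ((hG 0).sub (measurable_tp a0)).norm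
      have ic : ∫ x, ‖G 0 (τ 0 x) - tp a0 (τ 0 x)‖ ∂Q = ∫ x, ‖G 0 x - tp a0 x‖ ∂Q := by
        conv_rhs => rw [← hτQ 0]
        rw [integral_map (hτ 0).aemeasurable mdiff.aestronglyMeasurable]
      refine le_trans (integral_mono (i1.sub i2).norm ?_ hb) (ic.le.trans ha0)
      refine Integrable.of_bound ((mG.sub mP).norm.aestronglyMeasurable) (1 + B)
        (Eventually.of_forall fun x => ?_)
      rw [norm_norm]
      exact (norm_sub_le _ _).trans (add_le_add (hG1 _ _) (hB1 _))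
    have e2 : ‖∫ x, ψ x * (tp a0 (τ 0 x) * ∏ j : Fin s, G j.succ (τ j.succ x)) ∂Q
        - ∫ x, ψ x * (tp a0 (τ 0 x) * ∏ j : Fin s, tp (a' j) (τ j.succ x)) ∂Q‖ ≤ ε / 2 := by
      set ψ' : (I → Circle) → ℂ := fun x => (B : ℂ)⁻¹ * (ψ x * tp a0 (τ 0 x)) with hψ'
      have hψ'1 : ∀ x, ‖ψ' x‖ ≤ 1 := by
        intro x
        simp only [hψ', norm_mul, norm_inv, Complex.norm_real, Real.norm_of_nonneg hB0.le]
        rw [inv_mul_le_iff₀ hB0, mul_one]
        calc ‖ψ x‖ * ‖tp a0 (τ 0 x)‖ ≤ 1 * B :=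
              mul_le_mul (hψ1 x) (hB1 _) (norm_nonneg _) zero_le_one
          _ = B := one_mul B
      have hψ'm : Measurable ψ' := (hψ.mul mP).const_mul _
      have h3 := ha' (fun j => τ j.succ) (fun j => hτ _) (fun j => hτQ _) ψ' hψ'm hψ'1
      have hBne : (B : ℂ) ≠ 0 := by exact_mod_cast hB0.ne'
      have q1 : ∀ (R : (I → Circle) → ℂ), ∫ x, ψ x * (tp a0 (τ 0 x) * R x) ∂Q
          = (B : ℂ) * ∫ x, ψ' x * R x ∂Q := by
        intro R
        rw [← integral_const_mul]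
        refine integral_congr_ae (Eventually.of_forall fun x => ?_)
        simp only [hψ']
        field_simp
      rw [q1, q1, ← mul_sub, norm_mul, Complex.norm_real, Real.norm_of_nonneg hB0.le]
      calc B * _ ≤ B * (ε / (2 * B)) := mul_le_mul_of_nonneg_left h3 hB0.le
        _ = ε / 2 := by field_simp
    simp only [Fin.prod_univ_succ, Fin.cons_zero, Fin.cons_succ]
    calc _ ≤ _ := norm_sub_le_norm_sub_add_norm_sub _
          (∫ x, ψ x * (tp a0 (τ 0 x) * ∏ j : Fin s, G j.succ (τ j.succ x)) ∂Q) _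
      _ ≤ ε / 2 + ε / 2 := add_le_add e1 e2
      _ = ε := by ring

section Main

variable {D : ℕ} {Q : Measure (VV D → Circle)} {V0 : Fin D → Submodule ℚ (ℕ →₀ ℚ)}

lemma EE_prod {I : Type*} [AddCommGroup I] {x : I → Circle} (hx : x ∈ EE I) {σ : Type*}
    (s : Finset σ) (v : σ → I) : x (∑ j ∈ s, v j) = ∏ j ∈ s, x (v j) := by
  classical
  induction s using Finset.induction_on with
  | empty => simp [EE_zero hx]
  | insert a s ha ih => rw [Finset.sum_insert ha, Finset.prod_insert ha, hx, ih]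

lemma tp_tau (a : VV D →₀ ℂ) (k : ℕ) (x : VV D → Circle) :
    tp a (tau k x) = ∑ w ∈ a.support, a w * x (LL k w) := rfl

theorem trig (hQ : Fine D Q V0) (i : Fin D) (F : ℚ → (VV D → Circle) → ℂ)
    (hF : ∀ c, Measurable (F c)) (hF1 : ∀ c x, ‖F c x‖ ≤ 1)
    (hcoc : ∀ (c : ℚ) (k : ℕ), 0 < k → ∀ᵐ x ∂Q, F c (tau k x) =
      ((x (Pi.single i ((c * (k : ℚ) ^ ((i : ℕ) + 1)) • fac k)) : Circle) : ℂ) *
        F (c * (k : ℚ) ^ ((i : ℕ) + 1)) x)
    (hlow : ∀ s : ℕ, ∃ θ : ℝ, 0 < θ ∧ ∀ q : Fin s → ℚ, ∑ j, q j = 0 →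
      θ ≤ ‖∫ x, ∏ j, F (q j) x ∂Q‖)
    (f : (ℕ →₀ ℚ) →ₗ[ℚ] ℚ) (hf : ∀ w ∈ V0 i, f w = 0) (s : ℕ) (c : Fin s → ℚ) :
    ∃ C : ℝ, ∀ k : Fin s → ℕ, (∀ j, 0 < k j) →
      ∑ j, c j * (k j : ℚ) ^ ((i : ℕ) + 1) = 0 →
      |((∑ j, c j * (k j : ℚ) ^ ((i : ℕ) + 1) * f (fac (k j)) : ℚ) : ℝ)| ≤
        C * ∑ j, (k j : ℝ) ^ ((i : ℕ) + 1) := by
  classical
  have := hQ.prob
  obtain ⟨θ, hθ, hθ2⟩ := hlow s
  obtain ⟨a, ha⟩ := tp_approx Q hQ.hom s (fun j => F (c j)) (fun j => hF _) (fun j => hF1 _)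
    (θ / 2) (half_pos hθ)
  -- the constant
  set C : ℝ := ∑ j, ∑ w ∈ (a j).support, |((f (w i) : ℚ) : ℝ)| with hC
  have hCj : ∀ j, ∀ w ∈ (a j).support, |((f (w i) : ℚ) : ℝ)| ≤ C := by
    intro j w hw
    refine le_trans ?_ (Finset.single_le_sum (f := fun j => ∑ w ∈ (a j).support,
      |((f (w i) : ℚ) : ℝ)|) (fun j _ => Finset.sum_nonneg fun w _ => abs_nonneg _)
      (Finset.mem_univ j))
    exact Finset.single_le_sum (f := fun w : VV D => |((f (w i) : ℚ) : ℝ)|)
      (fun w _ => abs_nonneg _) hw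
  refine ⟨C, fun k hk hsum => ?_⟩
  -- the phase
  set v : Fin s → VV D := fun j =>
    Pi.single i ((c j * (k j : ℚ) ^ ((i : ℕ) + 1)) • fac (k j)) with hv
  set ψ : (VV D → Circle) → ℂ := fun x => ∏ j, (starRingEnd ℂ) ((x (v j) : Circle) : ℂ) with hψ
  have hψm : Measurable ψ := Finset.measurable_fun_prod _ fun j _ =>
    Complex.continuous_conj.measurable.comp (measurable_coe (v j))
  have hψ1 : ∀ x, ‖ψ x‖ ≤ 1 := fun x => by
    simp only [hψ, norm_prod, RCLike.norm_conj, Circle.norm_coe, Finset.prod_const_one, le_refl]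
  have h1 := ha (fun j => tau (k j)) (fun j => measurable_tau _)
    (fun j => hQ.inv _ (hk j)) ψ hψm hψ1
  have h2 : ∫ x, ψ x * ∏ j, F (c j) (tau (k j) x) ∂Q
      = ∫ x, ∏ j, F (c j * (k j : ℚ) ^ ((i : ℕ) + 1)) x ∂Q := by
    refine integral_congr_ae ?_
    have h3 : ∀ᵐ x ∂Q, ∀ j, F (c j) (tau (k j) x) =
      ((x (v j) : Circle) : ℂ) * F (c j * (k j : ℚ) ^ ((i : ℕ) + 1)) x := by
      rw [ae_all_iff]
      exact fun j => hcoc (c j) (k j) (hk j)
    filter_upwards [h3] with x hx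
    simp only [hψ]
    rw [← Finset.prod_mul_distrib]
    refine Finset.prod_congr rfl fun j _ => ?_
    rw [hx j, ← mul_assoc, mul_comm ((starRingEnd ℂ) _), Complex.mul_conj,
      Complex.normSq_eq_norm_sq, Circle.norm_coe]
    simp
  rw [h2] at h1
  have h4 := hθ2 (fun j => c j * (k j : ℚ) ^ ((i : ℕ) + 1)) hsum
  have h5 : ∫ x, ψ x * ∏ j, tp (a j) (tau (k j) x) ∂Q ≠ 0 := by
    intro h0
    rw [h0, sub_zero] at h1
    linarith
  -- expansion
  have h6 : ∀ x : VV D → Circle, ψ x * ∏ j, tp (a j) (tau (k j) x)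
      = ∑ p ∈ Fintype.piFinset (fun j => (a j).support),
        (∏ j, a j (p j)) * (ψ x * ∏ j, ((x (LL (k j) (p j)) : Circle) : ℂ)) := by
    intro x
    simp only [tp_tau]
    rw [Finset.prod_univ_sum, Finset.mul_sum]
    refine Finset.sum_congr rfl fun p _ => ?_
    rw [Finset.prod_mul_distrib]
    ring
  have hterm : ∀ p : Fin s → VV D,
      Measurable fun x : VV D → Circle => ψ x * ∏ j, ((x (LL (k j) (p j)) : Circle) : ℂ) :=
    fun p => hψm.mul (Finset.measurable_fun_prod _ fun j _ => measurable_coe _)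
  have hterm1 : ∀ (p : Fin s → VV D) (x : VV D → Circle),
      ‖ψ x * ∏ j, ((x (LL (k j) (p j)) : Circle) : ℂ)‖ ≤ 1 := by
    intro p x
    have hn : ‖∏ j, ((x (LL (k j) (p j)) : Circle) : ℂ)‖ = 1 := by
      rw [norm_prod]
      exact Finset.prod_eq_one fun j _ => Circle.norm_coe _
    rw [norm_mul, hn, mul_one]
    exact hψ1 x
  have hti : ∀ p : Fin s → VV D,
      Integrable (fun x : VV D → Circle => ψ x * ∏ j, ((x (LL (k j) (p j)) : Circle) : ℂ)) Q :=
    fun p => Integrable.of_bound (hterm p).aestronglyMeasurable 1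
      (Eventually.of_forall (hterm1 p))
  obtain ⟨p, hp, hpne⟩ : ∃ p ∈ Fintype.piFinset (fun j => (a j).support),
      ∫ x, ψ x * ∏ j, ((x (LL (k j) (p j)) : Circle) : ℂ) ∂Q ≠ 0 := by
    by_contra hcon
    push Not at hcon
    apply h5
    simp_rw [h6]
    rw [integral_finsetSum _ fun p _ => (hti p).const_mul _]
    refine Finset.sum_eq_zero fun p hp => ?_
    rw [integral_const_mul, hcon p hp, mul_zero]
  -- one character
  have hE := ae_EE Q hQ.hom
  set W : VV D := (- ∑ j, v j) + ∑ j, LL (k j) (p j) with hW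
  have h7 : ∫ x, ψ x * ∏ j, ((x (LL (k j) (p j)) : Circle) : ℂ) ∂Q
      = ∫ x, ((x W : Circle) : ℂ) ∂Q := by
    refine integral_congr_ae ?_
    filter_upwards [hE] with x hx
    have e1 : x W = x (- ∑ j, v j) * x (∑ j, LL (k j) (p j)) := hx _ _
    have hcp : ∀ g : Fin s → Circle, ((∏ j, g j : Circle) : ℂ) = ∏ j, ((g j : Circle) : ℂ) :=
      fun g => map_prod Circle.coeHom g Finset.univ
    rw [e1, Circle.coe_mul, EE_neg_coe hx, EE_prod hx, EE_prod hx, hcp, hcp, map_prod]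
  rw [h7, hQ.fc] at hpne
  have h8 : ∀ i', W i' ∈ V0 i' := by
    by_contra hcon
    rw [if_neg hcon] at hpne
    exact hpne rfl
  have h9 := hf _ (h8 i)
  have h10 : W i = - ∑ j, ((c j * (k j : ℚ) ^ ((i : ℕ) + 1)) • fac (k j))
      + ∑ j, ((k j : ℚ) ^ ((i : ℕ) + 1)) • p j i := by
    simp only [hW, hv, Pi.add_apply, Pi.neg_apply, Finset.sum_apply, Pi.single_eq_same, LL]
  rw [h10, map_add, map_neg, map_sum, map_sum] at h9
  simp only [map_smul, smul_eq_mul] at h9
  have h11 : ∑ j, c j * (k j : ℚ) ^ ((i : ℕ) + 1) * f (fac (k j))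
      = ∑ j, (k j : ℚ) ^ ((i : ℕ) + 1) * f (p j i) := by linarith
  rw [h11]
  push_cast
  refine (Finset.abs_sum_le_sum_abs _ _).trans ?_
  rw [Finset.mul_sum]
  refine Finset.sum_le_sum fun j _ => ?_
  rw [abs_mul, abs_of_nonneg (by positivity), mul_comm C]
  refine mul_le_mul_of_nonneg_left ?_ (by positivity)
  exact hCj j (p j) (Fintype.mem_piFinset.1 hp j)

end Main

end Pool.Agent.PPR
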