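import Pool.Agent.PPR.Ker
import Pool.Agent.PPR.Trig
import Pool.Agent.PPR.NT

/-!
# The mean of a limit law with non trivial fine part
-/

set_option autoImplicit false

namespace Pool.Agent.PPR

open MeasureTheory ProbabilityTheory Filter Topology

variable {D : ℕ} {P : Measure (GQ D → Circle)} {V0 : Fin D → Submodule ℚ (ℕ →₀ ℚ)}

theorem core_a (hP : LimLaw D P V0) (h : ∃ (i : Fin D) (k : ℕ), 0 < k ∧ fac k ∉ V0 i) :
    ∫ u, ((u ones : Circle) : ℂ) ∂P = 0 := by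
  obtain ⟨i, k, hk, hkV⟩ := h
  by_contra hne
  obtain ⟨κ, hκ⟩ := exists_disint hP
  obtain ⟨f, hf1, hf2⟩ : ∃ f : (ℕ →₀ ℚ) →ₗ[ℚ] ℚ, f (fac k) ≠ 0 ∧ ∀ w ∈ V0 i, f w = 0 := by
    obtain ⟨f, hf1, hf2⟩ := Submodule.exists_le_ker_of_notMem hkV
    exact ⟨f, hf1, fun w hw => hf2 hw⟩
  have hlow := ker_lower hP hκ i (ker_pos hP hκ i hne)
  have htrig := trig hP.fine i (fun c => FF κ (adeg i.succ c))
    (fun c => measurable_FF hκ _) (fun c x => norm_FF_le hκ _ x)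
    (fun c k hk => FF_coc hP hκ i c k hk) hlow f hf2
  have hnt := nt ((i : ℕ) + 1) (Nat.succ_pos _) (fun n => f (fac n))
    (fun a b ha hb => by rw [fac_mul ha.ne' hb.ne', map_add]) htrig k hk
  exact hf1 hnt

end Pool.Agent.PPR
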