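import Pool.Agent.PPR.AV

/-!
# The mean of a limit law, trivial fine part
-/

set_option autoImplicit false

namespace Pool.Agent.PPR

open MeasureTheory ProbabilityTheory Filter Topology

variable {D : ℕ} {P : Measure (GQ D → Circle)} {V0 : Fin D → Submodule ℚ (ℕ →₀ ℚ)}

namespace CoreB

lemma meas_coord (g : GQ D) : Measurable (fun u : GQ D → Circle => u g) := measurable_pi_apply g

lemma meas_coe : Measurable (fun z : Circle => (z : ℂ)) := by
  have h : Continuous (fun z : Circle => (z : ℂ)) := continuous_subtype_val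
  exact h.measurable

lemma tor_pow {z : Circle} {n : ℕ} (hn : 0 < n) : Tor (z ^ n) ↔ Tor z := by
  constructor
  · rintro ⟨m, hm, h⟩
    exact ⟨n * m, Nat.mul_pos hn hm, by rw [pow_mul]; exact h⟩
  · rintro ⟨m, hm, h⟩
    exact ⟨m, hm, by rw [← pow_mul, mul_comm, pow_mul, h, one_pow]⟩

lemma measurableSet_tor : MeasurableSet {z : Circle | Tor z} := by
  have : {z : Circle | Tor z} = ⋃ n : ℕ, {z : Circle | 0 < n ∧ z ^ n = 1} := by
    ext z; simp [Tor]
  rw [this]
  refine MeasurableSet.iUnion fun n => ?_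
  by_cases hn : 0 < n
  · have : {z : Circle | 0 < n ∧ z ^ n = 1} = (fun z : Circle => z ^ n) ⁻¹' {1} := by
      ext z; simp [hn]
    rw [this]
    exact (isClosed_singleton.preimage (continuous_pow n)).measurableSet
  · have : {z : Circle | 0 < n ∧ z ^ n = 1} = ∅ := by
      ext z; simp [hn]
    rw [this]
    exact MeasurableSet.empty

/-- a circle valued function with mean one is one -/
lemma ae_eq_one {Ω : Type*} [MeasurableSpace Ω] {μ : Measure Ω} [IsProbabilityMeasure μ]
    {f : Ω → Circle} (hf : Measurable f) (h : ∫ ω, ((f ω : Circle) : ℂ) ∂μ = 1) :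
    ∀ᵐ ω ∂μ, f ω = 1 := by
  have hm : Measurable (fun ω => ((f ω : Circle) : ℂ)) := meas_coe.comp hf
  have hint : Integrable (fun ω => ((f ω : Circle) : ℂ)) μ :=
    Integrable.of_bound hm.aestronglyMeasurable 1 (Eventually.of_forall fun ω => (Circle.norm_coe (f ω)).le)
  have hre : ∫ ω, (((f ω : Circle) : ℂ)).re ∂μ = 1 := by
    have := integral_re (𝕜 := ℂ) hint
    simp only [RCLike.re_eq_complex_re] at this
    rw [this, h]; simp
  have hintre : Integrable (fun ω => (((f ω : Circle) : ℂ)).re) μ := hint.re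
  have h0 : ∫ ω, (1 - (((f ω : Circle) : ℂ)).re) ∂μ = 0 := by
    rw [integral_sub (integrable_const _) hintre, hre]; simp
  have hle : ∀ z : Circle, (z : ℂ).re ≤ 1 := fun z => by
    have := Complex.re_le_norm (z : ℂ)
    rwa [Circle.norm_coe] at this
  have h1 := (integral_eq_zero_iff_of_nonneg (fun ω => sub_nonneg.2 (hle (f ω)))
    ((integrable_const _).sub hintre)).1 h0
  filter_upwards [h1] with ω hω
  have hω' : (((f ω : Circle) : ℂ)).re = 1 := by
    have : 1 - (((f ω : Circle) : ℂ)).re = 0 := hω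
    linarith
  have hn : ‖((f ω : Circle) : ℂ)‖ = 1 := Circle.norm_coe (f ω)
  have him : (((f ω : Circle) : ℂ)).im = 0 := by
    have h2 : (((f ω : Circle) : ℂ)).re ^ 2 + (((f ω : Circle) : ℂ)).im ^ 2 = 1 := by
      have := Complex.sq_norm ((f ω : Circle) : ℂ)
      rw [hn, Complex.normSq_apply] at this
      nlinarith
    rw [hω'] at h2
    nlinarith
  apply Circle.ext
  apply Complex.ext
  · simp [hω']
  · simp [him]

/-- the trivial coordinates -/
lemma coord_iV (hP : LimLaw D P V0) (w : VV D) (hw : ∀ i, w i ∈ V0 i) :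
    ∀ᵐ u ∂P, u (iV w) = 1 := by
  have := hP.prob
  have h := hP.fine.fc w
  rw [if_pos hw] at h
  have h2 : Measurable (fun x : VV D → Circle => ((x w : Circle) : ℂ)) :=
    meas_coe.comp (measurable_pi_apply w)
  rw [integral_map (measurable_pi' (D := D)).aemeasurable h2.aestronglyMeasurable] at h
  exact ae_eq_one (meas_coord (iV w)) h

lemma coord_wdeg (hP : LimLaw D P V0) (h : ∀ (i : Fin D) (k : ℕ), 0 < k → fac k ∈ V0 i)
    (i : Fin D) (k : ℕ) (hk : 0 < k) (q : ℚ) : ∀ᵐ u ∂P, u (wdeg i.succ (q • fac k)) = 1 := by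
  rw [wdeg_succ]
  refine coord_iV hP _ fun j => ?_
  by_cases hj : j = i
  · subst hj
    rw [Pi.single_eq_same]
    exact Submodule.smul_mem _ _ (h j k hk)
  · rw [Pi.single_eq_of_ne hj]
    exact Submodule.zero_mem _

lemma coord_zero (hP : LimLaw D P V0) : ∀ᵐ u ∂P, u (0 : GQ D) = 1 := by
  filter_upwards [hP.hom 0 0] with u hu
  rw [add_zero] at hu
  have : u 0 * 1 = u 0 * u 0 := by rw [mul_one]; exact hu
  exact (mul_left_cancel this).symm

lemma coord_sum (hP : LimLaw D P V0) {ι : Type*} (s : Finset ι) (g : ι → GQ D) :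
    ∀ᵐ u ∂P, u (∑ i ∈ s, g i) = ∏ i ∈ s, u (g i) := by
  classical
  induction s using Finset.induction_on with
  | empty => simpa using coord_zero hP
  | insert a s ha ih =>
    filter_upwards [ih, hP.hom (g a) (∑ i ∈ s, g i)] with u h1 h2
    rw [Finset.sum_insert ha, Finset.prod_insert ha, h2, h1]

lemma coord_adeg (hP : LimLaw D P V0) (d : Fin (D + 1)) (n : ℕ) :
    ∀ᵐ u ∂P, u (adeg d (n : ℚ)) = u (adeg d 1) ^ n := by
  induction n with
  | zero =>
    filter_upwards [coord_zero hP] with u hu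
    have : (adeg d ((0 : ℕ) : ℚ) : GQ D) = 0 := by simp [adeg]
    rw [this, hu, pow_zero]
  | succ n ih =>
    filter_upwards [ih, hP.hom (adeg d (n : ℚ)) (adeg d 1)] with u h1 h2
    rw [Nat.cast_succ, adeg_add, h2, h1, pow_succ]

/-- the coarse coordinates of degree `i + 1` under the zoom -/
lemma coord_TT (hP : LimLaw D P V0) (h : ∀ (i : Fin D) (k : ℕ), 0 < k → fac k ∈ V0 i)
    (k : ℕ) (hk : 0 < k) (i : Fin D) :
    ∀ᵐ u ∂P, u (TT k (adeg i.succ 1)) = u (adeg i.succ 1) ^ (k ^ ((i : ℕ) + 1)) := by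
  have h1 := hP.hom (adeg i.succ ((k : ℚ) ^ ((i.succ : Fin (D + 1)) : ℕ) * 1))
    (wdeg i.succ (((k : ℚ) ^ ((i.succ : Fin (D + 1)) : ℕ) * 1) • fac k))
  filter_upwards [h1, coord_wdeg hP h i k hk ((k : ℚ) ^ ((i.succ : Fin (D + 1)) : ℕ) * 1),
    coord_adeg hP i.succ (k ^ ((i : ℕ) + 1))] with u h1 h2 h3
  rw [TT_adeg, h1, h2, mul_one, ← h3]
  congr 2
  push_cast
  simp

/-- the torsion set -/
def E (D : ℕ) : Set (GQ D → Circle) := {u | ∀ i : Fin D, Tor (u (adeg i.succ 1))}

lemma measurableSet_E : MeasurableSet (E D) := by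
  have : E D = ⋂ i : Fin D, (fun u : GQ D → Circle => u (adeg i.succ 1)) ⁻¹' {z | Tor z} := by
    ext u; simp [E]
  rw [this]
  exact MeasurableSet.iInter fun i => meas_coord _ measurableSet_tor

lemma E_inv (hP : LimLaw D P V0) (h : ∀ (i : Fin D) (k : ℕ), 0 < k → fac k ∈ V0 i)
    (k : ℕ) (hk : 0 < k) : ∀ᵐ u ∂P, (TU k u ∈ E D ↔ u ∈ E D) := by
  have : ∀ᵐ u ∂P, ∀ i : Fin D, u (TT k (adeg i.succ 1)) = u (adeg i.succ 1) ^ (k ^ ((i : ℕ) + 1)) :=
    ae_all_iff.2 fun i => coord_TT hP h k hk i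
  filter_upwards [this] with u hu
  change (∀ i : Fin D, Tor (u (TT k (adeg i.succ 1)))) ↔ ∀ i : Fin D, Tor (u (adeg i.succ 1))
  simp only [hu]
  exact forall_congr' fun i => tor_pow (pow_pos hk _)

lemma TT_zero (k : ℕ) : TT k (0 : GQ D) = 0 := by
  funext d
  refine Prod.ext ?_ ?_ <;> simp [TT]

lemma TT_sum (k : ℕ) {ι : Type*} (s : Finset ι) (g : ι → GQ D) :
    TT k (∑ i ∈ s, g i) = ∑ i ∈ s, TT k (g i) := by
  classical
  induction s using Finset.induction_on with
  | empty => simp [TT_zero]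
  | insert a s ha ih => rw [Finset.sum_insert ha, Finset.sum_insert ha, TT_add, ih]

/-- the degree zero coordinate under the zoom -/
lemma coord_TT0 (hP : LimLaw D P V0) (k : ℕ) :
    ∀ᵐ u ∂P, u (TT k (adeg 0 1)) = u (adeg 0 1) * u (wdeg 0 (fac k)) := by
  filter_upwards [hP.hom (adeg 0 1) (wdeg 0 (fac k))] with u hu
  rw [TT_adeg, ← hu]
  congr 2 <;> simp

lemma coord_ones (hP : LimLaw D P V0) (h : ∀ (i : Fin D) (k : ℕ), 0 < k → fac k ∈ V0 i)
    (k : ℕ) (hk : 0 < k) :
    ∀ᵐ u ∂P, u (TT k ones) = u (adeg 0 1) * u (wdeg 0 (fac k)) *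
      ∏ i : Fin D, u (adeg i.succ 1) ^ (k ^ ((i : ℕ) + 1)) := by
  have h1 : ∀ᵐ u ∂P, ∀ i : Fin D,
      u (TT k (adeg i.succ 1)) = u (adeg i.succ 1) ^ (k ^ ((i : ℕ) + 1)) :=
    ae_all_iff.2 fun i => coord_TT hP h k hk i
  filter_upwards [coord_sum hP Finset.univ (fun d : Fin (D + 1) => TT k (adeg d 1)),
    coord_TT0 hP k, h1] with u h2 h3 h4
  rw [ones_eq_sum, TT_sum, h2, Fin.prod_univ_succ, h3]
  congr 1
  exact Finset.prod_congr rfl fun i _ => h4 i

/-- change of variables -/
lemma integral_TU (hP : LimLaw D P V0) (k : ℕ) (hk : 0 < k) {Φ : (GQ D → Circle) → ℂ}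
    (hΦ : Measurable Φ) : ∫ u, Φ u ∂P = ∫ u, Φ (TU k u) ∂P := by
  conv_lhs => rw [← hP.inv k hk]
  exact integral_map (measurable_TU k).aemeasurable hΦ.aestronglyMeasurable

/-- the product of the coarse coordinates of positive degree -/
noncomputable def V (e : Fin D → ℕ) (u : GQ D → Circle) : Circle :=
  ∏ i : Fin D, u (adeg i.succ 1) ^ e i

lemma meas_V (e : Fin D → ℕ) : Measurable (V e) :=
  Finset.measurable_prod _ fun _ _ => (meas_coord _).pow_const _

lemma meas_ind {S : Set (GQ D → Circle)} (hS : MeasurableSet S) {f : (GQ D → Circle) → Circle}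
    (hf : Measurable f) : Measurable (S.indicator (fun u => ((f u : Circle) : ℂ))) :=
  (meas_coe.comp hf).indicator hS

/-- exponents of the zoom -/
def ex (D : ℕ) (k : ℕ) : Fin D → ℕ := fun i => k ^ ((i : ℕ) + 1)

/-- the coordinates of positive degree under the zoom -/
lemma V_TU (hP : LimLaw D P V0) (h : ∀ (i : Fin D) (k : ℕ), 0 < k → fac k ∈ V0 i)
    (k : ℕ) (hk : 0 < k) (e : Fin D → ℕ) :
    ∀ᵐ u ∂P, V e (TU k u) = V (fun i => k ^ ((i : ℕ) + 1) * e i) u := by
  have h1 : ∀ᵐ u ∂P, ∀ i : Fin D,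
      u (TT k (adeg i.succ 1)) = u (adeg i.succ 1) ^ (k ^ ((i : ℕ) + 1)) :=
    ae_all_iff.2 fun i => coord_TT hP h k hk i
  filter_upwards [h1] with u hu
  refine Finset.prod_congr rfl fun i _ => ?_
  change u (TT k (adeg i.succ 1)) ^ e i = _
  rw [hu i, ← pow_mul]

lemma integral_ones (hP : LimLaw D P V0) (h : ∀ (i : Fin D) (k : ℕ), 0 < k → fac k ∈ V0 i)
    (k : ℕ) (hk : 0 < k) (z : Circle) (hz : ∀ᵐ u ∂P, u (wdeg 0 (fac k)) = z)
    (S : Set (GQ D → Circle)) (hS : MeasurableSet S) (hinv : ∀ᵐ u ∂P, (TU k u ∈ S ↔ u ∈ S)) :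
    ∫ u, S.indicator (fun u => ((u ones : Circle) : ℂ)) u ∂P =
      ∫ u, ((u (adeg 0 1) : Circle) : ℂ) *
        S.indicator (fun u => ((z * V (ex D k) u : Circle) : ℂ)) u ∂P := by
  rw [integral_TU hP k hk (meas_ind hS (meas_coord ones))]
  refine integral_congr_ae ?_
  filter_upwards [coord_ones hP h k hk, hz, hinv] with u h1 h2 h3
  by_cases hu : u ∈ S
  · rw [Set.indicator_of_mem (h3.2 hu), Set.indicator_of_mem hu]
    change ((u (TT k ones) : Circle) : ℂ) = _
    rw [h1, h2, mul_assoc, Circle.coe_mul]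
    rfl
  · rw [Set.indicator_of_notMem (fun hh => hu (h3.1 hh)), Set.indicator_of_notMem hu, mul_zero]

lemma norm_indicator_le (S : Set (GQ D → Circle)) (f : (GQ D → Circle) → Circle)
    (u : GQ D → Circle) : ‖S.indicator (fun u => ((f u : Circle) : ℂ)) u‖ ≤ 1 := by
  by_cases hu : u ∈ S
  · rw [Set.indicator_of_mem hu]; exact (Circle.norm_coe _).le
  · rw [Set.indicator_of_notMem hu]; simp

lemma integrable_indicator [IsProbabilityMeasure P] {S : Set (GQ D → Circle)}
    (hS : MeasurableSet S) {f : (GQ D → Circle) → Circle} (hf : Measurable f) :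
    Integrable (S.indicator (fun u => ((f u : Circle) : ℂ))) P :=
  Integrable.of_bound (meas_ind hS hf).aestronglyMeasurable 1
    (Eventually.of_forall fun u => norm_indicator_le S f u)

/-- orthogonality off the torsion set -/
lemma orth (hP : LimLaw D P V0) (h : ∀ (i : Fin D) (k : ℕ), 0 < k → fac k ∈ V0 i)
    (e : Fin D → ℕ) (he : ∀ i, 0 < e i) :
    ∫ u, (E D)ᶜ.indicator (fun u => ((V e u : Circle) : ℂ)) u ∂P = 0 := by
  have := hP.prob
  set G := ∫ u, (E D)ᶜ.indicator (fun u => ((V e u : Circle) : ℂ)) u ∂P with hG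
  have hEc : MeasurableSet (E D)ᶜ := measurableSet_E.compl
  have key : ∀ m : ℕ, 0 < m → ∫ u, (E D)ᶜ.indicator (fun _ => (1 : ℂ)) u *
      ((∏ i : Fin D, (u (adeg i.succ 1) ^ e i) ^ (m ^ ((i : ℕ) + 1)) : Circle) : ℂ) ∂P = G := by
    intro m hm
    rw [hG, integral_TU hP m hm (meas_ind hEc (meas_V e))]
    refine integral_congr_ae ?_
    filter_upwards [V_TU hP h m hm e, E_inv hP h m hm] with u h1 h2
    by_cases hu : u ∈ E D
    · have h3 : TU m u ∈ E D := h2.2 hu
      rw [Set.indicator_of_notMem (by simpa using hu), Set.indicator_of_notMem (by simpa using h3),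
        zero_mul]
    · have h3 : TU m u ∉ E D := fun hh => hu (h2.1 hh)
      rw [Set.indicator_of_mem (by simpa using hu), Set.indicator_of_mem (by simpa using h3),
        one_mul, h1]
      congr 1
      refine Finset.prod_congr rfl fun i _ => ?_
      rw [← pow_mul, mul_comm]
  have hle : ∀ ε : ℝ, 0 < ε → ‖G‖ ≤ ε := by
    intro ε hε
    have hgi : Integrable ((E D)ᶜ.indicator (fun _ => (1 : ℂ))) P :=
      (integrable_const (1 : ℂ)).indicator hEc
    have h1 := avp P (fun (i : Fin D) (u : GQ D → Circle) => u (adeg i.succ 1) ^ e i)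
      (fun i => (meas_coord _).pow_const _) ((E D)ᶜ.indicator (fun _ => (1 : ℂ))) hgi ε hε
    obtain ⟨N, hN⟩ := h1.exists
    obtain ⟨K, hK⟩ := hN.exists
    have h2 : {ω : GQ D → Circle | ∀ i : Fin D, Tor (ω (adeg i.succ 1) ^ e i)} = E D := by
      ext u
      exact forall_congr' fun i => tor_pow (he i)
    have h3 : Set.indicator {ω : GQ D → Circle | ∀ i : Fin D, Tor (ω (adeg i.succ 1) ^ e i)}
        ((E D)ᶜ.indicator (fun _ => (1 : ℂ))) = fun _ => 0 := by
      rw [h2]
      funext u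
      by_cases hu : u ∈ E D
      · rw [Set.indicator_of_mem hu, Set.indicator_of_notMem (by simpa using hu)]
      · rw [Set.indicator_of_notMem hu]
    rw [h3, integral_zero, sub_zero] at hK
    have h4 : ∀ j ∈ Finset.range (K + 1), ∫ ω : GQ D → Circle, (E D)ᶜ.indicator (fun _ => (1 : ℂ)) ω *
        ((∏ i : Fin D, (ω (adeg i.succ 1) ^ e i) ^ ((N.factorial * (j + 1)) ^ ((i : ℕ) + 1)) :
          Circle) : ℂ) ∂P = G := fun j _ => key _ (Nat.mul_pos N.factorial_pos j.succ_pos)
    rw [Finset.sum_congr rfl h4, Finset.sum_const, Finset.card_range] at hK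
    have h5 : (((K : ℝ) + 1)⁻¹ : ℝ) • ((K + 1) • G) = G := by
      have h6 : ((K + 1 : ℕ) • G : ℂ) = ((K : ℝ) + 1) • G := by
        rw [← Nat.cast_smul_eq_nsmul ℝ]
        push_cast
        rfl
      rw [h6, smul_smul, inv_mul_cancel₀ (by positivity), one_smul]
    rwa [h5] at hK
  have h0 : ‖G‖ ≤ 0 := le_of_forall_pos_le_add fun ε hε => by simpa using hle ε hε
  exact norm_le_zero_iff.1 h0

lemma norm_indicator_le' (S : Set (GQ D → Circle)) (f : (GQ D → Circle) → Circle)
    (u : GQ D → Circle) : ‖((u (adeg 0 1) : Circle) : ℂ)‖ *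
      ‖S.indicator (fun u => ((f u : Circle) : ℂ)) u‖ ≤ 1 := by
  rw [Circle.norm_coe, one_mul]
  exact norm_indicator_le S f u

/-- the two factors of an off diagonal term, the larger exponent first -/
lemma cross_eq (z z' : Circle) (e e' : Fin D → ℕ) (hle : ∀ i, e' i ≤ e i) (u : GQ D → Circle) :
    (E D)ᶜ.indicator (fun u => ((z * V e u : Circle) : ℂ)) u *
      (starRingEnd ℂ) ((E D)ᶜ.indicator (fun u => ((z' * V e' u : Circle) : ℂ)) u) =
    ((z * z'⁻¹ : Circle) : ℂ) *
      (E D)ᶜ.indicator (fun u => ((V (fun i => e i - e' i) u : Circle) : ℂ)) u := by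
  by_cases hu : u ∈ (E D)ᶜ
  · rw [Set.indicator_of_mem hu, Set.indicator_of_mem hu, Set.indicator_of_mem hu,
      ← Circle.coe_inv_eq_conj, ← Circle.coe_mul, ← Circle.coe_mul]
    congr 1
    have h1 : V e u = V (fun i => e i - e' i) u * V e' u := by
      rw [V, V, V, ← Finset.prod_mul_distrib]
      refine Finset.prod_congr rfl fun i _ => ?_
      rw [← pow_add, Nat.sub_add_cancel (hle i)]
    rw [h1, mul_inv]
    calc z * (V (fun i => e i - e' i) u * V e' u) * (z'⁻¹ * (V e' u)⁻¹)
        = (z * z'⁻¹ * V (fun i => e i - e' i) u) * (V e' u * (V e' u)⁻¹) := by ac_rfl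
      _ = z * z'⁻¹ * V (fun i => e i - e' i) u := by rw [mul_inv_cancel, mul_one]
  · rw [Set.indicator_of_notMem hu, Set.indicator_of_notMem hu, Set.indicator_of_notMem hu,
      zero_mul, mul_zero]

/-- the mean off the torsion set is zero -/
lemma off_torsion (hP : LimLaw D P V0) (h : ∀ (i : Fin D) (k : ℕ), 0 < k → fac k ∈ V0 i) :
    ∫ u, (E D)ᶜ.indicator (fun u => ((u ones : Circle) : ℂ)) u ∂P = 0 := by
  have := hP.prob
  have hEc : MeasurableSet (E D)ᶜ := measurableSet_E.compl
  choose z hz using fun k : ℕ => hP.zc (fac k)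
  set J := ∫ u, (E D)ᶜ.indicator (fun u => ((u ones : Circle) : ℂ)) u ∂P with hJ
  set c : ℕ → (GQ D → Circle) → ℂ := fun k =>
    (E D)ᶜ.indicator (fun u => ((z (k + 1) * V (ex D (k + 1)) u : Circle) : ℂ)) with hc
  have hmeasf : ∀ k, Measurable (fun u : GQ D → Circle => z (k + 1) * V (ex D (k + 1)) u) :=
    fun k => (meas_V _).const_mul _
  have hcm : ∀ k, Measurable (c k) := fun k => meas_ind hEc (hmeasf k)
  have hcle : ∀ k u, ‖c k u‖ ≤ 1 := fun k u => norm_indicator_le _ _ u
  have hJk : ∀ k, J = ∫ u, ((u (adeg 0 1) : Circle) : ℂ) * c k u ∂P := by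
    intro k
    refine integral_ones hP h (k + 1) k.succ_pos (z (k + 1)) (hz (k + 1)) _ hEc ?_
    filter_upwards [E_inv hP h (k + 1) k.succ_pos] with u hu
    exact not_congr hu
  -- orthogonality
  have horth : ∀ k l, k ≠ l → ∫ u, c k u * (starRingEnd ℂ) (c l u) ∂P = 0 := by
    have hlt : ∀ k l, l < k → ∫ u, c k u * (starRingEnd ℂ) (c l u) ∂P = 0 := by
      intro k l hkl
      have he : ∀ i : Fin D, 0 < ex D (k + 1) i - ex D (l + 1) i := fun i =>
        Nat.sub_pos_of_lt (Nat.pow_lt_pow_left (by omega) (by omega))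
      have h1 : ∀ u, c k u * (starRingEnd ℂ) (c l u) =
          ((z (k + 1) * (z (l + 1))⁻¹ : Circle) : ℂ) * (E D)ᶜ.indicator
            (fun u => ((V (fun i => ex D (k + 1) i - ex D (l + 1) i) u : Circle) : ℂ)) u := fun u =>
        cross_eq _ _ _ _ (fun i => (Nat.pow_le_pow_left (by omega) _)) u
      rw [integral_congr_ae (Eventually.of_forall h1), integral_const_mul, orth hP h _ he, mul_zero]
    intro k l hkl
    rcases lt_or_gt_of_ne hkl with h1 | h1
    · have h2 := hlt l k h1
      have h3 : ∫ u, c k u * (starRingEnd ℂ) (c l u) ∂P =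
          (starRingEnd ℂ) (∫ u, c l u * (starRingEnd ℂ) (c k u) ∂P) := by
        rw [← integral_conj]
        refine integral_congr_ae (Eventually.of_forall fun u => ?_)
        simp only [map_mul, Complex.conj_conj]
        ring
      rw [h3, h2, map_zero]
    · exact hlt k l h1
  have hint : ∀ k l, Integrable (fun u => c k u * (starRingEnd ℂ) (c l u)) P := by
    intro k l
    refine Integrable.of_bound (C := 1) ((hcm k).mul
      (Complex.continuous_conj.measurable.comp (hcm l))).aestronglyMeasurable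
      (Eventually.of_forall fun u => ?_)
    rw [norm_mul, RCLike.norm_conj]
    exact mul_le_one₀ (hcle k u) (norm_nonneg _) (hcle l u)
  have hkey : ∀ K : ℕ, 0 < K → (K : ℝ) * ‖J‖ ^ 2 ≤ 1 := by
    intro K hK
    set s : (GQ D → Circle) → ℂ := fun u => ∑ k ∈ Finset.range K, c k u with hs
    have hsm : Measurable s := Finset.measurable_sum _ fun k _ => hcm k
    have hsle : ∀ u, ‖s u‖ ≤ K := fun u => by
      refine (norm_sum_le _ _).trans ((Finset.sum_le_sum fun k _ => hcle k u).trans ?_)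
      simp
    -- first moment
    have h1 : (K : ℂ) * J = ∫ u, ((u (adeg 0 1) : Circle) : ℂ) * s u ∂P := by
      have h2 : ∀ u, ((u (adeg 0 1) : Circle) : ℂ) * s u =
          ∑ k ∈ Finset.range K, ((u (adeg 0 1) : Circle) : ℂ) * c k u := fun u => by
        rw [hs, Finset.mul_sum]
      rw [integral_congr_ae (Eventually.of_forall h2), integral_finsetSum]
      · rw [Finset.sum_congr rfl fun k _ => (hJk k).symm]
        simp
      · intro k _
        refine Integrable.of_bound (C := 1) ((meas_coe.comp (meas_coord _)).mul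
          (hcm k)).aestronglyMeasurable (Eventually.of_forall fun u => ?_)
        rw [norm_mul]
        exact norm_indicator_le' _ _ u
    have h3 : (K : ℝ) * ‖J‖ ≤ ∫ u, ‖s u‖ ∂P := by
      have h4 : (K : ℝ) * ‖J‖ = ‖(K : ℂ) * J‖ := by rw [norm_mul]; simp
      rw [h4, h1]
      refine (norm_integral_le_integral_norm _).trans (le_of_eq ?_)
      refine integral_congr_ae (Eventually.of_forall fun u => ?_)
      change ‖((u (adeg 0 1) : Circle) : ℂ) * s u‖ = ‖s u‖
      rw [norm_mul, Circle.norm_coe, one_mul]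
    -- second moment
    have h5 : ∫ u, ‖s u‖ ^ 2 ∂P ≤ K := by
      have h6 : ∀ u, ((‖s u‖ ^ 2 : ℝ) : ℂ) =
          ∑ k ∈ Finset.range K, ∑ l ∈ Finset.range K, c k u * (starRingEnd ℂ) (c l u) := fun u => by
        rw [← Finset.sum_mul_sum, ← map_sum, Complex.mul_conj, Complex.normSq_eq_norm_sq]
      have h7 : ((∫ u, ‖s u‖ ^ 2 ∂P : ℝ) : ℂ) =
          ∑ k ∈ Finset.range K, ∫ u, c k u * (starRingEnd ℂ) (c k u) ∂P := by
        rw [← integral_complex_ofReal, integral_congr_ae (Eventually.of_forall h6),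
          integral_finsetSum _ fun k _ => integrable_finsetSum _ fun l _ => hint k l]
        refine Finset.sum_congr rfl fun k hk => ?_
        rw [integral_finsetSum _ fun l _ => hint k l]
        exact Finset.sum_eq_single_of_mem k hk fun l _ hl => horth k l hl.symm
      have h8 : ∀ k, ‖∫ u, c k u * (starRingEnd ℂ) (c k u) ∂P‖ ≤ 1 := fun k => by
        have h9 := norm_integral_le_of_norm_le_const (μ := P)
          (f := fun u => c k u * (starRingEnd ℂ) (c k u)) (C := 1)
          (Eventually.of_forall fun u => by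
            rw [norm_mul, RCLike.norm_conj]
            exact mul_le_one₀ (hcle k u) (norm_nonneg _) (hcle k u))
        simpa using h9
      have h10 : ‖((∫ u, ‖s u‖ ^ 2 ∂P : ℝ) : ℂ)‖ ≤ K := by
        rw [h7]
        refine (norm_sum_le _ _).trans ((Finset.sum_le_sum fun k _ => h8 k).trans ?_)
        simp
      rw [Complex.norm_real, Real.norm_eq_abs] at h10
      exact (le_abs_self _).trans h10
    -- Cauchy-Schwarz
    set I1 := ∫ u, ‖s u‖ ∂P with hI1
    have hi1 : Integrable (fun u => ‖s u‖) P :=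
      (Integrable.of_bound (C := K) hsm.aestronglyMeasurable (Eventually.of_forall hsle)).norm
    have hi2 : Integrable (fun u => ‖s u‖ ^ 2) P := by
      refine Integrable.of_bound (C := (K : ℝ) ^ 2) (hsm.norm.pow_const 2).aestronglyMeasurable
        (Eventually.of_forall fun u => ?_)
      rw [Real.norm_eq_abs, abs_of_nonneg (by positivity)]
      exact pow_le_pow_left₀ (norm_nonneg _) (hsle u) 2
    have h11 : 0 ≤ ∫ u, (‖s u‖ - I1) ^ 2 ∂P := integral_nonneg fun u => sq_nonneg _
    have h12 : ∫ u, (‖s u‖ - I1) ^ 2 ∂P = ∫ u, ‖s u‖ ^ 2 ∂P - I1 ^ 2 := by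
      have h13 : ∀ u, (‖s u‖ - I1) ^ 2 = (‖s u‖ ^ 2 - 2 * I1 * ‖s u‖) + I1 ^ 2 := fun u => by ring
      have hi3 : Integrable (fun u => ‖s u‖ ^ 2 - 2 * I1 * ‖s u‖) P := hi2.sub (hi1.const_mul _)
      rw [integral_congr_ae (Eventually.of_forall h13), integral_add hi3
        (integrable_const _), integral_sub hi2 (hi1.const_mul _), integral_const_mul]
      simp
      ring
    have h14 : I1 ^ 2 ≤ K := by linarith
    have h15 : ((K : ℝ) * ‖J‖) ^ 2 ≤ K :=
      (pow_le_pow_left₀ (by positivity) h3 2).trans h14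
    have hK' : (0 : ℝ) < K := by exact_mod_cast hK
    have h16 : (K : ℝ) * ((K : ℝ) * ‖J‖ ^ 2) ≤ K * 1 := by nlinarith
    exact le_of_mul_le_mul_left h16 hK'
  have hJ0 : ‖J‖ ^ 2 ≤ 0 := by
    refine le_of_forall_pos_le_add fun ε hε => ?_
    obtain ⟨K, hK⟩ := exists_nat_gt (1 / ε)
    have hK0 : (0 : ℝ) < K := lt_trans (by positivity) hK
    have h1 := hkey K (by exact_mod_cast hK0)
    rw [zero_add]
    have h2 : 1 < K * ε := by
      rwa [div_lt_iff₀ hε] at hK
    by_contra h3
    push Not at h3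
    nlinarith
  have : ‖J‖ = 0 := by nlinarith [norm_nonneg J]
  exact norm_eq_zero.1 this

/-- the mean on the torsion set -/
lemma on_torsion (hP : LimLaw D P V0) (h : ∀ (i : Fin D) (k : ℕ), 0 < k → fac k ∈ V0 i) :
    0 ≤ (∫ u, (E D).indicator (fun u => ((u ones : Circle) : ℂ)) u ∂P).re := by
  have := hP.prob
  have hE : MeasurableSet (E D) := measurableSet_E
  choose z hz using fun k : ℕ => hP.zc (fac k)
  set I := ∫ u, (E D).indicator (fun u => ((u (adeg 0 1) : Circle) : ℂ)) u ∂P with hI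
  have hIz : ∀ k : ℕ, 0 < k → ∀ w : Circle, (∀ᵐ u ∂P, u (wdeg 0 (fac k)) = w) →
      I = (w : ℂ) * I := by
    intro k hk w hw
    have h1 : I = ∫ u, (w : ℂ) * (E D).indicator (fun u => ((u (adeg 0 1) : Circle) : ℂ)) u ∂P := by
      rw [hI, integral_TU hP k hk (meas_ind hE (meas_coord _))]
      refine integral_congr_ae ?_
      filter_upwards [coord_TT0 hP k, hw, E_inv hP h k hk] with u h1 h2 h3
      by_cases hu : u ∈ E D
      · rw [Set.indicator_of_mem (h3.2 hu), Set.indicator_of_mem hu]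
        change ((u (TT k (adeg 0 1)) : Circle) : ℂ) = _
        rw [h1, h2, Circle.coe_mul, mul_comm]
      · rw [Set.indicator_of_notMem (fun hh => hu (h3.1 hh)), Set.indicator_of_notMem hu, mul_zero]
    rw [integral_const_mul, ← hI] at h1
    exact h1
  set A : ℕ → ℂ := fun N => ∫ u, ((u (adeg 0 1) : Circle) : ℂ) *
    (E D).indicator (fun u => ((V (ex D N.factorial) u : Circle) : ℂ)) u ∂P with hA
  have hlim : Tendsto A atTop (𝓝 I) := by
    have hI' : I = ∫ u, ((u (adeg 0 1) : Circle) : ℂ) * (E D).indicator (fun _ => (1 : ℂ)) u ∂P := by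
      rw [hI]
      refine integral_congr_ae (Eventually.of_forall fun u => ?_)
      by_cases hu : u ∈ E D
      · simp only [Set.indicator_of_mem hu, mul_one]
      · simp only [Set.indicator_of_notMem hu, mul_zero]
    rw [hI']
    refine tendsto_integral_of_dominated_convergence (fun _ => (1 : ℝ)) (fun N => ?_)
      (integrable_const _) (fun N => Eventually.of_forall fun u => ?_)
      (Eventually.of_forall fun u => ?_)
    · exact ((meas_coe.comp (meas_coord _)).mul (meas_ind hE (meas_V _))).aestronglyMeasurable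
    · rw [norm_mul]
      exact norm_indicator_le' _ _ u
    · refine Tendsto.const_mul _ ?_
      by_cases hu : u ∈ E D
      · simp only [Set.indicator_of_mem hu]
        refine tendsto_const_nhds.congr' ?_
        have hu' : ∀ i : Fin D, ∃ n : ℕ, 0 < n ∧ u (adeg i.succ 1) ^ n = 1 := hu
        choose n hn hn1 using hu'
        filter_upwards [eventually_ge_atTop (∑ i, n i)] with N hN
        have h1 : V (ex D N.factorial) u = 1 := by
          refine Finset.prod_eq_one fun i _ => ?_
          have h2 : n i ≤ N := (Finset.single_le_sum (fun j _ => Nat.zero_le (n j))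
            (Finset.mem_univ i)).trans hN
          obtain ⟨m, hm⟩ := (Nat.dvd_factorial (hn i) h2).trans
            (dvd_pow_self N.factorial (Nat.succ_ne_zero (i : ℕ)))
          change u (adeg i.succ 1) ^ (N.factorial ^ ((i : ℕ) + 1)) = 1
          rw [hm, pow_mul, hn1, one_pow]
        rw [h1, Circle.coe_one]
      · simp only [Set.indicator_of_notMem hu]
        exact tendsto_const_nhds
  set I0 := ∫ u, (E D).indicator (fun u => ((u ones : Circle) : ℂ)) u ∂P with hI0
  have hI0N : ∀ N : ℕ, I0 = (z N.factorial : ℂ) * A N := by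
    intro N
    rw [hI0, integral_ones hP h N.factorial N.factorial_pos (z N.factorial) (hz N.factorial) _ hE
      (E_inv hP h _ N.factorial_pos), hA, ← integral_const_mul]
    refine integral_congr_ae (Eventually.of_forall fun u => ?_)
    by_cases hu : u ∈ E D
    · simp only [Set.indicator_of_mem hu, Circle.coe_mul]
      ring
    · simp only [Set.indicator_of_notMem hu, mul_zero]
  have hI0I : I0 = I := by
    have h1 : ∀ N : ℕ, ‖I0 - I‖ = ‖A N - I‖ := by
      intro N
      have h2 := hIz N.factorial N.factorial_pos (z N.factorial) (hz N.factorial)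
      calc ‖I0 - I‖ = ‖(z N.factorial : ℂ) * A N - (z N.factorial : ℂ) * I‖ := by
            rw [← hI0N N, ← h2]
        _ = ‖A N - I‖ := by rw [← mul_sub, norm_mul, Circle.norm_coe, one_mul]
    have h2 : Tendsto (fun N => ‖A N - I‖) atTop (𝓝 0) := by
      have := (hlim.sub_const I).norm
      simpa using this
    have h3 : Tendsto (fun _ : ℕ => ‖I0 - I‖) atTop (𝓝 0) := h2.congr fun N => (h1 N).symm
    have h4 := tendsto_nhds_unique h3 tendsto_const_nhds
    exact sub_eq_zero.1 (norm_eq_zero.1 h4.symm)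
  rw [hI0I]
  rcases hP.zer with ⟨k, hk, w, hw1, hw⟩ | h1
  · have h2 := hIz k hk w hw
    have h3 : ((w : ℂ) - 1) * I = 0 := by rw [sub_mul, one_mul, ← h2, sub_self]
    rcases mul_eq_zero.1 h3 with h4 | h4
    · exact absurd (Circle.coe_eq_one.1 (sub_eq_zero.1 h4)) hw1
    · rw [h4]; simp
  · have h2 : I = ((∫ u, (E D).indicator (fun _ => (1 : ℝ)) u ∂P : ℝ) : ℂ) := by
      rw [← integral_complex_ofReal, hI]
      refine integral_congr_ae ?_
      filter_upwards [h1] with u hu
      by_cases hu' : u ∈ E D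
      · simp only [Set.indicator_of_mem hu', hu, Circle.coe_one, Complex.ofReal_one]
      · simp only [Set.indicator_of_notMem hu', Complex.ofReal_zero]
    rw [h2, Complex.ofReal_re]
    exact integral_nonneg fun u => Set.indicator_nonneg (fun _ _ => zero_le_one) _

end CoreB

theorem core_b (hP : LimLaw D P V0) (h : ∀ (i : Fin D) (k : ℕ), 0 < k → fac k ∈ V0 i) :
    0 ≤ (∫ u, ((u ones : Circle) : ℂ) ∂P).re := by
  have := hP.prob
  have h1 : ∫ u, ((u ones : Circle) : ℂ) ∂P =
      ∫ u, (CoreB.E D).indicator (fun u => ((u ones : Circle) : ℂ)) u ∂P +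
        ∫ u, (CoreB.E D)ᶜ.indicator (fun u => ((u ones : Circle) : ℂ)) u ∂P := by
    rw [← integral_add (CoreB.integrable_indicator CoreB.measurableSet_E (CoreB.meas_coord _))
      (CoreB.integrable_indicator CoreB.measurableSet_E.compl (CoreB.meas_coord _))]
    refine integral_congr_ae (Eventually.of_forall fun u => ?_)
    exact (Set.indicator_self_add_compl_apply (CoreB.E D)
      (fun u : GQ D → Circle => ((u ones : Circle) : ℂ)) u).symm
  rw [h1, CoreB.off_torsion hP h, add_zero]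
  exact CoreB.on_torsion hP h

end Pool.Agent.PPR
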