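import Mathlib

/-!
# Pairs of exponential patterns: definitions and elementary lemmas
-/

set_option autoImplicit false

namespace Pool.Agent.PPR

open MeasureTheory ProbabilityTheory Filter Topology

/-! ### Measurable structure on the circle -/

noncomputable instance instMSCircle : MeasurableSpace Circle := borel Circle
instance instBSCircle : BorelSpace Circle := ⟨rfl⟩
instance instPolishPi {ι : Type*} [Countable ι] : PolishSpace (ι → Circle) := by
  have h1 : TopologicalSpace.SeparableSpace (ι → Circle) := inferInstance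
  have h2 : TopologicalSpace.IsCompletelyMetrizableSpace (ι → Circle) := inferInstance
  exact @instPolishSpaceOfSeparableSpaceOfIsCompletelyMetrizableSpace _ _ h1 h2
instance instSBPi {ι : Type*} [Countable ι] : StandardBorelSpace (ι → Circle) := inferInstance
instance instNonemptyPi {ι : Type*} : Nonempty (ι → Circle) := ⟨fun _ => 1⟩

lemma continuous_coeC : Continuous (fun z : Circle => (z : ℂ)) :=
  continuous_subtype_val

/-! ### Factorisations with rational coefficients, the group `GQ D` and its zooms -/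

/-- the factorisation of `k` with rational coefficients -/
noncomputable def fac (k : ℕ) : ℕ →₀ ℚ :=
  k.factorization.mapRange (fun n : ℕ => (n : ℚ)) Nat.cast_zero

/-- the component `(g d).1` is the coefficient of `n ^ d Λ_d(n)`, the component `(g d).2` gives the
coefficients of the `n ^ d Λ_d(p)`. -/
abbrev GQ (D : ℕ) := Fin (D + 1) → ℚ × (ℕ →₀ ℚ)

/-- coefficients of the `n ^ (i + 1) Λ_(i+1)(p)`, `i < D` -/
abbrev VV (D : ℕ) := Fin D → (ℕ →₀ ℚ)

variable {D : ℕ}

/-- the zoom by `k` -/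
noncomputable def TT (k : ℕ) (g : GQ D) : GQ D := fun d =>
  ((k : ℚ) ^ (d : ℕ) * (g d).1, ((k : ℚ) ^ (d : ℕ)) • ((g d).2 + (g d).1 • fac k))

/-- the zoom by `k` on the fine part -/
noncomputable def LL (k : ℕ) (w : VV D) : VV D := fun i => ((k : ℚ) ^ ((i : ℕ) + 1)) • w i

noncomputable def iV (w : VV D) : GQ D := Fin.cons (0, 0) (fun i => (0, w i))

noncomputable def adeg (d : Fin (D + 1)) (q : ℚ) : GQ D := Pi.single d (q, 0)

noncomputable def wdeg (d : Fin (D + 1)) (w : ℕ →₀ ℚ) : GQ D := Pi.single d (0, w)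

noncomputable def ones : GQ D := fun _ => (1, 0)

lemma fac_apply (k p : ℕ) : fac k p = (k.factorization p : ℚ) := rfl

lemma fac_one : fac 1 = 0 := by ext p; simp [fac_apply]

lemma fac_mul {a b : ℕ} (ha : a ≠ 0) (hb : b ≠ 0) : fac (a * b) = fac a + fac b := by
  ext p
  simp [fac_apply, Nat.factorization_mul ha hb]

lemma TT_add (k : ℕ) (g h : GQ D) : TT k (g + h) = TT k g + TT k h := by
  funext d
  refine Prod.ext ?_ ?_
  · simp only [TT, Pi.add_apply, Prod.fst_add, Prod.mk_add_mk]; ring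
  · simp only [TT, Pi.add_apply, Prod.snd_add, Prod.fst_add, Prod.mk_add_mk]; module

lemma TT_mul {a b : ℕ} (ha : a ≠ 0) (hb : b ≠ 0) (g : GQ D) : TT (a * b) g = TT a (TT b g) := by
  funext d
  refine Prod.ext ?_ ?_
  · simp only [TT]; push_cast; ring
  · simp only [TT, fac_mul ha hb]
    push_cast
    module

lemma LL_add (k : ℕ) (v w : VV D) : LL k (v + w) = LL k v + LL k w := by
  funext i; simp [LL]

lemma LL_mul (a b : ℕ) (w : VV D) : LL (a * b) w = LL a (LL b w) := by
  funext i
  simp only [LL, smul_smul]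
  congr 1
  push_cast
  ring

lemma iV_add (v w : VV D) : iV (v + w) = iV v + iV w := by
  funext d
  refine Fin.cases ?_ (fun i => ?_) d
  · simp [iV]
  · simp [iV]

lemma TT_iV (k : ℕ) (w : VV D) : TT k (iV w) = iV (LL k w) := by
  funext d
  refine Fin.cases ?_ (fun i => ?_) d
  · simp [TT, iV]
  · simp [TT, iV, LL]

lemma adeg_add (d : Fin (D + 1)) (q q' : ℚ) : adeg d (q + q') = adeg d q + adeg d q' := by
  rw [adeg, adeg, adeg, ← Pi.single_add]; simp

lemma wdeg_add (d : Fin (D + 1)) (w w' : ℕ →₀ ℚ) : wdeg d (w + w') = wdeg d w + wdeg d w' := by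
  rw [wdeg, wdeg, wdeg, ← Pi.single_add]; simp

lemma TT_adeg (k : ℕ) (d : Fin (D + 1)) (q : ℚ) :
    TT k (adeg d q) =
      adeg d ((k : ℚ) ^ (d : ℕ) * q) + wdeg d (((k : ℚ) ^ (d : ℕ) * q) • fac k) := by
  funext e
  by_cases h : e = d
  · subst h
    simp [TT, adeg, wdeg, smul_smul]
  · simp [TT, adeg, wdeg, Pi.single_eq_of_ne h]

lemma TT_wdeg (k : ℕ) (d : Fin (D + 1)) (w : ℕ →₀ ℚ) :
    TT k (wdeg d w) = wdeg d (((k : ℚ) ^ (d : ℕ)) • w) := by
  funext e
  by_cases h : e = d
  · subst h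
    simp [TT, wdeg]
  · simp [TT, wdeg, Pi.single_eq_of_ne h]

lemma wdeg_succ (i : Fin D) (w : ℕ →₀ ℚ) : wdeg i.succ w = iV (Pi.single i w) := by
  funext d
  refine Fin.cases ?_ (fun j => ?_) d
  · simp [iV, wdeg]; rfl
  · by_cases h : j = i
    · subst h; simp [iV, wdeg]
    · have h' : j.succ ≠ i.succ := fun e => h (Fin.succ_injective _ e)
      simp [iV, wdeg, Pi.single_eq_of_ne h, Pi.single_eq_of_ne h']; rfl

lemma ones_eq_sum : (ones : GQ D) = ∑ d, adeg d 1 := by
  funext e
  rw [Finset.sum_apply, Finset.sum_eq_single e]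
  · simp [ones, adeg]
  · intro b _ hb
    simp [adeg, Pi.single_eq_of_ne hb.symm]
  · simp

/-! ### The limit laws -/

/-- the projection to the fine part -/
noncomputable def pi (u : GQ D → Circle) : VV D → Circle := fun w => u (iV w)

/-- composition with the zoom -/
noncomputable def TU (k : ℕ) (u : GQ D → Circle) : GQ D → Circle := fun g => u (TT k g)

/-- composition with the zoom, fine part -/
noncomputable def tau (k : ℕ) (x : VV D → Circle) : VV D → Circle := fun w => x (LL k w)

/-- the `d`-th coarse coordinate -/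
noncomputable def xi (d : Fin (D + 1)) (u : GQ D → Circle) : ℚ → Circle := fun q => u (adeg d q)

open Classical in
/-- A law on the characters of the fine group `VV D` which is Haar measure of the annihilator of
a product of subspaces. -/
structure Fine (D : ℕ) (Q : Measure (VV D → Circle)) (V0 : Fin D → Submodule ℚ (ℕ →₀ ℚ)) :
    Prop where
  prob : IsProbabilityMeasure Q
  hom : ∀ v w, ∀ᵐ x ∂Q, x (v + w) = x v * x w
  inv : ∀ k : ℕ, 0 < k → Q.map (tau k) = Q
  fc : ∀ w : VV D, ∫ x, ((x w : Circle) : ℂ) ∂Q = if (∀ i, w i ∈ V0 i) then 1 else 0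

/-- The limit laws of the functions `g ↦ exp (2 π i ∑ n ^ d (a_d Λ_d(n) + ∑ w_d(p) Λ_d(p)))`. -/
structure LimLaw (D : ℕ) (P : Measure (GQ D → Circle)) (V0 : Fin D → Submodule ℚ (ℕ →₀ ℚ)) :
    Prop where
  prob : IsProbabilityMeasure P
  hom : ∀ g h, ∀ᵐ u ∂P, u (g + h) = u g * u h
  inv : ∀ k : ℕ, 0 < k → P.map (TU k) = P
  fine : Fine D (P.map pi) V0
  zc : ∀ w : ℕ →₀ ℚ, ∃ z : Circle, ∀ᵐ u ∂P, u (wdeg 0 w) = z
  zer : (∃ k : ℕ, 0 < k ∧ ∃ z : Circle, z ≠ 1 ∧ ∀ᵐ u ∂P, u (wdeg 0 (fac k)) = z) ∨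
    (∀ᵐ u ∂P, u (adeg 0 1) = 1)

lemma measurable_pi' : Measurable (pi (D := D)) :=
  measurable_pi_lambda _ fun _ => measurable_pi_apply _

lemma measurable_TU (k : ℕ) : Measurable (TU (D := D) k) :=
  measurable_pi_lambda _ fun _ => measurable_pi_apply _

lemma measurable_tau (k : ℕ) : Measurable (tau (D := D) k) :=
  measurable_pi_lambda _ fun _ => measurable_pi_apply _

lemma measurable_xi (d : Fin (D + 1)) : Measurable (xi (D := D) d) :=
  measurable_pi_lambda _ fun _ => measurable_pi_apply _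

lemma pi_TU (k : ℕ) (u : GQ D → Circle) : pi (TU k u) = tau k (pi u) := by
  funext w; simp [pi, TU, tau, TT_iV]

/-! ### Averages -/

/-- the `i`-th prime -/
noncomputable def pr (i : ℕ) : ℕ := Nat.nth Nat.Prime i

/-- the number with exponents `e` at the first `X + 1` primes -/
noncomputable def xx (X : ℕ) (e : Fin (X + 1) → ZMod (X + 1)) : ℕ :=
  ∏ i : Fin (X + 1), pr i ^ (e i).val

/-- multiplicative Følner averages -/
noncomputable def avgX {E : Type*} [AddCommGroup E] [Module ℝ E] (X : ℕ) (f : ℕ → E) : E :=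
  ((((X : ℝ) + 1) ^ (X + 1))⁻¹ : ℝ) • ∑ e : Fin (X + 1) → ZMod (X + 1), f (xx X e)

/-- dilated intervals -/
noncomputable def avgK {E : Type*} [AddCommGroup E] [Module ℝ E] (K : ℕ) (f : ℕ → E) (x : ℕ) : E :=
  (((K : ℝ) + 1)⁻¹ : ℝ) • ∑ j ∈ Finset.range (K + 1), f (x * (j + 1))

/-- additively completed multiplicative averages -/
noncomputable def avg {E : Type*} [AddCommGroup E] [Module ℝ E] (X K : ℕ) (f : ℕ → E) : E :=
  avgX X (avgK K f)

/-- density along an ultrafilter -/
noncomputable def dens (U : Ultrafilter ℕ) (A : Set ℕ) : ℝ :=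
  limUnder (U : Filter ℕ) (fun X => avgX X (A.indicator (fun _ => (1 : ℝ))))

/-- the completely multiplicative extension of a function on the primes -/
noncomputable def ext (l : ℕ → Circle) (n : ℕ) : Circle := n.factorization.prod fun p k => l p ^ k

/-- the phase `∑ n ^ d Λ_d(n)`, `Λ_d` completely additive -/
noncomputable def phase (L : Fin (D + 1) → ℕ → ℝ) (n : ℕ) : ℝ :=
  ∑ d : Fin (D + 1), (n : ℝ) ^ (d : ℕ) * n.factorization.sum fun p k => (k : ℝ) * L d p

/-- `exp (2 π i x)` -/
noncomputable def ee (x : ℝ) : Circle := Circle.exp (2 * Real.pi * x)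

/-- points of finite order of the circle -/
def Tor (z : Circle) : Prop := ∃ n : ℕ, 0 < n ∧ z ^ n = 1

/-! ### Disintegrations over the fine part -/

/-- the conditional expectation of the coordinate `g` given the fine part -/
noncomputable def FF (κ : Kernel (VV D → Circle) (GQ D → Circle)) (g : GQ D)
    (x : VV D → Circle) : ℂ := ∫ u, ((u g : Circle) : ℂ) ∂(κ x)

end Pool.Agent.PPR
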