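import Pool.Agent.PPR.Eqv

/-!
# The exact cocycle equation for conditional expectations
-/

set_option autoImplicit false

namespace Pool.Agent.PPR

open MeasureTheory ProbabilityTheory Filter Topology

variable {D : ℕ} {P : Measure (GQ D → Circle)} {V0 : Fin D → Submodule ℚ (ℕ →₀ ℚ)}
variable {κ : Kernel (VV D → Circle) (GQ D → Circle)}

lemma measurable_coord {I : Type*} (g : I) :
    Measurable fun u : I → Circle => ((u g : Circle) : ℂ) := by
  have h1 : Measurable fun z : Circle => (z : ℂ) := continuous_coeC.measurable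
  exact h1.comp (measurable_pi_apply g)

lemma integrable_coord {I : Type*} (μ : Measure (I → Circle)) [IsFiniteMeasure μ] (g : I) :
    Integrable (fun u : I → Circle => ((u g : Circle) : ℂ)) μ := by
  refine Integrable.of_bound (C := 1) (measurable_coord g).aestronglyMeasurable ?_
  exact Filter.Eventually.of_forall fun u => (Circle.norm_coe _).le

lemma measurable_FF (hκ : Disint P κ) (g : GQ D) : Measurable (FF κ g) := by
  have := hκ.markov
  have h : StronglyMeasurable fun p : (VV D → Circle) × (GQ D → Circle) =>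
      ((p.2 g : Circle) : ℂ) :=
    ((measurable_coord g).comp measurable_snd).stronglyMeasurable
  exact (h.integral_kernel_prod_right' (κ := κ)).measurable

lemma norm_FF_le (hκ : Disint P κ) (g : GQ D) (x : VV D → Circle) : ‖FF κ g x‖ ≤ 1 := by
  have := hκ.markov
  refine (norm_integral_le_integral_norm _).trans ?_
  simp

/-- almost everywhere statements pass to the fibres -/
lemma ae_fib (hκ : Disint P κ) {p : (GQ D → Circle) → Prop} (hp : ∀ᵐ u ∂P, p u) :
    ∀ᵐ x ∂(P.map pi), ∀ᵐ u ∂(κ x), p u := by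
  have h : ∀ᵐ u ∂((P.map pi).bind κ), p u := by rw [hκ.bind]; exact hp
  exact Measure.ae_ae_of_ae_bind κ.measurable.aemeasurable h

theorem FF_add_iV (hP : LimLaw D P V0) (hκ : Disint P κ) (g : GQ D) (w : VV D) :
    ∀ᵐ x ∂(P.map pi), FF κ (g + iV w) x = ((x w : Circle) : ℂ) * FF κ g x := by
  filter_upwards [hκ.fib, ae_fib hκ (hP.hom g (iV w))] with x h1 h2
  rw [FF, FF, ← integral_const_mul]
  refine integral_congr_ae ?_
  filter_upwards [h1, h2] with u h3 h4
  rw [h4, ← h3]
  simp only [pi, Circle.coe_mul]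
  ring

theorem FF_tau (hκ : Disint P κ) (g : GQ D) (k : ℕ) (hk : 0 < k) :
    ∀ᵐ x ∂(P.map pi), FF κ g (tau k x) = FF κ (TT k g) x := by
  filter_upwards [hκ.eqv k hk] with x hx
  rw [FF, FF, hx, integral_map (measurable_TU k).aemeasurable
    (measurable_coord g).aestronglyMeasurable]
  rfl

theorem FF_coc (hP : LimLaw D P V0) (hκ : Disint P κ) (i : Fin D) (c : ℚ) (k : ℕ) (hk : 0 < k) :
    ∀ᵐ x ∂(P.map pi), FF κ (adeg i.succ c) (tau k x) =
      ((x (Pi.single i ((c * (k : ℚ) ^ ((i : ℕ) + 1)) • fac k)) : Circle) : ℂ) *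
        FF κ (adeg i.succ (c * (k : ℚ) ^ ((i : ℕ) + 1))) x := by
  filter_upwards [FF_tau hκ (adeg i.succ c) k hk, FF_add_iV hP hκ
    (adeg i.succ (c * (k : ℚ) ^ ((i : ℕ) + 1)))
    (Pi.single i ((c * (k : ℚ) ^ ((i : ℕ) + 1)) • fac k))] with x h1 h2
  rw [h1, TT_adeg, wdeg_succ, ← h2, Fin.val_succ, mul_comm c]

end Pool.Agent.PPR
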