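import Pool.Agent.PPR.Defs

/-!
# Conditional laws given the fine part, and their equivariance
-/

set_option autoImplicit false

namespace Pool.Agent.PPR

open MeasureTheory ProbabilityTheory Filter Topology

variable {D : ℕ} {P : Measure (GQ D → Circle)} {V0 : Fin D → Submodule ℚ (ℕ →₀ ℚ)}

/-- a disintegration of `P` over the fine part, equivariant under the zooms -/
structure Disint (P : Measure (GQ D → Circle)) (κ : Kernel (VV D → Circle) (GQ D → Circle)) :
    Prop where
  markov : IsMarkovKernel κ
  bind : (P.map pi).bind κ = P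
  fib : ∀ᵐ x ∂(P.map pi), ∀ᵐ u ∂(κ x), pi u = x
  eqv : ∀ k : ℕ, 0 < k → ∀ᵐ x ∂(P.map pi), κ (tau k x) = (κ x).map (TU k)

/-- the inverse zoom on the fine part -/
noncomputable def sig (k : ℕ) (x : VV D → Circle) : VV D → Circle :=
  fun w => x (fun i => ((k : ℚ) ^ ((i : ℕ) + 1))⁻¹ • w i)

lemma measurable_sig (k : ℕ) : Measurable (sig (D := D) k) :=
  measurable_pi_lambda _ fun _ => measurable_pi_apply _

lemma sig_tau {k : ℕ} (hk : 0 < k) (x : VV D → Circle) : sig k (tau k x) = x := by
  funext w
  have h : LL k (fun i => ((k : ℚ) ^ ((i : ℕ) + 1))⁻¹ • w i) = w := by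
    funext i
    have hk' : ((k : ℚ) ^ ((i : ℕ) + 1)) ≠ 0 := pow_ne_zero _ (by exact_mod_cast hk.ne')
    simp only [LL, smul_smul, mul_inv_cancel₀ hk', one_smul]
  simp only [sig, tau, h]

theorem exists_disint (hP : LimLaw D P V0) :
    ∃ κ : Kernel (VV D → Circle) (GQ D → Circle), Disint P κ := by
  have := hP.prob
  have hpi : Measurable (pi (D := D)) := measurable_pi'
  have : IsProbabilityMeasure (P.map pi) := Measure.isProbabilityMeasure_map hpi.aemeasurable
  let κ : Kernel (VV D → Circle) (GQ D → Circle) := condDistrib id pi P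
  have hdg : Measurable (fun a : GQ D → Circle => (pi a, a)) := hpi.prodMk measurable_id
  have hκ : (P.map pi) ⊗ₘ κ = P.map fun a => (pi a, a) :=
    compProd_map_condDistrib (Y := id) aemeasurable_id
  refine ⟨κ, ?_, ?_, ?_, ?_⟩
  · infer_instance
  · have h := condDistrib_comp_map (X := pi) (Y := id) (μ := P) hpi.aemeasurable aemeasurable_id
    rw [Measure.map_id] at h
    exact h
  · have hm : MeasurableSet {p : (VV D → Circle) × (GQ D → Circle) | pi p.2 = p.1} :=
      measurableSet_eq_fun (hpi.comp measurable_snd) measurable_fst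
    have h : ∀ᵐ p ∂((P.map pi) ⊗ₘ κ), pi p.2 = p.1 := by
      rw [hκ, ae_map_iff hdg.aemeasurable hm]
      exact Filter.Eventually.of_forall fun _ => rfl
    exact Measure.ae_ae_of_ae_compProd h
  · intro k hk
    have hQ : (P.map pi).map (tau k) = P.map pi := by
      rw [Measure.map_map (measurable_tau k) hpi]
      have : tau k ∘ pi = pi ∘ TU (D := D) k := funext fun u => (pi_TU k u).symm
      rw [this, ← Measure.map_map hpi (measurable_TU k), hP.inv k hk]
    let κ1 : Kernel (VV D → Circle) (GQ D → Circle) := κ.comap (tau k) (measurable_tau k)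
    let κ2 : Kernel (VV D → Circle) (GQ D → Circle) := κ.map (TU k)
    have h2 : (P.map pi) ⊗ₘ κ2 = P.map fun u => (pi u, TU k u) := by
      have h := Measure.compProd_map (μ := P.map pi) (κ := κ) (measurable_TU (D := D) k)
      rw [h, hκ, Measure.map_map (measurable_id.prodMap (measurable_TU k)) hdg]
      rfl
    have h1 : ((P.map pi) ⊗ₘ κ1).map (Prod.map (tau k) id) = (P.map pi) ⊗ₘ κ := by
      have : (P.map pi) ⊗ₘ κ = ((P.map pi).map (tau k)) ⊗ₘ κ := by rw [hQ]
      rw [this]
      refine Measure.ext_of_lintegral _ fun f hf => ?_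
      have e0 := Measure.lintegral_compProd (μ := P.map pi) (κ := κ1)
        (hf.comp ((measurable_tau k).prodMap measurable_id))
      simp only [Function.comp_apply] at e0
      rw [lintegral_map hf ((measurable_tau k).prodMap measurable_id), e0,
        Measure.lintegral_compProd hf,
        lintegral_map hf.lintegral_kernel_prod_right' (measurable_tau k)]
      rfl
    have h3 : (P.map fun u => (pi u, TU k u)).map (Prod.map (tau k) id) = (P.map pi) ⊗ₘ κ := by
      rw [Measure.map_map ((measurable_tau k).prodMap measurable_id)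
        (hpi.prodMk (measurable_TU k)), hκ]
      have : Prod.map (tau k) id ∘ (fun u => (pi u, TU (D := D) k u))
          = (fun a => (pi a, a)) ∘ TU k := by
        funext u
        exact Prod.ext (pi_TU k u).symm rfl
      rw [this, ← Measure.map_map hdg (measurable_TU k), hP.inv k hk]
    have h4 : (P.map pi) ⊗ₘ κ1 = (P.map pi) ⊗ₘ κ2 := by
      have hinv : Prod.map (sig k) id ∘ Prod.map (tau k) id
          = (id : (VV D → Circle) × (GQ D → Circle) → _) := by
        funext p
        exact Prod.ext (sig_tau hk p.1) rfl
      have h5 := congrArg (fun m => Measure.map (Prod.map (sig k) id) m) (h1.trans h3.symm)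
      rw [Measure.map_map ((measurable_sig k).prodMap measurable_id)
        ((measurable_tau k).prodMap measurable_id),
        Measure.map_map ((measurable_sig k).prodMap measurable_id)
        ((measurable_tau k).prodMap measurable_id), hinv, Measure.map_id, Measure.map_id] at h5
      rw [h5, h2]
    have h6 := Kernel.ae_eq_of_compProd_eq h4
    filter_upwards [h6] with x hx
    have e1 : κ1 x = κ (tau k x) := Kernel.comap_apply _ _ _
    have e2 : κ2 x = (κ x).map (TU k) := Kernel.map_apply _ (measurable_TU k) _
    rw [← e1, ← e2, hx]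

end Pool.Agent.PPR
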