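import Pool.Agent.PPR.Defs

/-!
# A nested Fatou lemma
-/

set_option autoImplicit false

namespace Pool.Agent.PPR

open MeasureTheory ProbabilityTheory Filter Topology

theorem nested_fatou {Ω : Type*} [MeasurableSpace Ω] (μ : Measure Ω) [IsProbabilityMeasure μ]
    (f : ℕ → ℕ → Ω → ℝ) (hf : ∀ N K, Measurable (f N K)) (g : Ω → ℝ) (hg : Measurable g)
    (B : ℝ) (hfB : ∀ N K x, |f N K x| ≤ B) (hgB : ∀ x, |g x| ≤ B)
    (h : ∀ᵐ x ∂μ, ∀ ε : ℝ, 0 < ε → ∀ᶠ N in atTop, ∀ᶠ K in atTop, g x - ε ≤ f N K x)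
    (ε : ℝ) (hε : 0 < ε) :
    ∀ᶠ N in atTop, ∀ᶠ K in atTop, (∫ x, g x ∂μ) - ε ≤ ∫ x, f N K x ∂μ := by
  -- the defect
  let ψ : ℕ → ℕ → Ω → ENNReal := fun N K x => ENNReal.ofReal (g x - f N K x)
  have hψm : ∀ N K, Measurable (ψ N K) := fun N K => (hg.sub (hf N K)).ennreal_ofReal
  have hψB : ∀ N K x, ψ N K x ≤ ENNReal.ofReal (2 * B) := by
    intro N K x
    refine ENNReal.ofReal_le_ofReal ?_
    have h1 := abs_le.1 (hfB N K x)
    have h2 := abs_le.1 (hgB x)
    linarith
  let Ψ : ℕ → Ω → ENNReal := fun N x => limsup (fun K => ψ N K x) atTop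
  have hΨm : ∀ N, Measurable (Ψ N) := fun N => Measurable.limsup (hψm N)
  have hΨB : ∀ N x, Ψ N x ≤ ENNReal.ofReal (2 * B) := fun N x =>
    limsup_le_of_le (by isBoundedDefault) (Eventually.of_forall fun K => hψB N K x)
  have hΨ0 : ∀ᵐ x ∂μ, Tendsto (fun N => Ψ N x) atTop (𝓝 0) := by
    filter_upwards [h] with x hx
    rw [ENNReal.tendsto_nhds_zero]
    intro δ hδ
    by_cases hδt : δ = ⊤
    · exact Eventually.of_forall fun N => by rw [hδt]; exact le_top
    · have hδ' : 0 < δ.toReal := ENNReal.toReal_pos hδ.ne' hδt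
      filter_upwards [hx δ.toReal hδ'] with N hN
      refine limsup_le_of_le (by isBoundedDefault) ?_
      filter_upwards [hN] with K hK
      calc ψ N K x ≤ ENNReal.ofReal δ.toReal := ENNReal.ofReal_le_ofReal (by linarith)
        _ = δ := ENNReal.ofReal_toReal hδt
  have hfin : ∫⁻ _, ENNReal.ofReal (2 * B) ∂μ ≠ ⊤ := by
    rw [lintegral_const, measure_univ, mul_one]
    exact ENNReal.ofReal_ne_top
  have hlim : Tendsto (fun N => ∫⁻ x, Ψ N x ∂μ) atTop (𝓝 0) := by
    have h1 := tendsto_lintegral_of_dominated_convergence (μ := μ) (F := Ψ) (f := fun _ => 0)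
      (fun _ => ENNReal.ofReal (2 * B)) hΨm (fun N => Eventually.of_forall (hΨB N)) hfin hΨ0
    simpa using h1
  have hev : ∀ᶠ N in atTop, ∫⁻ x, Ψ N x ∂μ < ENNReal.ofReal ε :=
    hlim.eventually_lt_const (ENNReal.ofReal_pos.2 hε)
  filter_upwards [hev] with N hN
  have h2 : limsup (fun K => ∫⁻ x, ψ N K x ∂μ) atTop < ENNReal.ofReal ε :=
    lt_of_le_of_lt (limsup_lintegral_le (fun _ => ENNReal.ofReal (2 * B)) (hψm N)
      (fun K => Eventually.of_forall (hψB N K)) hfin) hN
  filter_upwards [eventually_lt_of_limsup_lt h2] with K hK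
  have hif : Integrable (f N K) μ :=
    Integrable.of_bound (hf N K).aestronglyMeasurable B (Eventually.of_forall (hfB N K))
  have hig : Integrable g μ :=
    Integrable.of_bound hg.aestronglyMeasurable B (Eventually.of_forall hgB)
  have h3 : ∫ x, (g x - f N K x) ∂μ ≤ (∫⁻ x, ψ N K x ∂μ).toReal := by
    have h4 : ∫ x, (g x - f N K x) ∂μ ≤ ∫ x, max (g x - f N K x) 0 ∂μ := by
      refine integral_mono (hig.sub hif) ?_ (fun x => le_max_left _ _)
      exact (hig.sub hif).pos_part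
    refine h4.trans (le_of_eq ?_)
    have hm : Measurable fun x => max (g x - f N K x) 0 :=
      (hg.sub (hf N K)).max measurable_const
    rw [integral_eq_lintegral_of_nonneg_ae
      (f := fun x => max (g x - f N K x) 0)
      (Eventually.of_forall fun x => le_max_right _ _) hm.aestronglyMeasurable]
    congr 1
    refine lintegral_congr fun x => ?_
    simp only [ψ]
    rw [ENNReal.ofReal_max]
    simp
  have h5 : (∫⁻ x, ψ N K x ∂μ).toReal ≤ ε := by
    have := (ENNReal.toReal_le_toReal hK.ne_top ENNReal.ofReal_ne_top).2 hK.le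
    rwa [ENNReal.toReal_ofReal hε.le] at this
  rw [integral_sub hig hif] at h3
  linarith

end Pool.Agent.PPR
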