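import Pool.Agent.PPR.Pos

/-!
# Pairs of exponential patterns
-/

set_option autoImplicit false

namespace Pool.Agent.PPR

open MeasureTheory ProbabilityTheory Filter Topology

lemma dens_pos_exists (U : Ultrafilter ℕ) {A : Set ℕ} (h : 0 < dens U A) :
    ∃ n, 0 < n ∧ n ∈ A := by
  by_contra hcon
  push Not at hcon
  have h1 : dens U A ≤ dens U (⋃ i : Fin 0, (fun _ => (∅ : Set ℕ)) i) :=
    dens_mono U fun n hn hA => absurd hA (hcon n hn)
  have h2 := dens_iUnion_le U (fun _ : Fin 0 => (∅ : Set ℕ))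
  simp only [Finset.univ_eq_empty, Finset.sum_empty] at h2
  linarith

/-- the test set attached to a set of positive density and two polynomials -/
def tst (U : Ultrafilter ℕ) (A : Set ℕ) (P Q : Polynomial ℕ) : Set ℕ :=
  {n | 2 ≤ n ∧ 0 < dens U {x | x * n ^ (P.eval n) ∈ A ∧ x * n ^ (Q.eval n) ∈ A}}

lemma exists_ultra (U : Ultrafilter ℕ) (hU : (U : Filter ℕ) ≤ atTop) :
    ∃ p : Ultrafilter ℕ, ∀ (A : Set ℕ) (P Q : Polynomial ℕ), 0 < dens U A → tst U A P Q ∈ p := by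
  obtain ⟨p, hp⟩ := Ultrafilter.exists_ultrafilter_of_finite_inter_nonempty
    {s : Set ℕ | ∃ (A : Set ℕ) (P Q : Polynomial ℕ), 0 < dens U A ∧ s = tst U A P Q} (by
      intro T hT
      have hT' : ∀ s : T, ∃ (A : Set ℕ) (P Q : Polynomial ℕ), 0 < dens U A ∧
          (s : Set ℕ) = tst U A P Q := fun s => hT s.2
      choose A P Q hA hs using hT'
      obtain ⟨n, hn, h⟩ := pos U hU (J := T.card)
        (fun j => A (T.equivFin.symm j)) (fun j => hA (T.equivFin.symm j))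
        (fun j => P (T.equivFin.symm j)) (fun j => Q (T.equivFin.symm j))
      refine ⟨n, ?_⟩
      rw [Set.mem_sInter]
      intro s hs'
      have h3 := h (T.equivFin ⟨s, hs'⟩)
      rw [Equiv.symm_apply_apply] at h3
      have h4 : s = tst U (A ⟨s, hs'⟩) (P ⟨s, hs'⟩) (Q ⟨s, hs'⟩) := hs ⟨s, hs'⟩
      rw [h4]
      exact ⟨hn, h3⟩)
  exact ⟨p, fun A P Q h => hp ⟨A, P, Q, h, rfl⟩⟩

/-- the limit colour -/
lemma exists_limColour (p : Ultrafilter ℕ) {r : ℕ} (f : ℕ → Fin r) :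
    ∃ i, {n | f n = i} ∈ p := by
  have h1 : (⋃ i ∈ (Set.univ : Set (Fin r)), {n | f n = i}) ∈ p := by
    have : (⋃ i ∈ (Set.univ : Set (Fin r)), {n | f n = i}) = Set.univ := by
      ext n; simp
    rw [this]; exact univ_mem
  rw [Ultrafilter.finite_biUnion_mem_iff Set.finite_univ] at h1
  obtain ⟨i, _, hi⟩ := h1
  exact ⟨i, hi⟩

theorem main (r : ℕ) (c : ℕ → Fin r) (S : Finset (Polynomial ℕ)) :
    ∃ m b : ℕ, 1 < m ∧ 1 < b ∧ ∀ P ∈ S, ∀ Q ∈ S, ∃ x : ℕ, 0 < x ∧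
      c ((m ^ x) ^ (b ^ (P.eval b))) = c b ∧ c ((m ^ x) ^ (b ^ (Q.eval b))) = c b := by
  classical
  obtain ⟨U, hU⟩ : ∃ U : Ultrafilter ℕ, (U : Filter ℕ) ≤ atTop :=
    Ultrafilter.exists_le atTop
  obtain ⟨p, hp⟩ := exists_ultra U hU
  choose χ hχ using fun s : ℕ => exists_limColour p (fun n => c (n ^ s))
  have h2 : {n : ℕ | 2 ≤ n} ∈ p := by
    refine mem_of_superset (hp Set.univ 0 0 ?_) fun n hn => hn.1
    rw [dens_univ]; exact one_pos
  -- a colour of positive density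
  obtain ⟨i, hi⟩ : ∃ i : Fin r, 0 < dens U {s | χ s = i} := by
    by_contra hcon
    push Not at hcon
    have h1 := dens_iUnion_le U (fun i : Fin r => {s | χ s = i})
    have h3 : (⋃ i : Fin r, {s | χ s = i}) = Set.univ := by ext s; simp
    rw [h3, dens_univ] at h1
    have h4 : ∑ i : Fin r, dens U {s | χ s = i} ≤ 0 :=
      Finset.sum_nonpos fun i _ => hcon i
    linarith
  obtain ⟨y, hy0, hy⟩ := dens_pos_exists U hi
  simp only [Set.mem_ofPred_eq] at hy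
  -- the base
  have hT : (⋂ P ∈ S, ⋂ Q ∈ S, tst U {s | χ s = i}
      (Polynomial.C y * P.comp (Polynomial.X ^ y)) (Polynomial.C y * Q.comp (Polynomial.X ^ y)))
      ∈ (p : Filter ℕ) := by
    rw [Filter.biInter_finset_mem]
    intro P _
    rw [Filter.biInter_finset_mem]
    intro Q _
    exact hp _ _ _ hi
  have h5 := Filter.inter_mem (Filter.inter_mem hT (hχ y)) h2
  obtain ⟨n, ⟨hn1, hn2⟩, hn3⟩ := p.nonempty_of_mem h5
  simp only [Set.mem_ofPred_eq] at hn2 hn3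
  have hb : 1 < n ^ y := Nat.one_lt_pow hy0.ne' (by omega)
  have h6 : ∀ P ∈ S, ∀ Q ∈ S, ∃ x : ℕ, 0 < x ∧ χ (x * (n ^ y) ^ (P.eval (n ^ y))) = i ∧
      χ (x * (n ^ y) ^ (Q.eval (n ^ y))) = i := by
    intro P hP Q hQ
    have h7 : n ∈ tst U {s | χ s = i} (Polynomial.C y * P.comp (Polynomial.X ^ y))
        (Polynomial.C y * Q.comp (Polynomial.X ^ y)) := by
      simp only [Set.mem_iInter] at hn1
      exact hn1 P hP Q hQ
    obtain ⟨x, hx0, hx1, hx2⟩ := dens_pos_exists U h7.2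
    simp only [Set.mem_ofPred_eq, Polynomial.eval_mul, Polynomial.eval_C, Polynomial.eval_comp,
      Polynomial.eval_pow, Polynomial.eval_X, pow_mul] at hx1 hx2
    exact ⟨x, hx0, hx1, hx2⟩
  choose! x hx0 hx1 hx2 using h6
  have h8 : (⋂ P ∈ S, ⋂ Q ∈ S,
      ({m | c (m ^ (x P Q * (n ^ y) ^ (P.eval (n ^ y)))) =
          χ (x P Q * (n ^ y) ^ (P.eval (n ^ y)))} ∩
        {m | c (m ^ (x P Q * (n ^ y) ^ (Q.eval (n ^ y)))) =
          χ (x P Q * (n ^ y) ^ (Q.eval (n ^ y)))})) ∈ (p : Filter ℕ) := by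
    rw [Filter.biInter_finset_mem]
    intro P _
    rw [Filter.biInter_finset_mem]
    intro Q _
    exact Filter.inter_mem (hχ _) (hχ _)
  obtain ⟨m, hm1, hm2⟩ := p.nonempty_of_mem (Filter.inter_mem h8 h2)
  simp only [Set.mem_ofPred_eq] at hm2
  refine ⟨m, n ^ y, by omega, hb, fun P hP Q hQ => ⟨x P Q, hx0 P hP Q hQ, ?_, ?_⟩⟩
  · simp only [Set.mem_iInter, Set.mem_inter_iff, Set.mem_ofPred_eq] at hm1
    rw [← pow_mul, (hm1 P hP Q hQ).1, hx1 P hP Q hQ, ← hy, hn2]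
  · simp only [Set.mem_iInter, Set.mem_inter_iff, Set.mem_ofPred_eq] at hm1
    rw [← pow_mul, (hm1 P hP Q hQ).2, hx2 P hP Q hQ, ← hy, hn2]

end Pool.Agent.PPR
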