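import Pool.Agent.PPR.Eq
import Pool.Agent.PPR.AV
import Pool.Agent.PPR.Fatou

/-!
# Lower bounds for products of conditional expectations
-/

set_option autoImplicit false

namespace Pool.Agent.PPR

open MeasureTheory ProbabilityTheory Filter Topology

variable {D : ℕ} {P : Measure (GQ D → Circle)} {V0 : Fin D → Submodule ℚ (ℕ →₀ ℚ)}
variable {κ : Kernel (VV D → Circle) (GQ D → Circle)}

lemma Tor.mul {z w : Circle} (hz : Tor z) (hw : Tor w) : Tor (z * w) := by
  obtain ⟨n, hn, h1⟩ := hz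
  obtain ⟨m, hm, h2⟩ := hw
  refine ⟨n * m, Nat.mul_pos hn hm, ?_⟩
  rw [mul_pow, pow_mul, h1, one_pow, mul_comm n m, pow_mul, h2, one_pow, one_mul]

lemma Tor.one : Tor 1 := ⟨1, one_pos, one_pow 1⟩

lemma Tor.prod {ι : Type*} (s : Finset ι) (f : ι → Circle) (h : ∀ i ∈ s, Tor (f i)) :
    Tor (∏ i ∈ s, f i) := by
  classical
  induction s using Finset.induction_on with
  | empty => simpa using Tor.one
  | insert a s ha ih =>
    rw [Finset.prod_insert ha]
    exact (h a (Finset.mem_insert_self a s)).mul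
      (ih fun i hi => h i (Finset.mem_insert_of_mem hi))

lemma Tor.of_pow {z : Circle} {n : ℕ} (hn : 0 < n) (h : Tor (z ^ n)) : Tor z := by
  obtain ⟨m, hm, h1⟩ := h
  exact ⟨n * m, Nat.mul_pos hn hm, by rw [pow_mul, h1]⟩

lemma Tor.pow {z : Circle} (h : Tor z) (n : ℕ) : Tor (z ^ n) := by
  obtain ⟨m, hm, h1⟩ := h
  exact ⟨m, hm, by rw [← pow_mul, mul_comm, pow_mul, h1, one_pow]⟩

lemma Tor.inv {z : Circle} (h : Tor z) : Tor z⁻¹ := by
  obtain ⟨m, hm, h1⟩ := h
  exact ⟨m, hm, by rw [inv_pow, h1, inv_one]⟩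

lemma measurableSet_tor : MeasurableSet {z : Circle | Tor z} := by
  have : {z : Circle | Tor z} = ⋃ n : ℕ, ⋃ _ : 0 < n, {z : Circle | z ^ n = 1} := by
    ext z; simp [Tor]
  rw [this]
  refine MeasurableSet.iUnion fun n => MeasurableSet.iUnion fun _ => ?_
  exact (isClosed_eq (continuous_pow n) continuous_const).measurableSet

/-- consequences of additivity on the whole group for one function -/
def HomAll {I : Type*} [AddCommGroup I] (u : I → Circle) : Prop := ∀ g h, u (g + h) = u g * u h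

section
variable {I : Type*} [AddCommGroup I] {u : I → Circle}

lemma HomAll.zero (h : HomAll u) : u 0 = 1 := by
  have := h 0 0
  rw [add_zero] at this
  exact (mul_eq_left.1 this.symm)

lemma HomAll.nsmul (h : HomAll u) (n : ℕ) (g : I) : u (n • g) = u g ^ n := by
  induction n with
  | zero => simp [h.zero]
  | succ n ih => rw [succ_nsmul, h, ih, pow_succ]

lemma HomAll.neg (h : HomAll u) (g : I) : u (-g) = (u g)⁻¹ := by
  have := h g (-g)
  rw [add_neg_cancel, h.zero] at this
  exact (inv_eq_of_mul_eq_one_right this.symm).symm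

lemma HomAll.sum (h : HomAll u) {ι : Type*} (s : Finset ι) (f : ι → I) :
    u (∑ i ∈ s, f i) = ∏ i ∈ s, u (f i) := by
  classical
  induction s using Finset.induction_on with
  | empty => simp [h.zero]
  | insert a s ha ih => rw [Finset.sum_insert ha, Finset.prod_insert ha, h, ih]

end

lemma homAll_ae (hP : LimLaw D P V0) : ∀ᵐ u ∂P, HomAll u := by
  have h : ∀ g h : GQ D, ∀ᵐ u ∂P, u (g + h) = u g * u h := hP.hom
  exact (ae_all_iff.2 fun g => ae_all_iff.2 fun h' => h g h')

lemma nsmul_adeg (d : Fin (D + 1)) (n : ℕ) (q : ℚ) :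
    n • (adeg d q : GQ D) = adeg d ((n : ℚ) * q) := by
  rw [adeg, adeg, ← Pi.single_smul]
  simp

lemma HomAll.zsmul {I : Type*} [AddCommGroup I] {u : I → Circle} (h : HomAll u) (n : ℤ) (g : I) :
    u (n • g) = u g ^ n := by
  cases n with
  | ofNat n => rw [Int.ofNat_eq_natCast, natCast_zsmul, h.nsmul, zpow_natCast]
  | negSucc n => rw [negSucc_zsmul, h.neg, h.nsmul, zpow_negSucc]

lemma Tor.zpow {z : Circle} (h : Tor z) (n : ℤ) : Tor (z ^ n) := by
  cases n with
  | ofNat n => rw [Int.ofNat_eq_natCast, zpow_natCast]; exact h.pow n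
  | negSucc n => rw [zpow_negSucc]; exact (h.pow _).inv

lemma zsmul_adeg (d : Fin (D + 1)) (n : ℤ) (q : ℚ) :
    n • (adeg d q : GQ D) = adeg d ((n : ℚ) * q) := by
  rw [adeg, adeg, ← Pi.single_smul]
  simp

/-- `adeg d` as a homomorphism -/
noncomputable def adegHom (d : Fin (D + 1)) : ℚ →+ GQ D :=
  { toFun := adeg d
    map_zero' := by simp [adeg]
    map_add' := adeg_add d }

lemma tor_adeg {u v : GQ D → Circle} (hu : HomAll u) (hv : HomAll v) (d : Fin (D + 1))
    (h : Tor (u (adeg d 1) * (v (adeg d 1))⁻¹)) (q : ℚ) :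
    Tor (u (adeg d q) * (v (adeg d q))⁻¹) := by
  refine Tor.of_pow (n := q.den) q.den_pos ?_
  have h1 : ∀ w : GQ D → Circle, HomAll w → w (adeg d q) ^ q.den = w (adeg d 1) ^ q.num := by
    intro w hw
    rw [← hw.nsmul, ← hw.zsmul, nsmul_adeg, zsmul_adeg, mul_one, mul_comm, Rat.mul_den_eq_num]
  rw [mul_pow, inv_pow, h1 u hu, h1 v hv, ← inv_zpow, ← mul_zpow]
  exact h.zpow _

/-- the coarse part of the zoom of `ones` -/
noncomputable def gk (k : ℕ) : GQ D := fun d => ((k : ℚ) ^ (d : ℕ), 0)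

lemma TT_ones (k : ℕ) : (TT k (ones : GQ D)) =
    gk k + wdeg 0 (fac k) + iV (fun i => ((k : ℚ) ^ ((i : ℕ) + 1)) • fac k) := by
  funext d
  refine Fin.cases ?_ (fun i => ?_) d
  · simp [TT, ones, gk, wdeg, iV]
  · simp [TT, ones, gk, wdeg, iV]

lemma gk_eq (k : ℕ) : (gk k : GQ D) = adeg 0 1 + ∑ i : Fin D, adeg i.succ ((k : ℚ) ^ ((i : ℕ) + 1)) := by
  funext d
  refine Fin.cases ?_ (fun i => ?_) d
  · simp [gk, adeg, Finset.sum_apply]
  · rw [Pi.add_apply, Finset.sum_apply, Finset.sum_eq_single i]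
    · simp [gk, adeg]
    · intro j _ hj
      have : (i.succ : Fin (D + 1)) ≠ j.succ := fun e => hj (Fin.succ_injective _ e).symm
      simp [adeg, Pi.single_eq_of_ne this]
    · simp

lemma gk_apply {u : GQ D → Circle} (hu : HomAll u) (k : ℕ) :
    u (gk k) = u (adeg 0 1) * ∏ i : Fin D, u (adeg i.succ 1) ^ (k ^ ((i : ℕ) + 1)) := by
  rw [gk_eq, hu, hu.sum]
  congr 1
  refine Finset.prod_congr rfl fun i _ => ?_
  rw [← hu.nsmul, nsmul_adeg]
  simp

lemma integral_FF (hP : LimLaw D P V0) (hκ : Disint P κ) (g : GQ D) :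
    ∫ x, FF κ g x ∂(P.map pi) = ∫ u, ((u g : Circle) : ℂ) ∂P := by
  have := hκ.markov
  have := hP.prob
  have hpi : Measurable (pi (D := D)) := measurable_pi'
  have : IsProbabilityMeasure (P.map pi) := Measure.isProbabilityMeasure_map hpi.aemeasurable
  have h1 : ((P.map pi) ⊗ₘ κ).snd = P := by rw [Measure.snd_compProd, hκ.bind]
  conv_rhs => rw [← h1]
  rw [Measure.snd, integral_map measurable_snd.aemeasurable
    (measurable_coord g).aestronglyMeasurable, Measure.integral_compProd]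
  · rfl
  · refine Integrable.of_bound (C := 1)
      ((measurable_coord g).comp measurable_snd).aestronglyMeasurable ?_
    exact Filter.Eventually.of_forall fun u => (Circle.norm_coe _).le
lemma sq_integral_le {Ω : Type*} [MeasurableSpace Ω] (μ : Measure Ω) [IsProbabilityMeasure μ]
    (f : Ω → ℝ) (hf : Measurable f) (B : ℝ) (hB : ∀ x, |f x| ≤ B) :
    (∫ x, f x ∂μ) ^ 2 ≤ ∫ x, f x ^ 2 ∂μ := by
  have hi : Integrable f μ := Integrable.of_bound (C := B) hf.aestronglyMeasurable
    (Filter.Eventually.of_forall hB)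
  have hi2 : Integrable (fun x => f x ^ 2) μ := by
    refine Integrable.of_bound (C := B ^ 2) (hf.pow_const 2).aestronglyMeasurable
      (Filter.Eventually.of_forall fun x => ?_)
    rw [Real.norm_eq_abs, abs_pow]
    exact pow_le_pow_left₀ (abs_nonneg _) (hB x) 2
  set c := ∫ x, f x ∂μ with hc
  have h0 : 0 ≤ ∫ x, (f x - c) ^ 2 ∂μ := integral_nonneg fun x => sq_nonneg _
  have h1 : ∫ x, (f x - c) ^ 2 ∂μ = (∫ x, f x ^ 2 ∂μ) - c ^ 2 := by
    have e : ∀ x, (f x - c) ^ 2 = f x ^ 2 + ((-2 * c) * f x + c ^ 2) := fun x => by ring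
    have hj1 : Integrable (fun x => (-2 * c) * f x) μ := hi.const_mul _
    have hj : Integrable (fun x => (-2 * c) * f x + c ^ 2) μ := hj1.add (integrable_const _)
    simp_rw [e]
    rw [integral_add hi2 hj, integral_add hj1 (integrable_const _), integral_const_mul, ← hc]
    simp
    ring
  linarith

theorem ker_pos (hP : LimLaw D P V0) (hκ : Disint P κ) (i : Fin D)
    (h : ∫ u, ((u ones : Circle) : ℂ) ∂P ≠ 0) :
    0 < ∫⁻ x, ∫⁻ v, κ x {u | Tor (u (adeg i.succ 1) * (v (adeg i.succ 1))⁻¹)} ∂(κ x)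
      ∂(P.map pi) := by
  have hM := hκ.markov
  have hPp := hP.prob
  have hpi : Measurable (pi (D := D)) := measurable_pi'
  have hQp : IsProbabilityMeasure (P.map pi) :=
    Measure.isProbabilityMeasure_map hpi.aemeasurable
  set Q := P.map pi with hQ
  set δ := ‖∫ u, ((u ones : Circle) : ℂ) ∂P‖ with hδ
  have hδ0 : 0 < δ := norm_pos_iff.2 h
  have h1 : ∀ k : ℕ, 0 < k → δ ^ 2 ≤ ∫ x, ‖FF κ (gk k) x‖ ^ 2 ∂Q := by
    intro k hk
    obtain ⟨z, hz⟩ := hP.zc (fac k)
    have e1 : ∫ u, ((u ones : Circle) : ℂ) ∂P = ∫ u, ((u (TT k ones) : Circle) : ℂ) ∂P := by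
      conv_lhs => rw [← hP.inv k hk]
      rw [integral_map (measurable_TU k).aemeasurable (measurable_coord _).aestronglyMeasurable]
      rfl
    have e2 : ∀ᵐ x ∂Q, ‖FF κ (TT k ones) x‖ = ‖FF κ (gk k) x‖ := by
      rw [TT_ones]
      filter_upwards [FF_add_iV hP hκ (gk k + wdeg 0 (fac k))
        (fun i => ((k : ℚ) ^ ((i : ℕ) + 1)) • fac k), ae_fib hκ hz,
        ae_fib hκ (homAll_ae hP)] with x a1 a2 a3
      rw [a1, norm_mul, Circle.norm_coe, one_mul]
      have : FF κ (gk k + wdeg 0 (fac k)) x = FF κ (gk k) x * (z : ℂ) := by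
        rw [FF, FF, ← integral_mul_const]
        refine integral_congr_ae ?_
        filter_upwards [a2, a3] with u b1 b2
        rw [b2, b1]
        rfl
      rw [this, norm_mul, Circle.norm_coe, mul_one]
    calc δ ^ 2 ≤ (∫ x, ‖FF κ (gk k) x‖ ∂Q) ^ 2 := by
          gcongr
          rw [hδ, e1, ← integral_FF hP hκ]
          refine (norm_integral_le_integral_norm _).trans ?_
          exact (integral_congr_ae e2).le
      _ ≤ ∫ x, ‖FF κ (gk k) x‖ ^ 2 ∂Q :=
          sq_integral_le Q _ (measurable_FF hκ _).norm 1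
            (fun x => by rw [abs_norm]; exact norm_FF_le hκ _ x)
  let M : Measure ((VV D → Circle) × ((GQ D → Circle) × (GQ D → Circle))) := Q ⊗ₘ (κ ×ₖ κ)
  let Y : Fin D → (VV D → Circle) × ((GQ D → Circle) × (GQ D → Circle)) → Circle :=
    fun i p => p.2.1 (adeg i.succ 1) * (p.2.2 (adeg i.succ 1))⁻¹
  let g₀ : (VV D → Circle) × ((GQ D → Circle) × (GQ D → Circle)) → ℂ :=
    fun p => ((p.2.1 (adeg 0 1) * (p.2.2 (adeg 0 1))⁻¹ : Circle) : ℂ)
  have hmY : ∀ g : GQ D, Measurable fun p : (VV D → Circle) × ((GQ D → Circle) × (GQ D → Circle)) =>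
      p.2.1 g * (p.2.2 g)⁻¹ := fun g =>
    ((measurable_pi_apply g).comp (measurable_fst.comp measurable_snd)).mul
      ((measurable_pi_apply g).comp (measurable_snd.comp measurable_snd)).inv
  have hY : ∀ i, Measurable (Y i) := fun i => hmY _
  have hcoe : Measurable fun z : Circle => (z : ℂ) := continuous_coeC.measurable
  have hg0m : Measurable g₀ := hcoe.comp (hmY _)
  have hg0 : Integrable g₀ M := Integrable.of_bound (C := 1) hg0m.aestronglyMeasurable
    (Filter.Eventually.of_forall fun p => (Circle.norm_coe _).le)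
  have h2 : ∀ k : ℕ, 0 < k →
      ∫ p, g₀ p * ((∏ i, Y i p ^ (k ^ ((i : ℕ) + 1)) : Circle) : ℂ) ∂M =
        ((∫ x, ‖FF κ (gk k) x‖ ^ 2 ∂Q : ℝ) : ℂ) := by
    intro k hk
    rw [Measure.integral_compProd]
    · refine Eq.trans ?_ (integral_ofReal (𝕜 := ℂ))
      refine integral_congr_ae ?_
      filter_upwards [ae_fib hκ (homAll_ae hP)] with x hx
      rw [Kernel.prod_apply]
      have e1 : ∀ᵐ q ∂((κ x).prod (κ x)), HomAll q.1 ∧ HomAll q.2 := by
        exact (Measure.quasiMeasurePreserving_fst.ae hx).and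
          (Measure.quasiMeasurePreserving_snd.ae hx)
      have e2 : ∫ q, g₀ (x, q) * ((∏ i, Y i (x, q) ^ (k ^ ((i : ℕ) + 1)) : Circle) : ℂ)
          ∂((κ x).prod (κ x)) =
          ∫ q, ((q.1 (gk k) : Circle) : ℂ) * (starRingEnd ℂ) ((q.2 (gk k) : Circle) : ℂ)
            ∂((κ x).prod (κ x)) := by
        refine integral_congr_ae ?_
        filter_upwards [e1] with q hq
        rw [gk_apply hq.1, gk_apply hq.2, ← Circle.coe_inv_eq_conj]
        simp only [g₀, Y]
        rw [← Circle.coe_mul, ← Circle.coe_mul]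
        congr 1
        rw [mul_inv, ← Finset.prod_inv_distrib]
        have : ∏ i : Fin D, (q.1 (adeg i.succ 1) * (q.2 (adeg i.succ 1))⁻¹) ^ (k ^ ((i : ℕ) + 1)) =
            (∏ i : Fin D, q.1 (adeg i.succ 1) ^ (k ^ ((i : ℕ) + 1))) *
            ∏ i : Fin D, (q.2 (adeg i.succ 1) ^ (k ^ ((i : ℕ) + 1)))⁻¹ := by
          rw [← Finset.prod_mul_distrib]
          refine Finset.prod_congr rfl fun i _ => ?_
          rw [mul_pow, inv_pow]
        rw [this]
        exact mul_mul_mul_comm _ _ _ _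
      rw [e2, integral_prod_mul (f := fun u : GQ D → Circle => ((u (gk k) : Circle) : ℂ))
        (g := fun u : GQ D → Circle => (starRingEnd ℂ) ((u (gk k) : Circle) : ℂ)), integral_conj]
      change FF κ (gk k) x * (starRingEnd ℂ) (FF κ (gk k) x) = _
      rw [Complex.mul_conj']
      norm_cast
    · have hm : Measurable fun p => g₀ p * ((∏ i, Y i p ^ (k ^ ((i : ℕ) + 1)) : Circle) : ℂ) :=
        hg0m.mul (hcoe.comp (Finset.measurable_fun_prod _ fun i _ => (hY i).pow_const _))
      refine Integrable.of_bound (C := 1) hm.aestronglyMeasurable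
        (Filter.Eventually.of_forall fun p => ?_)
      rw [norm_mul, Circle.norm_coe, Circle.norm_coe, one_mul]
  obtain ⟨N, hN⟩ := (avp M Y hY g₀ hg0 (δ ^ 2 / 2) (by positivity)).exists
  obtain ⟨K, hK⟩ := hN.exists
  have h3 : δ ^ 2 ≤ ‖((K : ℝ) + 1)⁻¹ • ∑ j ∈ Finset.range (K + 1),
      ∫ ω, g₀ ω * ((∏ i, Y i ω ^ ((N.factorial * (j + 1)) ^ ((i : ℕ) + 1)) : Circle) : ℂ) ∂M‖ := by
    have e1 : ∀ j ∈ Finset.range (K + 1),
        ∫ ω, g₀ ω * ((∏ i, Y i ω ^ ((N.factorial * (j + 1)) ^ ((i : ℕ) + 1)) : Circle) : ℂ) ∂M =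
        ((∫ x, ‖FF κ (gk (N.factorial * (j + 1))) x‖ ^ 2 ∂Q : ℝ) : ℂ) := fun j _ =>
      h2 _ (Nat.mul_pos (Nat.factorial_pos N) (Nat.succ_pos j))
    rw [Finset.sum_congr rfl e1, ← Complex.ofReal_sum, norm_smul, Complex.norm_real,
      Real.norm_eq_abs, Real.norm_eq_abs]
    have e2 : ((K : ℝ) + 1) * δ ^ 2 ≤ ∑ j ∈ Finset.range (K + 1),
        ∫ x, ‖FF κ (gk (N.factorial * (j + 1))) x‖ ^ 2 ∂Q := by
      calc ((K : ℝ) + 1) * δ ^ 2 = ∑ j ∈ Finset.range (K + 1), δ ^ 2 := by
            rw [Finset.sum_const, Finset.card_range, nsmul_eq_mul]; push_cast; ring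
        _ ≤ _ := Finset.sum_le_sum fun j _ =>
            h1 _ (Nat.mul_pos (Nat.factorial_pos N) (Nat.succ_pos j))
    have e3 : (0 : ℝ) < (K : ℝ) + 1 := by positivity
    rw [abs_of_pos (inv_pos.2 e3), abs_of_nonneg (le_trans (by positivity) e2)]
    rw [inv_mul_eq_div, le_div_iff₀ e3, mul_comm]
    exact e2
  have h4 : δ ^ 2 / 2 ≤ ‖∫ ω, Set.indicator {ω | ∀ i, Tor (Y i ω)} g₀ ω ∂M‖ := by
    have := norm_sub_norm_le (((K : ℝ) + 1)⁻¹ • ∑ j ∈ Finset.range (K + 1),
      ∫ ω, g₀ ω * ((∏ i, Y i ω ^ ((N.factorial * (j + 1)) ^ ((i : ℕ) + 1)) : Circle) : ℂ) ∂M)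
      (∫ ω, Set.indicator {ω | ∀ i, Tor (Y i ω)} g₀ ω ∂M)
    linarith
  have hS : MeasurableSet {p | Tor (Y i p)} := hY i measurableSet_tor
  have hS' : MeasurableSet {p | ∀ i, Tor (Y i p)} := by
    have : {p | ∀ i, Tor (Y i p)} = ⋂ i, {p | Tor (Y i p)} := by ext p; simp
    rw [this]
    exact MeasurableSet.iInter fun i => hY i measurableSet_tor
  have h5 : 0 < M {p | Tor (Y i p)} := by
    by_contra hcon
    have hz : M {p | Tor (Y i p)} = 0 := by simpa using hcon
    have hz' : M {p | ∀ i, Tor (Y i p)} = 0 := measure_mono_null (fun p hp => hp i) hz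
    rw [integral_indicator hS', Measure.restrict_eq_zero.2 hz', integral_zero_measure,
      norm_zero] at h4
    have : 0 < δ ^ 2 / 2 := by positivity
    linarith
  have h6 : M {p | Tor (Y i p)} = ∫⁻ x, ∫⁻ v,
      κ x {u | Tor (u (adeg i.succ 1) * (v (adeg i.succ 1))⁻¹)} ∂(κ x) ∂Q := by
    rw [Measure.compProd_apply hS]
    refine lintegral_congr fun x => ?_
    rw [Kernel.prod_apply, Measure.prod_apply_symm (measurable_prodMk_left hS)]
    rfl
  rw [← h6]
  exact h5


theorem ker_lower (hP : LimLaw D P V0) (hκ : Disint P κ) (i : Fin D)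
    (h : 0 < ∫⁻ x, ∫⁻ v, κ x {u | Tor (u (adeg i.succ 1) * (v (adeg i.succ 1))⁻¹)} ∂(κ x)
      ∂(P.map pi)) (s : ℕ) :
    ∃ θ : ℝ, 0 < θ ∧ ∀ q : Fin s → ℚ, ∑ j, q j = 0 →
      θ ≤ ‖∫ x, ∏ j, FF κ (adeg i.succ (q j)) x ∂(P.map pi)‖ := by
  have hM := hκ.markov
  have hPp := hP.prob
  have hpi : Measurable (pi (D := D)) := measurable_pi'
  have hQp : IsProbabilityMeasure (P.map pi) :=
    Measure.isProbabilityMeasure_map hpi.aemeasurable
  set Q := P.map pi with hQ
  have hcoe : Measurable fun z : Circle => (z : ℂ) := continuous_coeC.measurable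
  let a : ℚ → GQ D := fun q => adeg i.succ q
  have hmE : Measurable fun p : (GQ D → Circle) × (GQ D → Circle) => p.1 (a 1) * (p.2 (a 1))⁻¹ :=
    ((measurable_pi_apply _).comp measurable_fst).mul
      ((measurable_pi_apply _).comp measurable_snd).inv
  have htm : Measurable fun p : (VV D → Circle) × (GQ D → Circle) =>
      κ p.1 {u | Tor (u (a 1) * (p.2 (a 1))⁻¹)} := by
    have hmeas : MeasurableSet {q : ((VV D → Circle) × (GQ D → Circle)) × (GQ D → Circle) |
        Tor (q.2 (a 1) * (q.1.2 (a 1))⁻¹)} :=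
      (hmE.comp (measurable_snd.prodMk (measurable_snd.comp measurable_fst))) measurableSet_tor
    have := Kernel.measurable_kernel_prodMk_left
      (κ := κ.comap (Prod.fst : (VV D → Circle) × (GQ D → Circle) → _) measurable_fst) hmeas
    simpa [Kernel.comap_apply] using this
  let t : (VV D → Circle) → (GQ D → Circle) → ℝ := fun x v =>
    (κ x {u | Tor (u (a 1) * (v (a 1))⁻¹)}).toReal
  have ht0 : ∀ x v, 0 ≤ t x v := fun x v => ENNReal.toReal_nonneg
  have ht1 : ∀ x v, t x v ≤ 1 := fun x v => by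
    have : κ x {u | Tor (u (a 1) * (v (a 1))⁻¹)} ≤ 1 := prob_le_one
    exact ENNReal.toReal_mono ENNReal.one_ne_top this
  have htm' : Measurable fun p : (VV D → Circle) × (GQ D → Circle) => t p.1 p.2 ^ s :=
    htm.ennreal_toReal.pow_const s
  have hts : ∀ x v, |t x v ^ s| ≤ 1 := fun x v => by
    rw [abs_of_nonneg (pow_nonneg (ht0 x v) s)]
    exact pow_le_one₀ (ht0 x v) (ht1 x v)
  let θ : (VV D → Circle) → ℝ := fun x => ∫ v, t x v ^ s ∂(κ x)
  have hθm : Measurable θ :=
    (htm'.stronglyMeasurable.integral_kernel_prod_right' (κ := κ)).measurable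
  have hθ0 : ∀ x, 0 ≤ θ x := fun x => integral_nonneg fun v => pow_nonneg (ht0 x v) s
  have hθ1 : ∀ x, |θ x| ≤ 1 := fun x => by
    have : ‖∫ v, t x v ^ s ∂(κ x)‖ ≤ 1 * (κ x).real Set.univ :=
      norm_integral_le_of_norm_le_const (Filter.Eventually.of_forall (hts x))
    simpa using this
  have hθi : Integrable θ Q := Integrable.of_bound (C := 1) hθm.aestronglyMeasurable
    (Filter.Eventually.of_forall hθ1)
  have hti : ∀ x, Integrable (fun v => t x v ^ s) (κ x) := fun x =>
    Integrable.of_bound (C := 1) (htm'.comp measurable_prodMk_left).aestronglyMeasurable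
      (Filter.Eventually.of_forall (hts x))
  refine ⟨∫ x, θ x ∂Q, ?_, ?_⟩
  · refine lt_of_le_of_ne (integral_nonneg hθ0) fun h0 => ?_
    have h1 := (integral_eq_zero_iff_of_nonneg hθ0 hθi).1 h0.symm
    have h2 : ∫⁻ x, ∫⁻ v, κ x {u | Tor (u (a 1) * (v (a 1))⁻¹)} ∂(κ x) ∂Q = 0 := by
      rw [lintegral_eq_zero_iff' (htm.lintegral_kernel_prod_right' (κ := κ)).aemeasurable]
      filter_upwards [h1] with x hx
      have h3 := (integral_eq_zero_iff_of_nonneg (fun v => pow_nonneg (ht0 x v) s) (hti x)).1 hx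
      have hmx : Measurable fun v : GQ D → Circle => κ x {u | Tor (u (a 1) * (v (a 1))⁻¹)} :=
        htm.comp measurable_prodMk_left
      change ∫⁻ v, κ x {u | Tor (u (a 1) * (v (a 1))⁻¹)} ∂(κ x) = 0
      rw [lintegral_eq_zero_iff' hmx.aemeasurable]
      filter_upwards [h3] with v hv
      have h4 : t x v ^ s = 0 := hv
      have h5 : t x v = 0 := by
        rcases Nat.eq_zero_or_pos s with hs | hs
        · rw [hs, pow_zero] at h4
          exact absurd h4 one_ne_zero
        · exact pow_eq_zero_iff hs.ne' |>.1 h4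
      rcases (ENNReal.toReal_eq_zero_iff _).1 h5 with h6 | h6
      · exact h6
      · exact absurd h6 (measure_ne_top _ _)
    exact h.ne' h2
  · intro q hq
    set I := ∫ x, ∏ j, FF κ (adeg i.succ (q j)) x ∂Q with hI
    have hFFm : ∀ q' : Fin s → ℚ, Measurable fun x => ∏ j, FF κ (a (q' j)) x := fun q' =>
      Finset.measurable_fun_prod _ fun j _ => measurable_FF hκ _
    have hFFb : ∀ (q' : Fin s → ℚ) x, ‖∏ j, FF κ (a (q' j)) x‖ ≤ 1 := fun q' x => by
      rw [norm_prod]
      exact Finset.prod_le_one (fun j _ => norm_nonneg _) fun j _ => norm_FF_le hκ _ x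
    have hFFi : ∀ q' : Fin s → ℚ, Integrable (fun x => ∏ j, FF κ (a (q' j)) x) Q := fun q' =>
      Integrable.of_bound (C := 1) (hFFm q').aestronglyMeasurable
        (Filter.Eventually.of_forall (hFFb q'))
    -- invariance
    have h1 : ∀ m : ℕ, 0 < m →
        ∫ x, ∏ j, FF κ (a (q j * (m : ℚ) ^ ((i : ℕ) + 1))) x ∂Q = I := by
      intro m hm
      have hinv : Q.map (tau m) = Q := hP.fine.inv m hm
      have hI2 : I = ∫ x, ∏ j, FF κ (a (q j)) x ∂(Q.map (tau m)) := by rw [hinv]
      rw [hI2, integral_map (measurable_tau m).aemeasurable (hFFm q).aestronglyMeasurable]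
      refine integral_congr_ae ?_
      have hcoc : ∀ᵐ x ∂Q, ∀ j, FF κ (adeg i.succ (q j)) (tau m x) =
          ((x (Pi.single i ((q j * (m : ℚ) ^ ((i : ℕ) + 1)) • fac m)) : Circle) : ℂ) *
            FF κ (adeg i.succ (q j * (m : ℚ) ^ ((i : ℕ) + 1))) x :=
        ae_all_iff.2 fun j => FF_coc hP hκ i (q j) m hm
      have hhom : ∀ᵐ x ∂Q, HomAll x :=
        (ae_all_iff.2 fun g => ae_all_iff.2 fun h' => hP.fine.hom g h')
      filter_upwards [hcoc, hhom] with x hx hx2
      have e1 : ∏ j, ((x (Pi.single i ((q j * (m : ℚ) ^ ((i : ℕ) + 1)) • fac m)) : Circle) : ℂ)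
          = 1 := by
        have h7 : ∏ j, x (Pi.single i ((q j * (m : ℚ) ^ ((i : ℕ) + 1)) • fac m)) = 1 := by
          have h8 : ∑ j, (Pi.single i ((q j * (m : ℚ) ^ ((i : ℕ) + 1)) • fac m) : VV D) =
              Pi.single i (∑ j, (q j * (m : ℚ) ^ ((i : ℕ) + 1)) • fac m) :=
            (map_sum (AddMonoidHom.single (fun _ : Fin D => ℕ →₀ ℚ) i) _ _).symm
          rw [← hx2.sum, h8, ← Finset.sum_smul, ← Finset.sum_mul, hq, zero_mul,
            zero_smul, Pi.single_zero, hx2.zero]
        have h9 := congrArg Circle.coeHom h7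
        rw [map_prod, map_one] at h9
        exact h9
      change ∏ j, FF κ (a (q j * (m : ℚ) ^ ((i : ℕ) + 1))) x =
        ∏ j, FF κ (adeg i.succ (q j)) (tau m x)
      rw [Finset.prod_congr rfl fun j _ => hx j, Finset.prod_mul_distrib, e1, one_mul]
    let f : ℕ → ℕ → (VV D → Circle) → ℝ := fun N K x =>
      (((K : ℝ) + 1)⁻¹ • ∑ l ∈ Finset.range (K + 1),
        ∏ j, FF κ (a (q j * ((N.factorial * (l + 1) : ℕ) : ℚ) ^ ((i : ℕ) + 1))) x).re
    have hfm : ∀ N K, Measurable (f N K) := fun N K => by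
      have e1 : Measurable fun x => ∑ l ∈ Finset.range (K + 1),
          ∏ j, FF κ (a (q j * ((N.factorial * (l + 1) : ℕ) : ℚ) ^ ((i : ℕ) + 1))) x :=
        Finset.measurable_fun_sum _ fun l _ => hFFm _
      exact Complex.measurable_re.comp (e1.const_smul (((K : ℝ) + 1)⁻¹))
    have hfB : ∀ N K x, |f N K x| ≤ 1 := fun N K x => by
      refine (Complex.abs_re_le_norm _).trans ?_
      have e3 : (0 : ℝ) < (K : ℝ) + 1 := by positivity
      rw [norm_smul, Real.norm_eq_abs, abs_of_pos (inv_pos.2 e3), inv_mul_eq_div,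
        div_le_one e3]
      refine (norm_sum_le _ _).trans ?_
      refine (Finset.sum_le_sum fun l _ => hFFb _ x).trans ?_
      simp
    have hfI : ∀ N K, ∫ x, f N K x ∂Q = I.re := fun N K => by
      have e1 : ∫ x, (((K : ℝ) + 1)⁻¹ • ∑ l ∈ Finset.range (K + 1),
          ∏ j, FF κ (a (q j * ((N.factorial * (l + 1) : ℕ) : ℚ) ^ ((i : ℕ) + 1))) x) ∂Q = I := by
        rw [integral_smul, integral_finsetSum _ fun l _ => hFFi _]
        rw [Finset.sum_congr rfl fun l _ =>
          h1 (N.factorial * (l + 1)) (Nat.mul_pos (Nat.factorial_pos N) (Nat.succ_pos l))]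
        rw [Finset.sum_const, Finset.card_range, ← Nat.cast_smul_eq_nsmul ℝ, smul_smul]
        push_cast
        rw [inv_mul_cancel₀ (by positivity), one_smul]
      have e2 : Integrable (fun x => (((K : ℝ) + 1)⁻¹ • ∑ l ∈ Finset.range (K + 1),
          ∏ j, FF κ (a (q j * ((N.factorial * (l + 1) : ℕ) : ℚ) ^ ((i : ℕ) + 1))) x)) Q := by
        have e4 : Integrable (fun x => ∑ l ∈ Finset.range (K + 1),
            ∏ j, FF κ (a (q j * ((N.factorial * (l + 1) : ℕ) : ℚ) ^ ((i : ℕ) + 1))) x) Q :=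
          integrable_finsetSum _ fun l _ => hFFi _
        exact e4.smul (((K : ℝ) + 1)⁻¹)
      have e3 := integral_re e2
      rw [e1] at e3
      exact e3
    have hpt : ∀ᵐ x ∂Q, ∀ ε : ℝ, 0 < ε → ∀ᶠ N in atTop, ∀ᶠ K in atTop, θ x - ε ≤ f N K x := by
      filter_upwards [ae_fib hκ (homAll_ae hP)] with x hx ε hε
      let μ : Measure (Fin s → GQ D → Circle) := Measure.pi fun _ => κ x
      have hμhom : ∀ᵐ ω ∂μ, ∀ j, HomAll (ω j) :=
        ae_all_iff.2 fun j => (Measure.tendsto_eval_ae_ae (μ := fun _ : Fin s => κ x)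
          (i := j)).eventually hx
      let Dd : (Fin s → GQ D → Circle) → Circle := fun ω => ∏ j, ω j (a (q j))
      have hDm : Measurable Dd := Finset.measurable_fun_prod _ fun j _ =>
        (measurable_pi_apply _).comp (measurable_pi_apply j)
      let Y : Fin D → (Fin s → GQ D → Circle) → Circle := fun i' ω => if i' = i then Dd ω else 1
      have hYm : ∀ i', Measurable (Y i') := fun i' => by
        by_cases hi : i' = i
        · simpa [Y, hi] using hDm
        · simp [Y, hi]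
      have hYp : ∀ (ω : Fin s → GQ D → Circle) (m : ℕ),
          ∏ i', Y i' ω ^ (m ^ ((i' : ℕ) + 1)) = Dd ω ^ (m ^ ((i : ℕ) + 1)) := by
        intro ω m
        rw [Finset.prod_eq_single i]
        · simp [Y]
        · intro i' _ hi
          simp [Y, hi]
        · simp
      have hprod : ∀ m : ℕ, ∫ ω, (1 : ℂ) * ((∏ i', Y i' ω ^ (m ^ ((i' : ℕ) + 1)) : Circle) : ℂ) ∂μ =
          ∏ j, FF κ (a (q j * (m : ℚ) ^ ((i : ℕ) + 1))) x := by
        intro m
        have e1 := integral_fintype_prod_eq_prod (ι := Fin s) (𝕜 := ℂ)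
          (E := fun _ => GQ D → Circle)
          (fun j (u : GQ D → Circle) => ((u (a (q j * (m : ℚ) ^ ((i : ℕ) + 1))) : Circle) : ℂ))
          (μ := fun _ => κ x)
        refine Eq.trans ?_ e1
        refine integral_congr_ae ?_
        filter_upwards [hμhom] with ω hω
        rw [hYp, one_mul]
        have e2 : Dd ω ^ (m ^ ((i : ℕ) + 1)) =
            ∏ j, ω j (a (q j * (m : ℚ) ^ ((i : ℕ) + 1))) := by
          change (∏ j, ω j (a (q j))) ^ (m ^ ((i : ℕ) + 1)) = _
          rw [← Finset.prod_pow]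
          refine Finset.prod_congr rfl fun j _ => ?_
          rw [← (hω j).nsmul, nsmul_adeg]
          push_cast
          rw [mul_comm]
        rw [e2]
        have h9 := map_prod Circle.coeHom
          (fun j => ω j (a (q j * (m : ℚ) ^ ((i : ℕ) + 1)))) Finset.univ
        exact h9
      have hlow : θ x ≤ μ.real {ω | ∀ i', Tor (Y i' ω)} := by
        have hle : ∀ᵐ v ∂(κ x), t x v ^ s ≤ μ.real {ω | ∀ i', Tor (Y i' ω)} := by
          filter_upwards [hx] with v hv
          have e1 : μ (Set.univ.pi fun _ => {u | Tor (u (a 1) * (v (a 1))⁻¹)}) =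
              (κ x {u | Tor (u (a 1) * (v (a 1))⁻¹)}) ^ s := by
            rw [Measure.pi_pi]
            simp
          have e2 : μ (Set.univ.pi fun _ => {u | Tor (u (a 1) * (v (a 1))⁻¹)}) ≤
              μ {ω | ∀ i', Tor (Y i' ω)} := by
            refine measure_mono_ae ?_
            filter_upwards [hμhom] with ω hω hmem i'
            by_cases hi : i' = i
            · have e3 : Dd ω = ∏ j, (ω j (a (q j)) * (v (a (q j)))⁻¹) := by
                rw [Finset.prod_mul_distrib, Finset.prod_inv_distrib, ← hv.sum]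
                have e4 : ∑ j, a (q j) = 0 := by
                  have h8 := map_sum (adegHom (D := D) i.succ) q Finset.univ
                  rw [hq, map_zero] at h8
                  exact h8.symm
                rw [e4, hv.zero, inv_one, mul_one]
              have e5 : Y i' ω = Dd ω := by simp [Y, hi]
              rw [e5, e3]
              refine Tor.prod _ _ fun j _ => ?_
              exact tor_adeg (hω j) hv i.succ (hmem j (Set.mem_univ j)) (q j)
            · have e5 : Y i' ω = 1 := by simp [Y, hi]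
              rw [e5]
              exact Tor.one
          rw [e1] at e2
          have e6 := ENNReal.toReal_mono (measure_ne_top _ _) e2
          rw [ENNReal.toReal_pow] at e6
          exact e6
        have e7 := integral_mono_ae (hti x) (integrable_const _) hle
        simpa using e7
      have hav := avp μ Y hYm (fun _ => (1 : ℂ)) (integrable_const _) ε hε
      filter_upwards [hav] with N hN
      filter_upwards [hN] with K hK
      have e8 : ∫ ω, Set.indicator {ω | ∀ i, Tor (Y i ω)} (fun _ => (1 : ℂ)) ω ∂μ =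
          ((μ.real {ω | ∀ i', Tor (Y i' ω)} : ℝ) : ℂ) := by
        have hS' : MeasurableSet {p | ∀ i, Tor (Y i p)} := by
          have : {p | ∀ i, Tor (Y i p)} = ⋂ i, {p | Tor (Y i p)} := by ext p; simp
          rw [this]
          exact MeasurableSet.iInter fun i => hYm i measurableSet_tor
        rw [integral_indicator hS', integral_const]
        simp
      rw [e8, Finset.sum_congr rfl fun l _ => hprod (N.factorial * (l + 1))] at hK
      have e9 := (Complex.abs_re_le_norm _).trans hK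
      rw [Complex.sub_re, Complex.ofReal_re] at e9
      have e10 := (abs_le.1 e9).1
      change θ x - ε ≤ (((K : ℝ) + 1)⁻¹ • ∑ l ∈ Finset.range (K + 1),
        ∏ j, FF κ (a (q j * ((N.factorial * (l + 1) : ℕ) : ℚ) ^ ((i : ℕ) + 1))) x).re
      linarith
    have hfin : ∫ x, θ x ∂Q ≤ I.re := by
      refine le_of_forall_pos_le_add fun ε hε => ?_
      obtain ⟨N, hN⟩ := (nested_fatou Q f hfm θ hθm 1 hfB hθ1 hpt ε hε).exists
      obtain ⟨K, hK⟩ := hN.exists
      rw [hfI] at hK
      linarith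
    exact hfin.trans ((le_abs_self _).trans (Complex.abs_re_le_norm _))

end Pool.Agent.PPR
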