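import Pool.Agent.PPR.Defs

/-!
# Weyl's theorem for points of the circle
-/

set_option autoImplicit false

namespace Pool.Agent.PPR

open MeasureTheory ProbabilityTheory Filter Topology

/-- the partial sums are `o(N)` -/
def Sm (u : ℕ → ℂ) : Prop :=
  ∀ ε : ℝ, 0 < ε → ∀ᶠ N : ℕ in atTop, ‖∑ n ∈ Finset.range N, u n‖ ≤ ε * N

lemma shift_le (u : ℕ → ℂ) (hu : ∀ n, ‖u n‖ ≤ 1) (a N : ℕ) :
    ‖∑ n ∈ Finset.range N, u (n + a) - ∑ n ∈ Finset.range N, u n‖ ≤ 2 * a := by
  induction a with
  | zero => simp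
  | succ a ih =>
    have h1 : ∑ n ∈ Finset.range N, u (n + (a + 1)) - ∑ n ∈ Finset.range N, u (n + a) =
        u (N + a) - u a := by
      rw [← Finset.sum_sub_distrib]
      have h2 := Finset.sum_range_sub (fun n => u (n + a)) N
      simp only [zero_add] at h2
      rw [← h2]
      refine Finset.sum_congr rfl fun n _ => ?_
      rw [show n + (a + 1) = n + 1 + a by ring]
    have h3 : ‖u (N + a) - u a‖ ≤ 2 := by
      refine (norm_sub_le _ _).trans ?_
      have := hu (N + a)
      have := hu a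
      linarith
    have h4 : ∑ n ∈ Finset.range N, u (n + (a + 1)) - ∑ n ∈ Finset.range N, u n =
        (u (N + a) - u a) + (∑ n ∈ Finset.range N, u (n + a) - ∑ n ∈ Finset.range N, u n) := by
      rw [← h1]
      ring
    rw [h4]
    refine (norm_add_le _ _).trans ?_
    push_cast
    linarith

lemma Sm.shift {u : ℕ → ℂ} (hu : ∀ n, ‖u n‖ ≤ 1) (h : Sm u) (a : ℕ) :
    Sm (fun n => u (n + a)) := by
  intro ε hε
  have h1 := h (ε / 2) (by positivity)
  have h2 : ∀ᶠ N : ℕ in atTop, 2 * (a : ℝ) ≤ ε / 2 * N := by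
    have h3 : Tendsto (fun N : ℕ => ε / 2 * (N : ℝ)) atTop atTop :=
      tendsto_natCast_atTop_atTop.const_mul_atTop (by positivity)
    exact h3.eventually_ge_atTop _
  filter_upwards [h1, h2] with N h3 h4
  have h5 := shift_le u hu a N
  have h6 : ‖∑ n ∈ Finset.range N, u (n + a)‖ ≤
      ‖∑ n ∈ Finset.range N, u (n + a) - ∑ n ∈ Finset.range N, u n‖ +
        ‖∑ n ∈ Finset.range N, u n‖ := by
    refine le_trans (le_of_eq ?_) (norm_add_le _ _)
    congr 1
    ring
  linarith

/-- the correlations of the shifts are `o(N)` -/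
lemma corr {u : ℕ → ℂ} (hu : ∀ n, ‖u n‖ ≤ 1)
    (h : ∀ k : ℕ, 1 ≤ k → Sm (fun n => u (n + k) * (starRingEnd ℂ) (u n))) {a b : ℕ}
    (hab : a ≠ b) : Sm (fun n => u (n + a) * (starRingEnd ℂ) (u (n + b))) := by
  have hb : ∀ k n, ‖u (n + k) * (starRingEnd ℂ) (u n)‖ ≤ 1 := by
    intro k n
    rw [norm_mul, RCLike.norm_conj]
    exact mul_le_one₀ (hu _) (norm_nonneg _) (hu _)
  rcases lt_or_gt_of_ne hab with h1 | h1
  · obtain ⟨k, rfl⟩ := Nat.exists_eq_add_of_lt h1
    have h2 := (h (k + 1) (by omega)).shift (hb _) a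
    intro ε hε
    filter_upwards [h2 ε hε] with N h3
    rw [← RCLike.norm_conj, map_sum]
    refine le_trans (le_of_eq ?_) h3
    congr 1
    refine Finset.sum_congr rfl fun n _ => ?_
    rw [map_mul, RCLike.conj_conj, mul_comm, show n + (a + k + 1) = n + a + (k + 1) by ring]
  · obtain ⟨k, rfl⟩ := Nat.exists_eq_add_of_lt h1
    have h2 := (h (k + 1) (by omega)).shift (hb _) b
    intro ε hε
    filter_upwards [h2 ε hε] with N h3
    refine le_trans (le_of_eq ?_) h3
    congr 1
    refine Finset.sum_congr rfl fun n _ => ?_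
    rw [show n + (b + k + 1) = n + b + (k + 1) by ring]

/-- van der Corput's lemma -/
lemma vdc {u : ℕ → ℂ} (hu : ∀ n, ‖u n‖ ≤ 1)
    (h : ∀ k : ℕ, 1 ≤ k → Sm (fun n => u (n + k) * (starRingEnd ℂ) (u n))) : Sm u := by
  intro ε hε
  obtain ⟨H, hH⟩ := exists_nat_gt (8 / ε ^ 2)
  have hH0 : (0 : ℝ) < H := lt_trans (by positivity) hH
  -- off-diagonal correlations
  have h1 : ∀ᶠ N : ℕ in atTop, ∀ a ∈ Finset.range H, ∀ b ∈ Finset.range H, a ≠ b →
      ‖∑ n ∈ Finset.range N, u (n + a) * (starRingEnd ℂ) (u (n + b))‖ ≤ ε ^ 2 / 8 * N := by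
    rw [Filter.eventually_all_finset]
    intro a _
    rw [Filter.eventually_all_finset]
    intro b _
    by_cases hab : a = b
    · simp [hab]
    · filter_upwards [corr hu h hab (ε ^ 2 / 8) (by positivity)] with N hN _
      exact hN
  have h2 : ∀ᶠ N : ℕ in atTop, 2 * (H : ℝ) ≤ ε / 2 * N := by
    have h3 : Tendsto (fun N : ℕ => ε / 2 * (N : ℝ)) atTop atTop :=
      tendsto_natCast_atTop_atTop.const_mul_atTop (by positivity)
    exact h3.eventually_ge_atTop _
  filter_upwards [h1, h2] with N h3 h4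
  have hN0 : (0 : ℝ) ≤ N := Nat.cast_nonneg N
  set S := ∑ n ∈ Finset.range N, u n with hS
  set T := ∑ n ∈ Finset.range N, ∑ a ∈ Finset.range H, u (n + a) with hT
  -- `H S` is close to `T`
  have h5 : ‖T - (H : ℂ) * S‖ ≤ H * (2 * H) := by
    have h6 : T - (H : ℂ) * S = ∑ a ∈ Finset.range H,
        (∑ n ∈ Finset.range N, u (n + a) - ∑ n ∈ Finset.range N, u n) := by
      rw [Finset.sum_sub_distrib, Finset.sum_const, Finset.card_range, nsmul_eq_mul, hT,
        Finset.sum_comm]
    rw [h6]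
    refine (norm_sum_le _ _).trans ?_
    refine (Finset.sum_le_sum (g := fun _ => 2 * (H : ℝ)) fun a ha => ?_).trans ?_
    · refine (shift_le u hu a N).trans ?_
      have : (a : ℝ) ≤ H := by exact_mod_cast (Finset.mem_range.1 ha).le
      linarith
    · rw [Finset.sum_const, Finset.card_range, nsmul_eq_mul]
  -- the square of `T`
  have h7 : ‖T‖ ^ 2 ≤ N * ∑ n ∈ Finset.range N, ‖∑ a ∈ Finset.range H, u (n + a)‖ ^ 2 := by
    have h8 : ‖T‖ ≤ ∑ n ∈ Finset.range N, ‖∑ a ∈ Finset.range H, u (n + a)‖ := norm_sum_le _ _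
    have h9 := sq_sum_le_card_mul_sum_sq (s := Finset.range N)
      (f := fun n => ‖∑ a ∈ Finset.range H, u (n + a)‖)
    rw [Finset.card_range] at h9
    refine le_trans ?_ h9
    gcongr
  have h8 : ∑ n ∈ Finset.range N, ‖∑ a ∈ Finset.range H, u (n + a)‖ ^ 2 ≤
      (H : ℝ) * N + H ^ 2 * (ε ^ 2 / 8 * N) := by
    have h9 : ((∑ n ∈ Finset.range N, ‖∑ a ∈ Finset.range H, u (n + a)‖ ^ 2 : ℝ) : ℂ) =
        ∑ a ∈ Finset.range H, ∑ b ∈ Finset.range H,
          ∑ n ∈ Finset.range N, u (n + a) * (starRingEnd ℂ) (u (n + b)) := by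
      push_cast
      have h10 : ∀ n, ((‖∑ a ∈ Finset.range H, u (n + a)‖ : ℝ) : ℂ) ^ 2 =
          ∑ a ∈ Finset.range H, ∑ b ∈ Finset.range H, u (n + a) * (starRingEnd ℂ) (u (n + b)) := by
        intro n
        rw [← Complex.mul_conj', map_sum, Finset.sum_mul_sum]
      simp only [h10]
      rw [Finset.sum_comm]
      refine Finset.sum_congr rfl fun a _ => ?_
      rw [Finset.sum_comm]
    have h11 : ∑ n ∈ Finset.range N, ‖∑ a ∈ Finset.range H, u (n + a)‖ ^ 2 ≤
        ‖((∑ n ∈ Finset.range N, ‖∑ a ∈ Finset.range H, u (n + a)‖ ^ 2 : ℝ) : ℂ)‖ := by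
      rw [Complex.norm_real]
      exact le_abs_self _
    refine h11.trans ?_
    rw [h9]
    refine (norm_sum_le _ _).trans ?_
    have h12 : ∀ a ∈ Finset.range H, ‖∑ b ∈ Finset.range H,
        ∑ n ∈ Finset.range N, u (n + a) * (starRingEnd ℂ) (u (n + b))‖ ≤
        N + H * (ε ^ 2 / 8 * N) := by
      intro a ha
      refine (norm_sum_le _ _).trans ?_
      refine (Finset.sum_le_sum (g := fun b => (if b = a then (N : ℝ) else 0) + ε ^ 2 / 8 * N)
        fun b hb => ?_).trans ?_
      · by_cases hab : b = a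
        · rw [if_pos hab, hab]
          refine ((norm_sum_le _ _).trans (Finset.sum_le_sum (g := fun _ => (1 : ℝ))
            fun n _ => ?_)).trans ?_
          · rw [norm_mul, RCLike.norm_conj]
            exact mul_le_one₀ (hu _) (norm_nonneg _) (hu _)
          · rw [Finset.sum_const, Finset.card_range, nsmul_eq_mul, mul_one]
            have : 0 ≤ ε ^ 2 / 8 * N := by positivity
            linarith
        · rw [if_neg hab, zero_add]
          exact h3 a ha b hb fun e => hab e.symm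
      · rw [Finset.sum_add_distrib, Finset.sum_ite_eq' (Finset.range H) a, if_pos ha,
          Finset.sum_const, Finset.card_range, nsmul_eq_mul]
    refine (Finset.sum_le_sum h12).trans ?_
    rw [Finset.sum_const, Finset.card_range, nsmul_eq_mul]
    apply le_of_eq
    ring
  -- conclusion
  have h9 : ‖T‖ ^ 2 ≤ (H * (ε / 2 * N)) ^ 2 := by
    refine h7.trans ?_
    have h10 : (N : ℝ) * ∑ n ∈ Finset.range N, ‖∑ a ∈ Finset.range H, u (n + a)‖ ^ 2 ≤
        N * ((H : ℝ) * N + H ^ 2 * (ε ^ 2 / 8 * N)) := by gcongr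
    refine h10.trans ?_
    have h11 : (H : ℝ) ≤ H ^ 2 * (ε ^ 2 / 8) := by
      have h12 : 1 ≤ H * (ε ^ 2 / 8) := by
        have := (div_lt_iff₀ (by positivity : (0 : ℝ) < ε ^ 2)).1 hH
        linarith
      nlinarith
    have h12 : 0 ≤ (N : ℝ) ^ 2 := by positivity
    nlinarith
  have h10 : ‖T‖ ≤ H * (ε / 2 * N) := by
    have h11 : 0 ≤ H * (ε / 2 * N) := by positivity
    exact (le_abs_self _).trans (abs_le_of_sq_le_sq h9 h11)
  have h11 : (H : ℝ) * ‖S‖ ≤ H * (ε * N) := by
    have h12 : (H : ℝ) * ‖S‖ = ‖(H : ℂ) * S‖ := by rw [norm_mul, Complex.norm_natCast]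
    have h13 : ‖(H : ℂ) * S‖ ≤ ‖T‖ + ‖T - (H : ℂ) * S‖ := by
      have : (H : ℂ) * S = T - (T - (H : ℂ) * S) := by ring
      rw [this]
      refine (norm_sub_le _ _).trans (le_of_eq ?_)
      congr 2
      ring
    rw [h12]
    refine h13.trans ?_
    have h14 : (H : ℝ) * (2 * H) ≤ H * (ε / 2 * N) := by gcongr
    linarith
  exact le_of_mul_le_mul_left h11 hH0

/-- The iterated differences of order `d` are the constants `ζ ^ (h₁ ⋯ h_d)`. -/
def W : ℕ → Circle → (ℕ → Circle) → Prop
  | 0, ζ, u => ∀ n, u n = ζ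
  | d + 1, ζ, u => ∀ h : ℕ, W d (ζ ^ h) (fun n => u (n + h) / u n)

lemma W.mul {d : ℕ} {ζ ζ' : Circle} {u u' : ℕ → Circle} (h : W d ζ u) (h' : W d ζ' u') :
    W d (ζ * ζ') (fun n => u n * u' n) := by
  induction d generalizing ζ ζ' u u' with
  | zero => intro n; change u n * u' n = _; rw [h n, h' n]
  | succ d ih =>
    intro k
    have h1 := ih (h k) (h' k)
    have h2 : (fun n => u (n + k) * u' (n + k) / (u n * u' n)) =
        fun n => u (n + k) / u n * (u' (n + k) / u' n) := by
      funext n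
      rw [div_mul_div_comm]
    rw [mul_pow]
    change W d _ (fun n => u (n + k) * u' (n + k) / (u n * u' n))
    rw [h2]
    exact h1

lemma W.one (d : ℕ) : W d 1 (fun _ => 1) := by
  induction d with
  | zero => intro n; rfl
  | succ d ih =>
    intro k
    rw [one_pow]
    simpa using ih

lemma W.lift {d : ℕ} {ζ : Circle} {u : ℕ → Circle} (h : W d ζ u) : W (d + 1) 1 u := by
  induction d generalizing ζ u with
  | zero =>
    intro k n
    simp only [one_pow]
    rw [h n, h (n + k), div_self']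
  | succ d ih =>
    intro k
    rw [one_pow]
    exact ih (h k)

lemma W.lift_lt {d e : ℕ} (hde : d < e) {ζ : Circle} {u : ℕ → Circle} (h : W d ζ u) :
    W e 1 u := by
  obtain ⟨k, rfl⟩ := Nat.exists_eq_add_of_lt hde
  induction k with
  | zero => exact h.lift
  | succ k ih => exact (ih (by omega)).lift

lemma W.prod {ι : Type*} (s : Finset ι) {d : ℕ} {ζ : ι → Circle} {u : ι → ℕ → Circle}
    (h : ∀ i ∈ s, W d (ζ i) (u i)) : W d (∏ i ∈ s, ζ i) (fun n => ∏ i ∈ s, u i n) := by
  classical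
  induction s using Finset.induction_on with
  | empty => simpa using W.one d
  | insert i s hi ih =>
    simp only [Finset.prod_insert hi]
    exact (h i (Finset.mem_insert_self _ _)).mul
      (ih fun j hj => h j (Finset.mem_insert_of_mem hj))

lemma W.mon (d c : ℕ) (z : Circle) : W d (z ^ d.factorial) (fun n => z ^ ((n + c) ^ d)) := by
  induction d using Nat.strong_induction_on generalizing c z with
  | _ d ih =>
    rcases d with _ | d
    · intro n
      simp
    · intro k
      have h1 : (fun n => z ^ ((n + k + c) ^ (d + 1)) / z ^ ((n + c) ^ (d + 1))) =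
          fun n => (∏ i ∈ Finset.range d, (z ^ (k ^ (d + 1 - i) * (d + 1).choose i)) ^
            ((n + c) ^ i)) * (z ^ (k * (d + 1))) ^ ((n + c) ^ d) := by
        funext n
        rw [div_eq_iff_eq_mul]
        have h2 : (n + k + c) ^ (d + 1) = (∑ i ∈ Finset.range d,
            (k ^ (d + 1 - i) * (d + 1).choose i) * (n + c) ^ i) +
            (k * (d + 1)) * (n + c) ^ d + (n + c) ^ (d + 1) := by
          rw [show n + k + c = (n + c) + k by ring, add_pow, Finset.sum_range_succ,
            Finset.sum_range_succ]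
          congr 1
          · congr 1
            · refine Finset.sum_congr rfl fun i _ => ?_
              simp only [Nat.cast_id]
              ring
            · have h3 : d + 1 - d = 1 := by omega
              rw [h3, Nat.choose_succ_self_right]
              simp only [Nat.cast_id]
              ring
          · simp
        rw [h2, pow_add, pow_add, ← Finset.prod_pow_eq_pow_sum]
        simp only [← pow_mul]
      change W d _ (fun n => z ^ ((n + k + c) ^ (d + 1)) / z ^ ((n + c) ^ (d + 1)))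
      rw [h1]
      have h2 : (z ^ (d + 1).factorial) ^ k = 1 * (z ^ (k * (d + 1))) ^ d.factorial := by
        rw [one_mul, ← pow_mul, ← pow_mul, Nat.factorial_succ]
        congr 1
        ring
      rw [h2]
      refine W.mul ?_ (ih d (by omega) c _)
      have h3 := W.prod (Finset.range d) (d := d) (ζ := fun _ => (1 : Circle))
        (u := fun i n => (z ^ (k ^ (d + 1 - i) * (d + 1).choose i)) ^ ((n + c) ^ i))
        fun i hi => (ih i ((Finset.mem_range.1 hi).trans (by omega)) c _).lift_lt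
          (Finset.mem_range.1 hi)
      simpa using h3

lemma W.sm {d : ℕ} {ζ : Circle} {u : ℕ → Circle} (h : W (d + 1) ζ u)
    (hζ : ∀ n : ℕ, 0 < n → ζ ^ n ≠ 1) : Sm (fun n => (u n : ℂ)) := by
  induction d generalizing ζ u with
  | zero =>
    have h1 : ∀ n, u n = u 0 * ζ ^ n := by
      intro n
      have h2 := h n 0
      simp only [zero_add] at h2
      rw [← h2]
      simp
    have hζ1 : ζ ≠ 1 := by simpa using hζ 1 one_pos
    have hζ1' : (ζ : ℂ) ≠ 1 := by
      intro h2
      exact hζ1 (Circle.ext (by simpa using h2))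
    have hd : 0 < ‖(ζ : ℂ) - 1‖ := norm_pos_iff.2 (sub_ne_zero.2 hζ1')
    intro ε hε
    have h2 : ∀ᶠ N : ℕ in atTop, 2 / ‖(ζ : ℂ) - 1‖ ≤ ε * N := by
      have h3 : Tendsto (fun N : ℕ => ε * (N : ℝ)) atTop atTop :=
        tendsto_natCast_atTop_atTop.const_mul_atTop hε
      exact h3.eventually_ge_atTop _
    filter_upwards [h2] with N h3
    refine le_trans ?_ h3
    have h4 : ∑ n ∈ Finset.range N, (u n : ℂ) = (u 0 : ℂ) * (((ζ : ℂ) ^ N - 1) / ((ζ : ℂ) - 1)) := by
      rw [← geom_sum_eq hζ1', Finset.mul_sum]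
      refine Finset.sum_congr rfl fun n _ => ?_
      rw [h1 n]
      push_cast
      rfl
    rw [h4, norm_mul, Circle.norm_coe, one_mul, norm_div]
    gcongr
    refine (norm_sub_le _ _).trans ?_
    rw [norm_pow, Circle.norm_coe, one_pow, norm_one]
    norm_num
  | succ d ih =>
    apply vdc
    · intro n
      rw [Circle.norm_coe]
    · intro k hk
      have h1 := ih (h k) fun n hn => by
        rw [← pow_mul]
        exact hζ _ (Nat.mul_pos hk hn)
      intro ε hε
      filter_upwards [h1 ε hε] with N hN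
      refine le_trans (le_of_eq ?_) hN
      congr 1
      refine Finset.sum_congr rfl fun n _ => ?_
      rw [Circle.coe_div, div_eq_mul_inv, ← Circle.coe_inv, Circle.coe_inv_eq_conj]

theorem weyl_circle {D : ℕ} (z : Fin D → Circle) (i₀ : Fin D)
    (h0 : ∀ n : ℕ, 0 < n → z i₀ ^ n ≠ 1) (h1 : ∀ i, i₀ < i → z i = 1) :
    Tendsto (fun J : ℕ => ((J : ℝ) + 1)⁻¹ • ∑ j ∈ Finset.range (J + 1),
      ((∏ i : Fin D, z i ^ ((j + 1) ^ ((i : ℕ) + 1)) : Circle) : ℂ)) atTop (𝓝 0) := by
  have h2 : W ((i₀ : ℕ) + 1) (z i₀ ^ ((i₀ : ℕ) + 1).factorial)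
      (fun j => ∏ i : Fin D, z i ^ ((j + 1) ^ ((i : ℕ) + 1))) := by
    have h3 := W.prod (Finset.univ : Finset (Fin D)) (d := (i₀ : ℕ) + 1)
      (ζ := fun i => if i = i₀ then z i₀ ^ ((i₀ : ℕ) + 1).factorial else 1)
      (u := fun i n => z i ^ ((n + 1) ^ ((i : ℕ) + 1))) fun i _ => by
        rcases lt_trichotomy i i₀ with h | h | h
        · rw [if_neg h.ne]
          exact (W.mon ((i : ℕ) + 1) 1 (z i)).lift_lt (by simpa using h)
        · subst h
          rw [if_pos rfl]
          exact W.mon ((i : ℕ) + 1) 1 (z i)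
        · rw [if_neg h.ne', h1 i h]
          simpa using W.one ((i₀ : ℕ) + 1)
    rw [Finset.prod_ite_eq' Finset.univ i₀, if_pos (Finset.mem_univ _)] at h3
    exact h3
  have h3 : Sm (fun j => ((∏ i : Fin D, z i ^ ((j + 1) ^ ((i : ℕ) + 1)) : Circle) : ℂ)) := by
    apply h2.sm
    intro n hn
    rw [← pow_mul]
    exact h0 _ (Nat.mul_pos (Nat.factorial_pos _) hn)
  rw [tendsto_zero_iff_norm_tendsto_zero, Metric.tendsto_atTop]
  intro ε hε
  obtain ⟨N, hN⟩ := eventually_atTop.1 (h3 (ε / 2) (by positivity))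
  refine ⟨N, fun J hJ => ?_⟩
  rw [Real.dist_eq, sub_zero, abs_norm, norm_smul, norm_inv, Real.norm_of_nonneg (by positivity)]
  have h4 := hN (J + 1) (by omega)
  push_cast at h4
  have h5 : (0 : ℝ) < (J : ℝ) + 1 := by positivity
  rw [inv_mul_lt_iff₀ h5]
  have h6 : 0 < ε / 2 * ((J : ℝ) + 1) := by positivity
  linarith

end Pool.Agent.PPR
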