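import Pool.Agent.PPR.LimA
import Pool.Agent.PPR.Avg
import Pool.Agent.PPR.Weyl
import Pool.Agent.PPR.Compl

/-!
# The limit law of a phase
-/

set_option autoImplicit false

namespace Pool.Agent.PPR

open MeasureTheory ProbabilityTheory Filter Topology

namespace Lm

/-! ### Elementary facts -/

lemma ee_add (x y : ℝ) : ee (x + y) = ee x * ee y := by
  unfold ee
  rw [mul_add, Circle.exp_add]

lemma ee_zero : ee 0 = 1 := by
  unfold ee
  rw [mul_zero, Circle.exp_zero]

lemma ee_int (n : ℤ) : ee n = 1 := by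
  unfold ee
  exact Circle.exp_two_pi_mul_int n

lemma ee_eq_one {x : ℝ} (h : ee x = 1) : ∃ n : ℤ, x = n := by
  unfold ee at h
  rw [Circle.exp_eq_one] at h
  obtain ⟨n, hn⟩ := h
  refine ⟨n, ?_⟩
  have hpi : (2 * Real.pi) ≠ 0 := by positivity
  apply mul_left_cancel₀ hpi
  rw [hn]
  ring

lemma ee_nsmul (n : ℕ) (x : ℝ) : ee (n * x) = ee x ^ n := by
  induction n with
  | zero => rw [Nat.cast_zero, zero_mul, ee_zero, pow_zero]
  | succ n ih => rw [Nat.cast_succ, add_mul, one_mul, ee_add, ih, pow_succ]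

lemma ee_sum {ι : Type*} (s : Finset ι) (f : ι → ℝ) : ee (∑ i ∈ s, f i) = ∏ i ∈ s, ee (f i) := by
  classical
  induction s using Finset.induction_on with
  | empty => simp [ee_zero]
  | insert i s hi ih => rw [Finset.sum_insert hi, Finset.prod_insert hi, ee_add, ih]

variable {D : ℕ}

/-- the linear functional given by the values at the primes -/
noncomputable def ph (L : Fin (D + 1) → ℕ → ℝ) (d : Fin (D + 1)) : (ℕ →₀ ℚ) →ₗ[ℚ] ℝ :=
  Finsupp.linearCombination ℚ (L d)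

lemma ph_fac (L : Fin (D + 1) → ℕ → ℝ) (d : Fin (D + 1)) (n : ℕ) :
    ph L d (fac n) = n.factorization.sum fun p k => (k : ℝ) * L d p := by
  unfold ph fac
  rw [Finsupp.linearCombination_apply, Finsupp.sum_mapRange_index (by simp)]
  refine Finsupp.sum_congr fun p _ => ?_
  rw [Rat.smul_def]
  push_cast
  rfl

/-- the points -/
noncomputable def yy (L : Fin (D + 1) → ℕ → ℝ) (n : ℕ) (g : GQ D) : Circle :=
  ee (∑ d, ph L d (TT n g d).2)

lemma yy_add (L : Fin (D + 1) → ℕ → ℝ) (n : ℕ) (g h : GQ D) :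
    yy L n (g + h) = yy L n g * yy L n h := by
  unfold yy
  rw [← ee_add, ← Finset.sum_add_distrib]
  congr 1
  refine Finset.sum_congr rfl fun d _ => ?_
  rw [TT_add, ← map_add]
  rfl

lemma yy_TT (L : Fin (D + 1) → ℕ → ℝ) {n k : ℕ} (hn : n ≠ 0) (hk : k ≠ 0) (g : GQ D) :
    yy L n (TT k g) = yy L (n * k) g := by
  unfold yy
  rw [TT_mul hn hk]

lemma yy_ones (L : Fin (D + 1) → ℕ → ℝ) (n : ℕ) : yy L n ones = ee (phase L n) := by
  unfold yy phase
  congr 1
  refine Finset.sum_congr rfl fun d _ => ?_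
  simp only [TT, ones, zero_add, one_smul, map_smul, ph_fac]
  rw [Rat.smul_def]
  push_cast
  rfl

lemma yy_wdeg (L : Fin (D + 1) → ℕ → ℝ) (n : ℕ) (d : Fin (D + 1)) (w : ℕ →₀ ℚ) :
    yy L n (wdeg d w) = ee ((n : ℝ) ^ (d : ℕ) * ph L d w) := by
  unfold yy
  rw [TT_wdeg, Finset.sum_eq_single d]
  · congr 1
    unfold wdeg
    rw [Pi.single_eq_same]
    simp only [map_smul]
    rw [Rat.smul_def]
    push_cast
    rfl
  · intro b _ hb
    unfold wdeg
    rw [Pi.single_eq_of_ne hb]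
    simp
  · simp

lemma yy_adeg_zero (L : Fin (D + 1) → ℕ → ℝ) (n : ℕ) :
    yy L n (adeg 0 1) = ee (ph L 0 (fac n)) := by
  unfold yy
  rw [TT_adeg, Finset.sum_eq_single 0]
  · congr 1
    unfold wdeg adeg
    simp
  · intro b _ hb
    unfold wdeg adeg
    rw [Pi.add_apply, Pi.single_eq_of_ne hb, Pi.single_eq_of_ne hb]
    simp
  · simp

lemma yy_iV (L : Fin (D + 1) → ℕ → ℝ) (n : ℕ) (w : VV D) :
    yy L n (iV w) = ∏ i : Fin D, ee ((n : ℝ) ^ ((i : ℕ) + 1) * ph L i.succ (w i)) := by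
  unfold yy
  rw [TT_iV, Fin.sum_univ_succ, ← ee_sum]
  congr 1
  have h0 : ph L 0 (iV (LL n w) 0).2 = 0 := by simp [iV]
  rw [h0, zero_add]
  refine Finset.sum_congr rfl fun i _ => ?_
  simp only [iV, Fin.cons_succ, LL, map_smul]
  rw [Rat.smul_def]
  push_cast
  rfl

/-! ### Averages -/

section AvgLemmas

variable {E : Type*} [NormedAddCommGroup E] [NormedSpace ℝ E]

lemma avgX_sub (X : ℕ) (f g : ℕ → E) : avgX X (fun n => f n - g n) = avgX X f - avgX X g := by
  unfold avgX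
  rw [Finset.sum_sub_distrib, smul_sub]

lemma avgK_sub (K : ℕ) (f g : ℕ → E) (x : ℕ) :
    avgK K (fun n => f n - g n) x = avgK K f x - avgK K g x := by
  unfold avgK
  rw [Finset.sum_sub_distrib, smul_sub]

lemma norm_avgX_le_avgX (X : ℕ) {f : ℕ → E} {g : ℕ → ℝ} (h : ∀ n, 0 < n → ‖f n‖ ≤ g n) :
    ‖avgX X f‖ ≤ avgX X g := by
  unfold avgX
  rw [norm_smul, Real.norm_of_nonneg (by positivity), smul_eq_mul]
  refine mul_le_mul_of_nonneg_left ?_ (by positivity)
  exact (norm_sum_le _ _).trans (Finset.sum_le_sum fun e _ => h _ (xx_pos X e))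

lemma avg_re (X K : ℕ) (f : ℕ → ℂ) : avg X K (fun n => (f n).re) = (avg X K f).re := by
  unfold avg avgX avgK
  rw [Complex.smul_re, Complex.re_sum]
  congr 1
  refine Finset.sum_congr rfl fun e _ => ?_
  rw [Complex.smul_re, Complex.re_sum]

lemma avg_congr {E' : Type*} [AddCommGroup E'] [Module ℝ E'] (X K : ℕ) {f g : ℕ → E'}
    (h : ∀ n, 0 < n → f n = g n) : avg X K f = avg X K g := by
  unfold avg avgX avgK
  congr 1
  refine Finset.sum_congr rfl fun e _ => ?_
  congr 1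
  exact Finset.sum_congr rfl fun j _ => h _ (Nat.mul_pos (xx_pos X e) (Nat.succ_pos j))

lemma tendsto_avgX {l : Filter ℕ} (X : ℕ) (f : ℕ → ℕ → E) (g : ℕ → E)
    (h : ∀ n, 0 < n → Tendsto (fun K => f K n) l (𝓝 (g n))) :
    Tendsto (fun K => avgX X (f K)) l (𝓝 (avgX X g)) := by
  unfold avgX
  refine Tendsto.const_smul ?_ _
  exact tendsto_finsetSum _ fun e _ => h _ (xx_pos X e)

end AvgLemmas

lemma measurableSet_hom {I : Type*} [Countable I] [AddCommGroup I] (v w : I) :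
    MeasurableSet {x : I → Circle | x (v + w) = x v * x w} :=
  (isClosed_eq (by fun_prop) (by fun_prop)).measurableSet

/-- the iterated limit of the averages along ultrafilters -/
structure IterLim (U : Ultrafilter ℕ) (W : ℕ → Ultrafilter ℕ)
    (y : ℕ → (GQ D → Circle)) (PX : ℕ → Measure (GQ D → Circle))
    (P : Measure (GQ D → Circle)) : Prop where
  pX : ∀ X, IsProbabilityMeasure (PX X)
  pP : IsProbabilityMeasure P
  lX : ∀ f : (GQ D → Circle) → ℂ, Continuous f → ∀ X,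
    Tendsto (fun K => avg X K (fun n => f (y n))) (W X : Filter ℕ) (𝓝 (∫ u, f u ∂(PX X)))
  lP : ∀ f : (GQ D → Circle) → ℂ, Continuous f →
    Tendsto (fun X => ∫ u, f u ∂(PX X)) (U : Filter ℕ) (𝓝 (∫ u, f u ∂P))
  cl : ∀ S : Set (GQ D → Circle), IsClosed S → (∀ n, 0 < n → y n ∈ S) → ∀ᵐ u ∂P, u ∈ S

lemma continuous_coe (g : GQ D) : Continuous fun u : GQ D → Circle => ((u g : Circle) : ℂ) := by
  fun_prop

lemma avg_shift_bound (k : ℕ) (hk : 0 < k) : ∃ C : ℝ, 0 ≤ C ∧ ∀ (X K : ℕ) (f : ℕ → ℂ),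
    (∀ n, ‖f n‖ ≤ 1) → ‖avg X K (fun n => f (n * k)) - avg X K f‖ ≤ C / ((X : ℝ) + 1) := by
  obtain ⟨C, hC, h⟩ := avgX_shift k hk
  refine ⟨C, hC, fun X K f hf => ?_⟩
  have h1 := h ℂ X (fun x => avgK K f x) 1 ?_
  · rw [one_mul] at h1
    refine le_trans (le_of_eq ?_) h1
    congr 2
    unfold avg avgK
    congr 1
    funext x
    congr 1
    refine Finset.sum_congr rfl fun j _ => ?_
    exact congrArg f (by ring)
  · intro x
    unfold avgK
    rw [norm_smul, Real.norm_of_nonneg (by positivity)]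
    have h2 : ‖∑ j ∈ Finset.range (K + 1), f (x * (j + 1))‖ ≤ (K : ℝ) + 1 := by
      refine (norm_sum_le _ _).trans ((Finset.sum_le_sum fun j _ => hf _).trans ?_)
      simp
    rw [inv_mul_le_iff₀ (by positivity)]
    linarith

lemma IterLim.integral_TT {U : Ultrafilter ℕ} {W : ℕ → Ultrafilter ℕ}
    {L : Fin (D + 1) → ℕ → ℝ} {PX : ℕ → Measure (GQ D → Circle)}
    {P : Measure (GQ D → Circle)} (hU : (U : Filter ℕ) ≤ atTop)
    (H : IterLim U W (yy L) PX P) (k : ℕ) (hk : 0 < k) (g : GQ D) :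
    ∫ u, ((u (TT k g) : Circle) : ℂ) ∂P = ∫ u, ((u g : Circle) : ℂ) ∂P := by
  obtain ⟨C, hC, hb⟩ := avg_shift_bound k hk
  have h1 : ∀ X, ‖∫ u, ((u (TT k g) : Circle) : ℂ) ∂(PX X) - ∫ u, ((u g : Circle) : ℂ) ∂(PX X)‖ ≤
      C / ((X : ℝ) + 1) := by
    intro X
    have h2 := ((H.lX _ (continuous_coe (TT k g)) X).sub (H.lX _ (continuous_coe g) X)).norm
    refine le_of_tendsto h2 (Eventually.of_forall fun K => ?_)
    have h3 := hb X K (fun n => ((yy L n g : Circle) : ℂ)) (fun n => by rw [Circle.norm_coe])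
    have h4 : avg X K (fun n => ((yy L n (TT k g) : Circle) : ℂ)) =
        avg X K (fun n => ((yy L (n * k) g : Circle) : ℂ)) :=
      avg_congr X K fun n hn => by rw [yy_TT L hn.ne' hk.ne']
    rw [← h4] at h3
    exact h3
  have h2 := (H.lP _ (continuous_coe (TT k g))).sub (H.lP _ (continuous_coe g))
  have h3 : Tendsto (fun X : ℕ => C / ((X : ℝ) + 1)) (U : Filter ℕ) (𝓝 0) := by
    refine Tendsto.mono_left ?_ hU
    have h4 : Tendsto (fun X : ℕ => (X : ℝ) + 1) atTop atTop :=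
      tendsto_atTop_add_const_right _ _ tendsto_natCast_atTop_atTop
    exact h4.const_div_atTop C
  have h4 := tendsto_nhds_unique h2 (squeeze_zero_norm h1 h3)
  exact sub_eq_zero.1 h4

/-- the share of the multiples of `N` tends to one -/
lemma tendsto_codvd (N : ℕ) (hN : 0 < N) :
    Tendsto (fun X => avgX X (fun n => if N ∣ n then (0 : ℝ) else 1)) atTop (𝓝 0) := by
  have h1 := (tendsto_const_nhds (x := (1 : ℝ))).sub (avgX_dvd N hN)
  rw [sub_self] at h1
  refine h1.congr fun X => ?_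
  rw [← avgX_const X (1 : ℝ), ← avgX_sub]
  rw [avgX_const]
  congr 1
  funext n
  by_cases h : N ∣ n
  · simp [h]
  · simp [h]

/-- the subspaces -/
noncomputable def VL (L : Fin (D + 1) → ℕ → ℝ) (i : Fin D) : Submodule ℚ (ℕ →₀ ℚ) :=
  (LinearMap.range (Algebra.linearMap ℚ ℝ)).comap (ph L i.succ)

lemma mem_VL (L : Fin (D + 1) → ℕ → ℝ) (i : Fin D) (w : ℕ →₀ ℚ) :
    w ∈ VL L i ↔ ∃ q : ℚ, (q : ℝ) = ph L i.succ w := by
  unfold VL
  rw [Submodule.mem_comap, LinearMap.mem_range]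
  rfl

/-- a multiple of all denominators kills the rational phases -/
lemma exists_den (s : Finset (Fin D)) (θ : Fin D → ℝ) (h : ∀ i ∈ s, ∃ q : ℚ, (q : ℝ) = θ i) :
    ∃ N : ℕ, 0 < N ∧ ∀ i ∈ s, ∀ n : ℕ, N ∣ n → ∃ m : ℤ, (n : ℝ) * θ i = m := by
  classical
  choose! q hq using h
  refine ⟨∏ i ∈ s, (q i).den, Finset.prod_pos fun i _ => (q i).den_pos, ?_⟩
  intro i hi n hn
  obtain ⟨c, rfl⟩ := (Finset.dvd_prod_of_mem (fun i => (q i).den) hi).trans hn
  refine ⟨c * (q i).num, ?_⟩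
  rw [← hq i hi]
  have h1 : ((q i).den : ℝ) * (q i : ℝ) = (q i).num := by
    have := Rat.den_mul_eq_num (q i)
    exact_mod_cast this
  push_cast
  linear_combination (c : ℝ) * h1

lemma IterLim.integral_of_tendsto {U : Ultrafilter ℕ} {W : ℕ → Ultrafilter ℕ}
    {L : Fin (D + 1) → ℕ → ℝ} {PX : ℕ → Measure (GQ D → Circle)}
    {P : Measure (GQ D → Circle)} (hU : (U : Filter ℕ) ≤ atTop)
    (hW : ∀ X, (W X : Filter ℕ) ≤ atTop) (H : IterLim U W (yy L) PX P) (g : GQ D)
    (N : ℕ) (hN : 0 < N) (c : ℂ) (hc : ‖c‖ ≤ 1)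
    (h : ∀ x : ℕ, 0 < x → N ∣ x →
      Tendsto (fun K => avgK K (fun n => ((yy L n g : Circle) : ℂ)) x) atTop (𝓝 c)) :
    ∫ u, ((u g : Circle) : ℂ) ∂P = c := by
  have h1 : ∀ X : ℕ, ‖∫ u, ((u g : Circle) : ℂ) ∂(PX X) - c‖ ≤
      avgX X (fun x => if N ∣ x then (0 : ℝ) else 2) := by
    intro X
    have h2 := ((H.lX _ (continuous_coe g) X).sub_const c).norm
    have h3 : Tendsto (fun K => avgX X (fun x => if N ∣ x then
        ‖avgK K (fun n => ((yy L n g : Circle) : ℂ)) x - c‖ else 2)) (W X : Filter ℕ)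
        (𝓝 (avgX X (fun x => if N ∣ x then (0 : ℝ) else 2))) := by
      refine tendsto_avgX X _ _ fun x hx => ?_
      by_cases hNx : N ∣ x
      · simp only [if_pos hNx]
        have h4 := (((h x hx hNx).sub_const c).norm).mono_left (hW X)
        rwa [sub_self, norm_zero] at h4
      · simp only [if_neg hNx]
        exact tendsto_const_nhds
    refine le_of_tendsto_of_tendsto' h2 h3 fun K => ?_
    have h4 : avg X K (fun n => ((yy L n g : Circle) : ℂ)) - c =
        avgX X (fun x => avgK K (fun n => ((yy L n g : Circle) : ℂ)) x - c) := by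
      rw [avgX_sub, avgX_const]
      rfl
    change ‖avg X K (fun n => ((yy L n g : Circle) : ℂ)) - c‖ ≤ _
    rw [h4]
    refine norm_avgX_le_avgX X fun x hx => ?_
    by_cases hNx : N ∣ x
    · simp only [if_pos hNx]
      exact le_refl _
    · simp only [if_neg hNx]
      refine (norm_sub_le _ _).trans ?_
      have h5 := norm_avgK_le K (f := fun n => ((yy L n g : Circle) : ℂ)) (B := 1) hx
        (fun n _ => by rw [Circle.norm_coe])
      linarith
  have h2 := (H.lP _ (continuous_coe g)).sub_const c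
  have h3 : Tendsto (fun X => avgX X (fun x => if N ∣ x then (0 : ℝ) else 2)) (U : Filter ℕ)
      (𝓝 0) := by
    refine Tendsto.mono_left ?_ hU
    have h4 := (tendsto_codvd N hN).const_mul 2
    rw [mul_zero] at h4
    refine h4.congr fun X => ?_
    unfold avgX
    rw [smul_eq_mul, smul_eq_mul, mul_left_comm, Finset.mul_sum]
    congr 1
    refine Finset.sum_congr rfl fun e _ => ?_
    dsimp only
    split_ifs <;> norm_num
  exact sub_eq_zero.1 (tendsto_nhds_unique h2 (squeeze_zero_norm h1 h3))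

lemma IterLim.fc_one {U : Ultrafilter ℕ} {W : ℕ → Ultrafilter ℕ}
    {L : Fin (D + 1) → ℕ → ℝ} {PX : ℕ → Measure (GQ D → Circle)}
    {P : Measure (GQ D → Circle)} (hU : (U : Filter ℕ) ≤ atTop)
    (hW : ∀ X, (W X : Filter ℕ) ≤ atTop) (H : IterLim U W (yy L) PX P) (w : VV D)
    (hw : ∀ i, w i ∈ VL L i) : ∫ u, ((u (iV w) : Circle) : ℂ) ∂P = 1 := by
  obtain ⟨N, hN, h⟩ := exists_den Finset.univ (fun i : Fin D => ph L i.succ (w i))
    fun i _ => (mem_VL L i _).1 (hw i)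
  refine H.integral_of_tendsto hU hW _ N hN 1 (by simp) fun x hx hNx => ?_
  have h1 : ∀ K, avgK K (fun n => ((yy L n (iV w) : Circle) : ℂ)) x = 1 := by
    intro K
    rw [← avgK_const K (1 : ℂ) x]
    unfold avgK
    congr 1
    refine Finset.sum_congr rfl fun j _ => ?_
    have h0 : yy L (x * (j + 1)) (iV w) = 1 := by
      rw [yy_iV]
      refine Finset.prod_eq_one fun i _ => ?_
      obtain ⟨m, hm⟩ := h i (Finset.mem_univ i) ((x * (j + 1)) ^ ((i : ℕ) + 1))
        ((hNx.trans (Dvd.intro _ rfl)).trans (dvd_pow_self _ (Nat.succ_ne_zero _)))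
      rw [Nat.cast_pow] at hm
      rw [hm, ee_int]
    exact congrArg (fun z : Circle => (z : ℂ)) h0
  simp only [h1]
  exact tendsto_const_nhds

lemma IterLim.fc_zero {U : Ultrafilter ℕ} {W : ℕ → Ultrafilter ℕ}
    {L : Fin (D + 1) → ℕ → ℝ} {PX : ℕ → Measure (GQ D → Circle)}
    {P : Measure (GQ D → Circle)} (hU : (U : Filter ℕ) ≤ atTop)
    (hW : ∀ X, (W X : Filter ℕ) ≤ atTop) (H : IterLim U W (yy L) PX P) (w : VV D)
    (hw : ¬ ∀ i, w i ∈ VL L i) : ∫ u, ((u (iV w) : Circle) : ℂ) ∂P = 0 := by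
  classical
  push Not at hw
  let S : Finset (Fin D) := Finset.univ.filter fun i => w i ∉ VL L i
  have hS : S.Nonempty := by
    obtain ⟨i, hi⟩ := hw
    exact ⟨i, Finset.mem_filter.2 ⟨Finset.mem_univ _, hi⟩⟩
  set i₀ := S.max' hS with hi₀
  have h1 : w i₀ ∉ VL L i₀ := (Finset.mem_filter.1 (S.max'_mem hS)).2
  have h2 : ∀ i, i₀ < i → w i ∈ VL L i := by
    intro i hi
    by_contra hc
    have := S.le_max' i (Finset.mem_filter.2 ⟨Finset.mem_univ _, hc⟩)
    exact absurd hi (not_lt.2 this)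
  obtain ⟨N, hN, h⟩ := exists_den (Finset.univ.filter fun i : Fin D => i₀ < i)
    (fun i : Fin D => ph L i.succ (w i))
    fun i hi => (mem_VL L i _).1 (h2 i (Finset.mem_filter.1 hi).2)
  refine H.integral_of_tendsto hU hW _ N hN 0 (by simp) fun x hx hNx => ?_
  have h3 := weyl_circle (fun i : Fin D => ee ((x : ℝ) ^ ((i : ℕ) + 1) * ph L i.succ (w i))) i₀ ?_ ?_
  · refine h3.congr fun K => ?_
    unfold avgK
    congr 1
    refine Finset.sum_congr rfl fun j _ => ?_
    refine congrArg (fun z : Circle => (z : ℂ)) ?_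
    rw [yy_iV]
    refine Finset.prod_congr rfl fun i _ => ?_
    rw [← ee_nsmul]
    congr 1
    push_cast
    rw [mul_pow]
    ring
  · intro n hn he
    rw [← ee_nsmul] at he
    obtain ⟨m, hm⟩ := ee_eq_one he
    apply h1
    rw [mem_VL]
    refine ⟨m / (n * x ^ ((i₀ : ℕ) + 1)), ?_⟩
    have hn' : (n : ℝ) ≠ 0 := by exact_mod_cast hn.ne'
    have hx' : (x : ℝ) ≠ 0 := by exact_mod_cast hx.ne'
    push_cast
    rw [div_eq_iff (mul_ne_zero hn' (pow_ne_zero _ hx')), ← hm]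
    ring
  · intro i hi
    obtain ⟨m, hm⟩ := h i (Finset.mem_filter.2 ⟨Finset.mem_univ _, hi⟩) (x ^ ((i : ℕ) + 1))
      (hNx.trans (dvd_pow_self _ (Nat.succ_ne_zero _)))
    rw [Nat.cast_pow] at hm
    rw [hm, ee_int]

/-- closedness of the conditions on finitely many coordinates -/
lemma IterLim.ae_eq_const {U : Ultrafilter ℕ} {W : ℕ → Ultrafilter ℕ}
    {L : Fin (D + 1) → ℕ → ℝ} {PX : ℕ → Measure (GQ D → Circle)}
    {P : Measure (GQ D → Circle)} (H : IterLim U W (yy L) PX P) (g : GQ D) (z : Circle)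
    (h : ∀ n, 0 < n → yy L n g = z) : ∀ᵐ u ∂P, u g = z :=
  H.cl {u | u g = z} (isClosed_eq (continuous_apply g) continuous_const) h

lemma IterLim.hom {U : Ultrafilter ℕ} {W : ℕ → Ultrafilter ℕ}
    {L : Fin (D + 1) → ℕ → ℝ} {PX : ℕ → Measure (GQ D → Circle)}
    {P : Measure (GQ D → Circle)} (H : IterLim U W (yy L) PX P) (g h : GQ D) :
    ∀ᵐ u ∂P, u (g + h) = u g * u h :=
  H.cl {u | u (g + h) = u g * u h} (isClosed_eq (by fun_prop) (by fun_prop))
    fun n _ => yy_add L n g h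

lemma IterLim.inv {U : Ultrafilter ℕ} {W : ℕ → Ultrafilter ℕ}
    {L : Fin (D + 1) → ℕ → ℝ} {PX : ℕ → Measure (GQ D → Circle)}
    {P : Measure (GQ D → Circle)} (hU : (U : Filter ℕ) ≤ atTop)
    (H : IterLim U W (yy L) PX P) (k : ℕ) (hk : 0 < k) : P.map (TU k) = P := by
  have := H.pP
  have : IsProbabilityMeasure (P.map (TU k)) :=
    Measure.isProbabilityMeasure_map (measurable_TU k).aemeasurable
  refine measure_ext _ _ (fun v w => ?_) (fun v w => H.hom v w) fun w => ?_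
  · refine (ae_map_iff (measurable_TU k).aemeasurable ?_).2 ?_
    · exact measurableSet_hom v w
    · filter_upwards [H.hom (TT k v) (TT k w)] with u hu
      unfold TU
      rw [TT_add, hu]
  · rw [integral_map (measurable_TU k).aemeasurable (measurable_coe w).aestronglyMeasurable]
    exact H.integral_TT hU k hk w

end Lm

open Lm in
theorem exists_limLaw {D : ℕ} (L : Fin (D + 1) → ℕ → ℝ) (ε : ℝ)
    (h : ∃ᶠ X in atTop, ∃ᶠ K in atTop,
      avg X K (fun n => ((ee (phase L n) : Circle) : ℂ).re) ≤ -ε) :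
    ∃ (P : Measure (GQ D → Circle)) (V0 : Fin D → Submodule ℚ (ℕ →₀ ℚ)), LimLaw D P V0 ∧
      (∫ u, ((u ones : Circle) : ℂ) ∂P).re ≤ -ε := by
  classical
  let S : ℕ → Set ℕ := fun X =>
    {K | avg X K (fun n => ((ee (phase L n) : Circle) : ℂ).re) ≤ -ε}
  let T : Set ℕ := {X | ∃ᶠ K in atTop, K ∈ S X}
  have hT : ∃ᶠ X in atTop, X ∈ T := h
  have hTn : (atTop ⊓ 𝓟 T : Filter ℕ).NeBot := frequently_mem_iff_neBot.1 hT
  obtain ⟨U, hU⟩ : ∃ U : Ultrafilter ℕ, (U : Filter ℕ) ≤ atTop ⊓ 𝓟 T :=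
    ⟨Ultrafilter.of _, Ultrafilter.of_le _⟩
  have hW : ∀ X, ∃ W : Ultrafilter ℕ, (W : Filter ℕ) ≤ atTop ∧
      (X ∈ T → (W : Filter ℕ) ≤ 𝓟 (S X)) := by
    intro X
    by_cases hX : X ∈ T
    · have : (atTop ⊓ 𝓟 (S X) : Filter ℕ).NeBot := frequently_mem_iff_neBot.1 hX
      exact ⟨Ultrafilter.of (atTop ⊓ 𝓟 (S X)), (Ultrafilter.of_le _).trans inf_le_left,
        fun _ => (Ultrafilter.of_le _).trans inf_le_right⟩
    · exact ⟨Ultrafilter.of atTop, Ultrafilter.of_le _, fun h => absurd h hX⟩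
  choose W hW1 hW2 using hW
  obtain ⟨PX, P, hlim⟩ := exists_iter_limit (yy L) U W
  have H : IterLim U W (yy L) PX P :=
    ⟨hlim.1, hlim.2.1, fun f hf => (hlim.2.2 f hf).1, fun f hf => (hlim.2.2 f hf).2,
      fun S hS hy => iter_limit_closed (yy L) U W PX P hlim S hS hy⟩
  have hU1 : (U : Filter ℕ) ≤ atTop := hU.trans inf_le_left
  have hUT : (U : Filter ℕ) ≤ 𝓟 T := hU.trans inf_le_right
  have hP := H.pP
  have hQ : IsProbabilityMeasure (P.map (pi (D := D))) :=
    Measure.isProbabilityMeasure_map measurable_pi'.aemeasurable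
  refine ⟨P, VL L, ⟨hP, H.hom, fun k hk => H.inv hU1 k hk, ⟨hQ, ?_, ?_, ?_⟩, ?_, ?_⟩, ?_⟩
  · intro v w
    refine (ae_map_iff measurable_pi'.aemeasurable ?_).2 ?_
    · exact measurableSet_hom v w
    · filter_upwards [H.hom (iV v) (iV w)] with u hu
      unfold pi
      rw [iV_add, hu]
  · intro k hk
    rw [Measure.map_map (measurable_tau k) measurable_pi']
    have h1 : tau k ∘ pi (D := D) = pi ∘ TU k := by
      funext u
      exact (pi_TU k u).symm
    rw [h1, ← Measure.map_map measurable_pi' (measurable_TU k), H.inv hU1 k hk]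
  · intro w
    rw [integral_map measurable_pi'.aemeasurable (measurable_coe w).aestronglyMeasurable]
    change ∫ u, ((u (iV w) : Circle) : ℂ) ∂P = _
    split_ifs with hw
    · exact H.fc_one hU1 hW1 w hw
    · exact H.fc_zero hU1 hW1 w hw
  · intro w
    refine ⟨ee (ph L 0 w), H.ae_eq_const _ _ fun n _ => ?_⟩
    rw [yy_wdeg]
    simp
  · by_cases hp : ∀ p : ℕ, p.Prime → ee (L 0 p) = 1
    · right
      refine H.ae_eq_const _ _ fun n hn => ?_
      rw [yy_adeg_zero, ph_fac, Finsupp.sum, ee_sum, Finset.prod_eq_one]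
      intro p hpn
      have hpp : p.Prime := by
        rw [Nat.support_factorization] at hpn
        exact Nat.prime_of_mem_primeFactors hpn
      rw [ee_nsmul, hp p hpp, one_pow]
    · left
      push Not at hp
      obtain ⟨p, hp1, hp2⟩ := hp
      refine ⟨p, hp1.pos, ee (L 0 p), hp2, H.ae_eq_const _ _ fun n _ => ?_⟩
      rw [yy_wdeg, ph_fac, hp1.factorization]
      simp
  · have h1 : Tendsto (fun X => (∫ u, ((u ones : Circle) : ℂ) ∂(PX X)).re) (U : Filter ℕ)
        (𝓝 (∫ u, ((u ones : Circle) : ℂ) ∂P).re) :=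
      (Complex.continuous_re.tendsto _).comp (H.lP _ (continuous_coe ones))
    refine le_of_tendsto h1 ?_
    refine Filter.Eventually.mono (hUT (mem_principal_self T)) fun X hX => ?_
    have h2 : Tendsto (fun K => (avg X K (fun n => ((yy L n ones : Circle) : ℂ))).re)
        (W X : Filter ℕ) (𝓝 (∫ u, ((u ones : Circle) : ℂ) ∂(PX X)).re) :=
      (Complex.continuous_re.tendsto _).comp (H.lX _ (continuous_coe ones) X)
    refine le_of_tendsto h2 ?_
    refine Filter.Eventually.mono (hW2 X hX (mem_principal_self _)) fun K hK => ?_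
    rw [← avg_re]
    simp only [yy_ones]
    exact hK

end Pool.Agent.PPR
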