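import Pool.Agent.PPR.Defs

/-!
# Iterated weak limits of empirical measures
-/

set_option autoImplicit false

namespace Pool.Agent.PPR

open MeasureTheory ProbabilityTheory Filter Topology

section Emp

variable {I : Type*}

/-- the index set of the averages -/
abbrev Idx (X K : ℕ) := (Fin (X + 1) → ZMod (X + 1)) × Fin (K + 1)

lemma card_idx (X K : ℕ) :
    (Fintype.card (Idx X K) : ℝ) = ((X : ℝ) + 1) ^ (X + 1) * ((K : ℝ) + 1) := by
  rw [Fintype.card_prod, Fintype.card_fun, ZMod.card, Fintype.card_fin, Fintype.card_fin]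
  push_cast
  ring

/-- the empirical measures -/
noncomputable def empM (y : ℕ → (I → Circle)) (X K : ℕ) : Measure (I → Circle) :=
  ∑ a : Idx X K, ENNReal.ofReal (Fintype.card (Idx X K) : ℝ)⁻¹ •
    Measure.dirac (y (xx X a.1 * ((a.2 : ℕ) + 1)))

lemma empM_univ (y : ℕ → (I → Circle)) (X K : ℕ) : empM y X K Set.univ = 1 := by
  unfold empM
  rw [Measure.finsetSum_apply]
  simp only [Measure.smul_apply, measure_univ, smul_eq_mul, mul_one, Finset.sum_const,
    Finset.card_univ, nsmul_eq_mul]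
  have h : (0 : ℝ) < (Fintype.card (Idx X K) : ℝ) := by
    have : 0 < Fintype.card (Idx X K) := Fintype.card_pos
    exact_mod_cast this
  rw [← ENNReal.ofReal_natCast, ← ENNReal.ofReal_mul h.le, mul_inv_cancel₀ h.ne',
    ENNReal.ofReal_one]

instance instProbEmp (y : ℕ → (I → Circle)) (X K : ℕ) : IsProbabilityMeasure (empM y X K) :=
  ⟨empM_univ y X K⟩

lemma integral_empM [Countable I] (y : ℕ → (I → Circle)) (X K : ℕ) (f : (I → Circle) → ℂ) :
    ∫ u, f u ∂(empM y X K) = avg X K (fun n => f (y n)) := by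
  unfold empM
  rw [integral_finsetSum_measure]
  · have h1 : ∀ a : Idx X K, ∫ u, f u ∂(ENNReal.ofReal (Fintype.card (Idx X K) : ℝ)⁻¹ •
        Measure.dirac (y (xx X a.1 * ((a.2 : ℕ) + 1)))) =
        ((Fintype.card (Idx X K) : ℝ)⁻¹ : ℝ) • f (y (xx X a.1 * ((a.2 : ℕ) + 1))) := by
      intro a
      rw [integral_smul_measure, integral_dirac, ENNReal.toReal_ofReal (by positivity)]
    rw [Finset.sum_congr rfl fun a _ => h1 a, ← Finset.smul_sum, card_idx, mul_inv, mul_smul]
    unfold avg avgX avgK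
    congr 1
    rw [Fintype.sum_prod_type, Finset.smul_sum]
    refine Finset.sum_congr rfl fun e _ => ?_
    congr 1
    rw [Finset.sum_range]
  · intro a _
    refine Integrable.smul_measure ?_ ENNReal.ofReal_ne_top
    exact integrable_dirac (by simp)

end Emp

theorem exists_iter_limit {I : Type*} [Countable I] (y : ℕ → (I → Circle)) (U : Ultrafilter ℕ)
    (W : ℕ → Ultrafilter ℕ) :
    ∃ (PX : ℕ → Measure (I → Circle)) (P : Measure (I → Circle)),
      (∀ X, IsProbabilityMeasure (PX X)) ∧ IsProbabilityMeasure P ∧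
      ∀ f : (I → Circle) → ℂ, Continuous f →
        (∀ X, Tendsto (fun K => avg X K (fun n => f (y n))) (W X : Filter ℕ)
          (𝓝 (∫ u, f u ∂(PX X)))) ∧
        Tendsto (fun X => ∫ u, f u ∂(PX X)) (U : Filter ℕ) (𝓝 (∫ u, f u ∂P)) := by
  let em : ℕ → ℕ → ProbabilityMeasure (I → Circle) := fun X K => ⟨empM y X K, inferInstance⟩
  have h1 : ∀ X, ∃ p : ProbabilityMeasure (I → Circle), Tendsto (em X) (W X : Filter ℕ) (𝓝 p) := by
    intro X
    obtain ⟨p, _, hp⟩ := isCompact_univ.ultrafilter_le_nhds ((W X).map (em X)) (by simp)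
    exact ⟨p, hp⟩
  choose PX hPX using h1
  obtain ⟨P, _, hP⟩ := isCompact_univ.ultrafilter_le_nhds (U.map PX) (by simp)
  refine ⟨fun X => (PX X : Measure (I → Circle)), P, fun X => inferInstance, inferInstance, ?_⟩
  intro f hf
  let g : BoundedContinuousFunction (I → Circle) ℂ :=
    BoundedContinuousFunction.mkOfCompact ⟨f, hf⟩
  constructor
  · intro X
    have h2 := (ProbabilityMeasure.tendsto_iff_forall_integral_rclike_tendsto ℂ).1 (hPX X) g
    refine h2.congr fun K => ?_
    exact integral_empM y X K f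
  · have hP' : Tendsto PX (U : Filter ℕ) (𝓝 P) := hP
    exact (ProbabilityMeasure.tendsto_iff_forall_integral_rclike_tendsto ℂ).1 hP' g

/-- closed sets which contain all the points carry the limit -/
theorem iter_limit_closed {I : Type*} [Countable I] (y : ℕ → (I → Circle)) (U : Ultrafilter ℕ)
    (W : ℕ → Ultrafilter ℕ) (PX : ℕ → Measure (I → Circle)) (P : Measure (I → Circle))
    (h : (∀ X, IsProbabilityMeasure (PX X)) ∧ IsProbabilityMeasure P ∧
      ∀ f : (I → Circle) → ℂ, Continuous f →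
        (∀ X, Tendsto (fun K => avg X K (fun n => f (y n))) (W X : Filter ℕ)
          (𝓝 (∫ u, f u ∂(PX X)))) ∧
        Tendsto (fun X => ∫ u, f u ∂(PX X)) (U : Filter ℕ) (𝓝 (∫ u, f u ∂P)))
    (S : Set (I → Circle)) (hS : IsClosed S) (hy : ∀ n, 0 < n → y n ∈ S) : ∀ᵐ u ∂P, u ∈ S := by
  obtain ⟨hPX, hP, hlim⟩ := h
  let _ : MetricSpace (I → Circle) := TopologicalSpace.metrizableSpaceMetric (I → Circle)
  have hne : S.Nonempty := ⟨y 1, hy 1 one_pos⟩
  let g : (I → Circle) → ℝ := fun u => Metric.infDist u S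
  have hg : Continuous g := Metric.continuous_infDist_pt S
  have hgc : Continuous (fun u => ((g u : ℝ) : ℂ)) := Complex.continuous_ofReal.comp hg
  obtain ⟨h1, h2⟩ := hlim _ hgc
  have h3 : ∀ X K, avg X K (fun n => ((g (y n) : ℝ) : ℂ)) = 0 := by
    intro X K
    unfold avg avgX avgK
    have h4 : ∀ (e : Fin (X + 1) → ZMod (X + 1)) (j : ℕ),
        ((g (y (xx X e * (j + 1))) : ℝ) : ℂ) = 0 := by
      intro e j
      have h5 : 0 < xx X e * (j + 1) := by
        refine Nat.mul_pos ?_ (Nat.succ_pos j)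
        exact Finset.prod_pos fun i _ => pow_pos (Nat.prime_nth_prime _).pos _
      have h6 : g (y (xx X e * (j + 1))) = 0 :=
        Metric.infDist_zero_of_mem (hy _ h5)
      rw [h6, Complex.ofReal_zero]
    simp only [h4, Finset.sum_const_zero, smul_zero]
  have h4 : ∀ X, ∫ u, ((g u : ℝ) : ℂ) ∂(PX X) = 0 := by
    intro X
    refine tendsto_nhds_unique (h1 X) ?_
    simp only [h3]
    exact tendsto_const_nhds
  have h5 : ∫ u, ((g u : ℝ) : ℂ) ∂P = 0 := by
    refine tendsto_nhds_unique h2 ?_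
    simp only [h4]
    exact tendsto_const_nhds
  have h6 : ∫ u, g u ∂P = 0 := by
    have h7 : ∫ u, ((g u : ℝ) : ℂ) ∂P = ((∫ u, g u ∂P : ℝ) : ℂ) := integral_ofReal
    rw [h7] at h5
    exact_mod_cast h5
  have hint : Integrable g P := by
    obtain ⟨B, hB⟩ := isCompact_univ.exists_bound_of_continuousOn
      (hg.continuousOn (s := Set.univ))
    exact Integrable.of_bound hg.measurable.aestronglyMeasurable B
      (Eventually.of_forall fun u => hB u (Set.mem_univ u))
  have h7 := (integral_eq_zero_iff_of_nonneg (fun u => Metric.infDist_nonneg) hint).1 h6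
  filter_upwards [h7] with u hu
  exact (hS.mem_iff_infDist_zero hne).2 hu

end Pool.Agent.PPR
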