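import Pool.Agent.PPR.PosA

/-!
# The phases of finitely many pairs of polynomials
-/

set_option autoImplicit false

namespace Pool.Agent.PPR

open MeasureTheory ProbabilityTheory Filter Topology

/-- the product of the ratios of the multiplicative functions at the two powers -/
noncomputable def Phi {J : ℕ} (P Q : Fin J → Polynomial ℕ) (n : ℕ)
    (l : Fin J → (ℕ → Circle)) : Circle :=
  ∏ j, ext (l j) (n ^ ((Q j).eval n)) * (ext (l j) (n ^ ((P j).eval n)))⁻¹

lemma Phi_coe {J : ℕ} (P Q : Fin J → Polynomial ℕ) (n : ℕ) (l : Fin J → (ℕ → Circle)) :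
    ((Phi P Q n l : Circle) : ℂ) = ∏ j, (((ext (l j) (n ^ ((Q j).eval n)) : Circle) : ℂ) *
      (starRingEnd ℂ) ((ext (l j) (n ^ ((P j).eval n)) : Circle) : ℂ)) := by
  unfold Phi
  rw [← Circle.coeHom_apply, map_prod]
  refine Finset.prod_congr rfl fun j _ => ?_
  rw [map_mul, Circle.coeHom_apply, Circle.coeHom_apply, Circle.coe_inv_eq_conj]

lemma measurable_Phi {J : ℕ} (P Q : Fin J → Polynomial ℕ) (n : ℕ) :
    Measurable fun l : Fin J → (ℕ → Circle) => ((Phi P Q n l : Circle) : ℂ) := by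
  simp only [Phi_coe]
  refine Finset.measurable_fun_prod _ fun j _ => ?_
  have h1 : ∀ m : ℕ, Measurable fun l : Fin J → (ℕ → Circle) => ((ext (l j) m : Circle) : ℂ) :=
    fun m => ((by fun_prop : Continuous fun z : Circle => (z : ℂ)).measurable.comp
      (measurable_ext m)).comp (measurable_pi_apply j)
  exact (h1 _).mul (Complex.continuous_conj.measurable.comp (h1 _))

lemma Phi_one {J : ℕ} (P Q : Fin J → Polynomial ℕ) (n : ℕ) (l : Fin J → (ℕ → Circle))
    (hl : ∀ j p, l j p = 1) : Phi P Q n l = 1 := by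
  unfold Phi
  refine Finset.prod_eq_one fun j _ => ?_
  have h1 : ∀ m, ext (l j) m = 1 := by
    intro m
    unfold ext Finsupp.prod
    refine Finset.prod_eq_one fun p _ => ?_
    change l j p ^ _ = 1
    rw [hl, one_pow]
  rw [h1, h1, inv_one, mul_one]

lemma Phi_at_one {J : ℕ} (P Q : Fin J → Polynomial ℕ) (l : Fin J → (ℕ → Circle)) :
    Phi P Q 1 l = 1 := by
  unfold Phi
  refine Finset.prod_eq_one fun j _ => ?_
  rw [one_pow, one_pow, ext_one, inv_one, mul_one]

lemma eval_fin (p : Polynomial ℕ) (D : ℕ) (hD : p.natDegree ≤ D) (n : ℕ) :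
    ((p.eval n : ℕ) : ℝ) = ∑ d : Fin (D + 1), (p.coeff d : ℝ) * (n : ℝ) ^ (d : ℕ) := by
  rw [Polynomial.eval_eq_sum_range' (Nat.lt_succ_of_le hD), Finset.sum_range]
  push_cast
  rfl

lemma Phi_phase {J : ℕ} (P Q : Fin J → Polynomial ℕ) (l : Fin J → (ℕ → Circle)) :
    ∃ (D : ℕ) (L : Fin (D + 1) → ℕ → ℝ), ∀ n, Phi P Q n l = ee (phase L n) := by
  choose θ hθ using fun j => fun p => ee_surj (l j p)
  have hl : ∀ j, l j = fun p => ee (θ j p) := fun j => funext fun p => (hθ j p).symm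
  let D : ℕ := (Finset.univ.sup fun j => (P j).natDegree) ⊔ (Finset.univ.sup fun j => (Q j).natDegree)
  have hP : ∀ j, (P j).natDegree ≤ D := fun j =>
    le_trans (Finset.le_sup (f := fun j => (P j).natDegree) (Finset.mem_univ j)) le_sup_left
  have hQ : ∀ j, (Q j).natDegree ≤ D := fun j =>
    le_trans (Finset.le_sup (f := fun j => (Q j).natDegree) (Finset.mem_univ j)) le_sup_right
  refine ⟨D, fun d p => ∑ j, (((Q j).coeff d : ℝ) - ((P j).coeff d : ℝ)) * θ j p, fun n => ?_⟩
  have h1 : phase (fun (d : Fin (D + 1)) p =>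
      ∑ j, (((Q j).coeff d : ℝ) - ((P j).coeff d : ℝ)) * θ j p) n =
      ∑ j, (((Q j).eval n : ℕ) : ℝ) * (n.factorization.sum fun p k => (k : ℝ) * θ j p) -
        ∑ j, (((P j).eval n : ℕ) : ℝ) * (n.factorization.sum fun p k => (k : ℝ) * θ j p) := by
    rw [← Finset.sum_sub_distrib]
    have h2 : ∀ j, (((Q j).eval n : ℕ) : ℝ) *
        (n.factorization.sum fun p k => (k : ℝ) * θ j p) -
        (((P j).eval n : ℕ) : ℝ) * (n.factorization.sum fun p k => (k : ℝ) * θ j p) =
        ∑ d : Fin (D + 1), (n : ℝ) ^ (d : ℕ) * ((((Q j).coeff d : ℝ) - ((P j).coeff d : ℝ)) *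
          (n.factorization.sum fun p k => (k : ℝ) * θ j p)) := by
      intro j
      rw [eval_fin (Q j) D (hQ j), eval_fin (P j) D (hP j), ← sub_mul, ← Finset.sum_sub_distrib,
        Finset.sum_mul]
      refine Finset.sum_congr rfl fun d _ => ?_
      ring
    rw [Finset.sum_congr rfl fun j _ => h2 j, Finset.sum_comm]
    unfold phase
    refine Finset.sum_congr rfl fun d _ => ?_
    rw [← Finset.mul_sum]
    congr 1
    unfold Finsupp.sum
    have h3 : ∀ p ∈ n.factorization.support, (n.factorization p : ℝ) *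
        ∑ j, (((Q j).coeff d : ℝ) - ((P j).coeff d : ℝ)) * θ j p =
        ∑ j, (((Q j).coeff d : ℝ) - ((P j).coeff d : ℝ)) * ((n.factorization p : ℝ) * θ j p) := by
      intro p _
      rw [Finset.mul_sum]
      refine Finset.sum_congr rfl fun j _ => ?_
      ring
    rw [Finset.sum_congr rfl h3, Finset.sum_comm]
    refine Finset.sum_congr rfl fun j _ => ?_
    rw [Finset.mul_sum]
  rw [h1, sub_eq_add_neg, ee_add, ee_neg, ee_sum, ee_sum, ← Finset.prod_inv_distrib,
    ← Finset.prod_mul_distrib]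
  unfold Phi
  refine Finset.prod_congr rfl fun j _ => ?_
  rw [ext_pow, ext_pow, hl j, ext_ee, ee_nsmul, ee_nsmul]

end Pool.Agent.PPR
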