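import Pool.Agent.PPR.Avg

/-!
# The spectral measure of a set of positive density
-/

set_option autoImplicit false

namespace Pool.Agent.PPR

open MeasureTheory ProbabilityTheory Filter Topology

namespace Spec

/-- the finite group of exponent vectors -/
abbrev GX (X : ℕ) := Fin (X + 1) → ZMod (X + 1)

variable {X : ℕ}

lemma pr_inj {i j : ℕ} (h : pr i = pr j) : i = j :=
  Nat.nth_injective Nat.infinite_setOfPred_prime h

lemma pr_prime (i : ℕ) : (pr i).Prime := Nat.prime_nth_prime i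

/-- exponent vector of `h` -/
noncomputable def ev (X h : ℕ) : GX X := fun i => ((h.factorization (pr i) : ℕ) : ZMod (X + 1))

/-- the circle valued version of a character -/
noncomputable def cc (ψ : AddChar (GX X) ℂ) : AddChar (GX X) Circle :=
  AddChar.circleEquivComplex.symm ψ

lemma cc_coe (ψ : AddChar (GX X) ℂ) (a : GX X) : ((cc ψ a : Circle) : ℂ) = ψ a := rfl

lemma norm_psi (ψ : AddChar (GX X) ℂ) (a : GX X) : ‖ψ a‖ = 1 := ψ.norm_apply a

lemma conj_psi (ψ : AddChar (GX X) ℂ) (a : GX X) : (starRingEnd ℂ) (ψ a) = ψ (-a) := by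
  rw [← cc_coe, ← cc_coe, ← Circle.coe_inv_eq_conj, AddChar.map_neg_eq_inv]

open Classical in
/-- the point of the torus given by a character -/
noncomputable def lp (ψ : AddChar (GX X) ℂ) (p : ℕ) : Circle :=
  if h : ∃ i : Fin (X + 1), pr i = p then cc ψ (Pi.single h.choose 1) else 1

lemma lp_pr (ψ : AddChar (GX X) ℂ) (i : Fin (X + 1)) : lp ψ (pr i) = cc ψ (Pi.single i 1) := by
  have h : ∃ j : Fin (X + 1), pr j = pr i := ⟨i, rfl⟩
  rw [lp, dif_pos h]
  have h2 : h.choose = i := Fin.ext (pr_inj h.choose_spec)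
  rw [h2]

lemma lp_zero (p : ℕ) : lp (0 : AddChar (GX X) ℂ) p = 1 := by
  rw [lp]
  split_ifs
  · apply Circle.ext
    rw [cc_coe]
    rfl
  · rfl

/-- all prime factors of `h` are among the first `X + 1` primes -/
lemma exists_pr {h p : ℕ} (hX : h ≤ X) (hh : 0 < h) (hp : p ∈ h.primeFactors) :
    ∃ i : Fin (X + 1), pr i = p := by
  have hp' : p.Prime := Nat.prime_of_mem_primeFactors hp
  have hle : p ≤ h := Nat.le_of_dvd hh (Nat.dvd_of_mem_primeFactors hp)
  have h1 : Nat.count Nat.Prime p ≤ p := Nat.count_le _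
  refine ⟨⟨Nat.count Nat.Prime p, by omega⟩, ?_⟩
  exact Nat.nth_count hp'

lemma ev_sum (h : ℕ) : ev X h = ∑ i : Fin (X + 1), h.factorization (pr i) • Pi.single i 1 := by
  funext j
  rw [Finset.sum_apply, Finset.sum_eq_single j]
  · simp [ev]
  · intro b _ hb
    simp [Pi.single_eq_of_ne hb.symm]
  · simp

lemma char_sum {A M ι : Type*} [AddCommMonoid A] [CommMonoid M] (χ : AddChar A M)
    (s : Finset ι) (g : ι → A) : χ (∑ i ∈ s, g i) = ∏ i ∈ s, χ (g i) := by
  classical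
  induction s using Finset.induction_on with
  | empty => simp
  | insert a s ha ih => rw [Finset.sum_insert ha, Finset.prod_insert ha, AddChar.map_add_eq_mul, ih]

lemma ext_lp (ψ : AddChar (GX X) ℂ) {h : ℕ} (hX : h ≤ X) (hh : 0 < h) :
    ext (lp ψ) h = cc ψ (ev X h) := by
  rw [ev_sum, char_sum, ext, Finsupp.prod]
  have h1 : ∀ i : Fin (X + 1), cc ψ (h.factorization (pr i) • Pi.single i 1) =
      lp ψ (pr i) ^ h.factorization (pr i) := fun i => by
    rw [AddChar.map_nsmul_eq_pow, lp_pr]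
  rw [Finset.prod_congr rfl fun i _ => h1 i]
  have h2 : ∏ i : Fin (X + 1), lp ψ (pr i) ^ h.factorization (pr i) =
      ∏ p ∈ Finset.univ.image (fun i : Fin (X + 1) => pr i), lp ψ p ^ h.factorization p := by
    rw [Finset.prod_image]
    intro i _ j _ hij
    exact Fin.ext (pr_inj hij)
  rw [h2]
  refine Finset.prod_subset ?_ ?_
  · intro p hp
    rw [Nat.support_factorization] at hp
    obtain ⟨i, hi⟩ := exists_pr hX hh hp
    exact Finset.mem_image.2 ⟨i, Finset.mem_univ _, hi⟩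
  · intro p _ hp
    rw [Finsupp.notMem_support_iff] at hp
    rw [hp, pow_zero]

/-! ### Finite Fourier analysis -/

section fourier

variable (f : GX X → ℝ)

/-- the Fourier transform -/
noncomputable def FT (ψ : AddChar (GX X) ℂ) : ℂ := ∑ e, (f e : ℂ) * ψ e

lemma normSq_FT (ψ : AddChar (GX X) ℂ) : ((‖FT f ψ‖ ^ 2 : ℝ) : ℂ) =
    ∑ a, ∑ b, (f a : ℂ) * (f b : ℂ) * ψ (a - b) := by
  rw [← Complex.normSq_eq_norm_sq, ← Complex.mul_conj, FT, map_sum, Finset.sum_mul_sum]
  refine Finset.sum_congr rfl fun a _ => Finset.sum_congr rfl fun b _ => ?_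
  rw [map_mul, Complex.conj_ofReal, conj_psi, sub_eq_add_neg, AddChar.map_add_eq_mul]
  ring

lemma sum_FT (w : GX X) : ∑ ψ : AddChar (GX X) ℂ, ((‖FT f ψ‖ ^ 2 : ℝ) : ℂ) * ψ w =
    (Fintype.card (GX X) : ℂ) * ∑ a, (f a : ℂ) * (f (a + w) : ℂ) := by
  classical
  have h1 : ∀ ψ : AddChar (GX X) ℂ, ((‖FT f ψ‖ ^ 2 : ℝ) : ℂ) * ψ w =
      ∑ a, ∑ b, (f a : ℂ) * (f b : ℂ) * ψ (a - b + w) := fun ψ => by
    rw [normSq_FT, Finset.sum_mul]
    refine Finset.sum_congr rfl fun a _ => ?_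
    rw [Finset.sum_mul]
    refine Finset.sum_congr rfl fun b _ => ?_
    rw [AddChar.map_add_eq_mul]
    ring
  rw [Finset.sum_congr rfl fun ψ _ => h1 ψ, Finset.sum_comm, Finset.mul_sum]
  refine Finset.sum_congr rfl fun a _ => ?_
  rw [Finset.sum_comm, Finset.sum_eq_single (a + w)]
  · rw [← Finset.mul_sum, AddChar.sum_apply_eq_ite, if_pos (by abel)]
    ring
  · intro b _ hb
    rw [← Finset.mul_sum, AddChar.sum_apply_eq_ite, if_neg, mul_zero]
    intro h0
    apply hb
    have : b = a - b + w + b := by rw [h0, zero_add]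
    rw [this]; abel
  · intro hb
    exact absurd (Finset.mem_univ _) hb

end fourier


/-! ### The measures -/

section meas

variable (f : GX X → ℝ)

/-- the weight of a character -/
noncomputable def cw (ψ : AddChar (GX X) ℂ) : ℝ :=
  ‖FT f ψ‖ ^ 2 / ((Fintype.card (GX X) : ℝ) * ∑ e, f e)

/-- the measure on the torus -/
noncomputable def sm : Measure (ℕ → Circle) :=
  ∑ ψ : AddChar (GX X) ℂ, ENNReal.ofReal (cw f ψ) • Measure.dirac (lp ψ)

lemma card_pos' : 0 < (Fintype.card (GX X) : ℝ) := by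
  exact_mod_cast Fintype.card_pos

lemma cw_nonneg (hS : 0 < ∑ e, f e) (ψ : AddChar (GX X) ℂ) : 0 ≤ cw f ψ :=
  div_nonneg (sq_nonneg _) (mul_pos card_pos' hS).le

lemma sum_cw (hf : ∀ e, f e = 0 ∨ f e = 1) (hS : 0 < ∑ e, f e) :
    ∑ ψ : AddChar (GX X) ℂ, cw f ψ = 1 := by
  have h1 := sum_FT f 0
  have h2 : ∑ ψ : AddChar (GX X) ℂ, ‖FT f ψ‖ ^ 2 = (Fintype.card (GX X) : ℝ) * ∑ e, f e := by
    have h3 : (((∑ ψ : AddChar (GX X) ℂ, ‖FT f ψ‖ ^ 2 : ℝ)) : ℂ) =
        (((Fintype.card (GX X) : ℝ) * ∑ e, f e : ℝ) : ℂ) := by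
      have h4 : ∀ a : GX X, (f a : ℂ) * (f (a + 0) : ℂ) = ((f a : ℝ) : ℂ) := fun a => by
        rw [add_zero]
        rcases hf a with h | h <;> simp [h]
      rw [Finset.sum_congr rfl fun a _ => h4 a] at h1
      have h5 : ∀ ψ : AddChar (GX X) ℂ, ((‖FT f ψ‖ ^ 2 : ℝ) : ℂ) * ψ 0 =
          ((‖FT f ψ‖ ^ 2 : ℝ) : ℂ) := fun ψ => by
        rw [AddChar.map_zero_eq_one, mul_one]
      rw [Finset.sum_congr rfl fun ψ _ => h5 ψ] at h1
      push_cast
      push_cast at h1
      exact h1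
    exact_mod_cast h3
  unfold cw
  rw [← Finset.sum_div, h2, div_self (mul_pos card_pos' hS).ne']

lemma isProb_sm (hf : ∀ e, f e = 0 ∨ f e = 1) (hS : 0 < ∑ e, f e) :
    IsProbabilityMeasure (sm f) := by
  constructor
  have h1 : sm f Set.univ = ∑ ψ : AddChar (GX X) ℂ, ENNReal.ofReal (cw f ψ) := by
    rw [sm, Measure.finsetSum_apply]
    refine Finset.sum_congr rfl fun ψ _ => ?_
    rw [Measure.smul_apply, measure_univ, smul_eq_mul, mul_one]
  rw [h1, ← ENNReal.ofReal_sum_of_nonneg fun ψ _ => cw_nonneg f hS ψ, sum_cw f hf hS,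
    ENNReal.ofReal_one]

lemma integral_sm (hS : 0 < ∑ e, f e) (Φ : (ℕ → Circle) → ℂ) :
    ∫ l, Φ l ∂(sm f) = ∑ ψ : AddChar (GX X) ℂ, ((cw f ψ : ℝ) : ℂ) * Φ (lp ψ) := by
  have hi : ∀ ψ ∈ (Finset.univ : Finset (AddChar (GX X) ℂ)),
      Integrable Φ (ENNReal.ofReal (cw f ψ) • Measure.dirac (lp ψ)) := fun ψ _ => by
    refine Integrable.smul_measure ?_ ENNReal.ofReal_ne_top
    exact integrable_dirac (by simp)
  rw [sm, integral_finsetSum_measure hi]
  refine Finset.sum_congr rfl fun ψ _ => ?_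
  rw [integral_smul_measure, integral_dirac, ENNReal.toReal_ofReal (cw_nonneg f hS ψ)]
  rw [Complex.real_smul]

lemma sm_one (hS : 0 < ∑ e, f e) :
    ENNReal.ofReal ((∑ e, f e) / (Fintype.card (GX X) : ℝ)) ≤ sm f {l | ∀ p, l p = 1} := by
  have h0 : cw f (0 : AddChar (GX X) ℂ) = (∑ e, f e) / (Fintype.card (GX X) : ℝ) := by
    have h1 : FT f 0 = ((∑ e, f e : ℝ) : ℂ) := by
      rw [FT]
      push_cast
      refine Finset.sum_congr rfl fun e _ => ?_
      simp
    have hn := (card_pos' (X := X)).ne'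
    rw [cw, h1, Complex.norm_real, Real.norm_eq_abs, sq_abs]
    field_simp
  have h2 : Measure.dirac (lp (0 : AddChar (GX X) ℂ)) {l : ℕ → Circle | ∀ p, l p = 1} = 1 := by
    refine Measure.dirac_apply_of_mem ?_
    exact fun p => lp_zero p
  rw [← h0, sm, Measure.finsetSum_apply]
  refine le_trans (le_of_eq ?_) (Finset.single_le_sum (fun ψ _ => bot_le)
    (Finset.mem_univ (0 : AddChar (GX X) ℂ)))
  rw [Measure.smul_apply, h2, smul_eq_mul, mul_one]

/-- the function whose integrals are the correlations -/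
noncomputable def Ph (h h' : ℕ) (l : ℕ → Circle) : ℂ :=
  ((ext l h' : Circle) : ℂ) * (starRingEnd ℂ) ((ext l h : Circle) : ℂ)

lemma continuous_ext (h : ℕ) : Continuous (fun l : ℕ → Circle => ext l h) := by
  unfold ext Finsupp.prod
  exact continuous_finsetProd _ fun p _ => (continuous_apply p).pow _

lemma continuous_Ph (h h' : ℕ) : Continuous (Ph h h') := by
  refine Continuous.mul ?_ ?_
  · exact continuous_coeC.comp (continuous_ext h')
  · exact Complex.continuous_conj.comp (continuous_coeC.comp (continuous_ext h))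

lemma Ph_lp (ψ : AddChar (GX X) ℂ) {h h' : ℕ} (hX : h ≤ X) (hX' : h' ≤ X) (hh : 0 < h)
    (hh' : 0 < h') : Ph h h' (lp ψ) = ψ (ev X h' - ev X h) := by
  rw [Ph, ext_lp ψ hX hh, ext_lp ψ hX' hh', cc_coe, cc_coe, conj_psi, sub_eq_add_neg,
    AddChar.map_add_eq_mul]

lemma corr_sm (hS : 0 < ∑ e, f e) {h h' : ℕ} (hX : h ≤ X) (hX' : h' ≤ X) (hh : 0 < h)
    (hh' : 0 < h') : ∫ l, Ph h h' l ∂(sm f) =
      (((∑ e, f (e + ev X h) * f (e + ev X h')) / ∑ e, f e : ℝ) : ℂ) := by
  rw [integral_sm f hS _]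
  have h1 : ∀ ψ : AddChar (GX X) ℂ, ((cw f ψ : ℝ) : ℂ) * Ph h h' (lp ψ) =
      ((((Fintype.card (GX X) : ℝ) * ∑ e, f e : ℝ)) : ℂ)⁻¹ *
        (((‖FT f ψ‖ ^ 2 : ℝ) : ℂ) * ψ (ev X h' - ev X h)) := fun ψ => by
    rw [Ph_lp ψ hX hX' hh hh', cw]
    push_cast
    ring
  rw [Finset.sum_congr rfl fun ψ _ => h1 ψ, ← Finset.mul_sum, sum_FT]
  have h2 : ∑ a, (f a : ℂ) * (f (a + (ev X h' - ev X h)) : ℂ) =
      ((∑ e, f (e + ev X h) * f (e + ev X h') : ℝ) : ℂ) := by
    push_cast
    refine (Fintype.sum_equiv (Equiv.addRight (ev X h)) _ _ fun e => ?_).symm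
    simp only [Equiv.coe_addRight]
    rw [add_add_sub_cancel]
  rw [h2]
  have hn := (card_pos' (X := X)).ne'
  have hn' : (Fintype.card (GX X) : ℂ) ≠ 0 := by exact_mod_cast hn
  have hS' : ((∑ e, f e : ℝ) : ℂ) ≠ 0 := by exact_mod_cast hS.ne'
  push_cast at hS' ⊢
  field_simp

end meas


/-! ### Dilations of the box -/

/-- the indicator function of `A` on the box -/
noncomputable def fA (A : Set ℕ) (X : ℕ) (e : GX X) : ℝ := A.indicator (fun _ => (1 : ℝ)) (xx X e)

lemma fA_01 (A : Set ℕ) (X : ℕ) (e : GX X) : fA A X e = 0 ∨ fA A X e = 1 := by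
  unfold fA
  by_cases h : xx X e ∈ A
  · right; rw [Set.indicator_of_mem h]
  · left; rw [Set.indicator_of_notMem h]

lemma card_GX (X : ℕ) : (Fintype.card (GX X) : ℝ) = ((X : ℝ) + 1) ^ (X + 1) := by
  rw [Fintype.card_fun, ZMod.card, Fintype.card_fin]
  push_cast
  rfl

lemma avgX_eq (X : ℕ) (g : ℕ → ℝ) :
    avgX X g = (Fintype.card (GX X) : ℝ)⁻¹ * ∑ e : GX X, g (xx X e) := by
  rw [card_GX]; rfl

lemma fact_le {X h : ℕ} (hX : h ≤ X) (hh : 0 < h) (p : ℕ) : h.factorization p < X + 1 := by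
  have h1 : h.factorization p < h := Nat.factorization_lt p hh.ne'
  omega

lemma xx_fact (X : ℕ) (e : GX X) (i : Fin (X + 1)) : (xx X e).factorization (pr i) = (e i).val := by
  have h0 : (∏ j : Fin (X + 1), pr j ^ (e j).val).factorization =
      ∑ j : Fin (X + 1), (pr j ^ (e j).val).factorization :=
    Nat.factorization_prod fun j _ => pow_ne_zero _ (pr_prime (j : ℕ)).ne_zero
  rw [xx, h0, Finsupp.finsetSum_apply, Finset.sum_eq_single i]
  · rw [(pr_prime i).factorization_pow, Finsupp.single_eq_same]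
  · intro j _ hj
    rw [(pr_prime j).factorization_pow, Finsupp.single_apply, if_neg]
    intro h
    exact hj (Fin.ext (pr_inj h))
  · intro hi
    exact absurd (Finset.mem_univ _) hi

lemma h_eq {X h : ℕ} (hX : h ≤ X) (hh : 0 < h) :
    h = ∏ i : Fin (X + 1), pr i ^ h.factorization (pr i) := by
  have h2 : ∏ i : Fin (X + 1), pr i ^ h.factorization (pr i) =
      ∏ p ∈ Finset.univ.image (fun i : Fin (X + 1) => pr i), p ^ h.factorization p := by
    rw [Finset.prod_image]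
    intro i _ j _ hij
    exact Fin.ext (pr_inj hij)
  rw [h2]
  conv_lhs => rw [← Nat.prod_factorization_pow_eq_self hh.ne']
  rw [Finsupp.prod]
  refine Finset.prod_subset ?_ ?_
  · intro p hp
    rw [Nat.support_factorization] at hp
    obtain ⟨i, hi⟩ := exists_pr hX hh hp
    exact Finset.mem_image.2 ⟨i, Finset.mem_univ _, hi⟩
  · intro p _ hp
    rw [Finsupp.notMem_support_iff] at hp
    rw [hp, pow_zero]

lemma xx_add {X h : ℕ} (hX : h ≤ X) (hh : 0 < h) (e : GX X) (hd : h ∣ xx X (e + ev X h)) :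
    xx X (e + ev X h) = xx X e * h := by
  have hpos : xx X (e + ev X h) ≠ 0 := (xx_pos X _).ne'
  have h1 : ∀ i : Fin (X + 1), ((e + ev X h) i).val = (e i).val + h.factorization (pr i) := by
    intro i
    have h2 : h.factorization (pr i) ≤ ((e + ev X h) i).val := by
      rw [← xx_fact]
      exact (Nat.factorization_le_iff_dvd hh.ne' hpos).2 hd (pr i)
    have h3 := fact_le hX hh (pr i)
    have h4 : (ev X h i).val = h.factorization (pr i) := by
      rw [ev, ZMod.val_natCast, Nat.mod_eq_of_lt h3]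
    have h5 : (e i).val < X + 1 := ZMod.val_lt _
    rw [Pi.add_apply, ZMod.val_add, h4] at h2 ⊢
    by_cases h6 : (e i).val + h.factorization (pr i) < X + 1
    · exact Nat.mod_eq_of_lt h6
    · exfalso
      have h7 : ((e i).val + h.factorization (pr i)) % (X + 1) =
          (e i).val + h.factorization (pr i) - (X + 1) := by
        rw [Nat.mod_eq_sub_mod (by omega), Nat.mod_eq_of_lt (by omega)]
      omega
  rw [xx, xx]
  conv_rhs => rw [h_eq hX hh]
  rw [← Finset.prod_mul_distrib]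
  refine Finset.prod_congr rfl fun i _ => ?_
  rw [h1 i, pow_add]


/-- the indicator of the multiples of `h` -/
noncomputable def gd (h n : ℕ) : ℝ := if h ∣ n then (1 : ℝ) else 0

lemma gd_le (h n : ℕ) : gd h n ≤ 1 := by
  unfold gd; split_ifs <;> norm_num

lemma sum_bad (X h : ℕ) : (Fintype.card (GX X) : ℝ)⁻¹ * ∑ e : GX X, (1 - gd h (xx X (e + ev X h))) =
    1 - avgX X (gd h) := by
  have h1 : ∑ e : GX X, gd h (xx X (e + ev X h)) = ∑ e : GX X, gd h (xx X e) :=
    Fintype.sum_equiv (Equiv.addRight (ev X h)) _ _ fun e => rfl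
  have hn := (card_pos' (X := X)).ne'
  rw [Finset.sum_sub_distrib, h1, avgX_eq, Finset.sum_const, Finset.card_univ, nsmul_eq_mul,
    mul_one, mul_sub, inv_mul_cancel₀ hn]

lemma corr_pt (A : Set ℕ) {X h h' : ℕ} (hX : h ≤ X) (hX' : h' ≤ X) (hh : 0 < h) (hh' : 0 < h')
    (e : GX X) : |fA A X (e + ev X h) * fA A X (e + ev X h') -
      ({x | x * h ∈ A ∧ x * h' ∈ A} : Set ℕ).indicator (fun _ => (1 : ℝ)) (xx X e)| ≤
      (1 - gd h (xx X (e + ev X h))) + (1 - gd h' (xx X (e + ev X h'))) := by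
  have a1 := gd_le h (xx X (e + ev X h))
  have a2 := gd_le h' (xx X (e + ev X h'))
  have hL : |fA A X (e + ev X h) * fA A X (e + ev X h') -
      ({x | x * h ∈ A ∧ x * h' ∈ A} : Set ℕ).indicator (fun _ => (1 : ℝ)) (xx X e)| ≤ 1 := by
    have hI : ({x | x * h ∈ A ∧ x * h' ∈ A} : Set ℕ).indicator (fun _ => (1 : ℝ)) (xx X e) = 0 ∨
        ({x | x * h ∈ A ∧ x * h' ∈ A} : Set ℕ).indicator (fun _ => (1 : ℝ)) (xx X e) = 1 := by
      by_cases hm : xx X e ∈ ({x | x * h ∈ A ∧ x * h' ∈ A} : Set ℕ)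
      · right; rw [Set.indicator_of_mem hm]
      · left; rw [Set.indicator_of_notMem hm]
    rcases fA_01 A X (e + ev X h) with h1 | h1 <;> rcases fA_01 A X (e + ev X h') with h2 | h2 <;>
      rcases hI with h3 | h3 <;> rw [h1, h2, h3] <;> norm_num
  by_cases hd : h ∣ xx X (e + ev X h)
  · by_cases hd' : h' ∣ xx X (e + ev X h')
    · have e1 := xx_add hX hh e hd
      have e2 := xx_add hX' hh' e hd'
      have h3 : fA A X (e + ev X h) * fA A X (e + ev X h') =
          ({x | x * h ∈ A ∧ x * h' ∈ A} : Set ℕ).indicator (fun _ => (1 : ℝ)) (xx X e) := by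
        unfold fA
        rw [e1, e2]
        by_cases m1 : xx X e * h ∈ A
        · by_cases m2 : xx X e * h' ∈ A
          · rw [Set.indicator_of_mem m1, Set.indicator_of_mem m2,
              Set.indicator_of_mem (show xx X e ∈ {x | x * h ∈ A ∧ x * h' ∈ A} from ⟨m1, m2⟩),
              mul_one]
          · rw [Set.indicator_of_notMem m2, mul_zero, Set.indicator_of_notMem
              (show xx X e ∉ {x | x * h ∈ A ∧ x * h' ∈ A} from fun hc => m2 hc.2)]
        · rw [Set.indicator_of_notMem m1, zero_mul, Set.indicator_of_notMem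
              (show xx X e ∉ {x | x * h ∈ A ∧ x * h' ∈ A} from fun hc => m1 hc.1)]
      rw [h3, sub_self, abs_zero]
      linarith
    · have : gd h' (xx X (e + ev X h')) = 0 := by unfold gd; rw [if_neg hd']
      linarith
  · have : gd h (xx X (e + ev X h)) = 0 := by unfold gd; rw [if_neg hd]
    linarith

lemma corr_diff (A : Set ℕ) {X h h' : ℕ} (hX : h ≤ X) (hX' : h' ≤ X) (hh : 0 < h) (hh' : 0 < h') :
    |(Fintype.card (GX X) : ℝ)⁻¹ * (∑ e : GX X, fA A X (e + ev X h) * fA A X (e + ev X h')) -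
      avgX X (({x | x * h ∈ A ∧ x * h' ∈ A} : Set ℕ).indicator (fun _ => (1 : ℝ)))| ≤
      (1 - avgX X (gd h)) + (1 - avgX X (gd h')) := by
  have hn := card_pos' (X := X)
  rw [← sum_bad, ← sum_bad, avgX_eq, ← mul_sub, ← mul_add, ← Finset.sum_sub_distrib,
    ← Finset.sum_add_distrib, abs_mul, abs_of_pos (inv_pos.2 hn)]
  refine mul_le_mul_of_nonneg_left ?_ (inv_pos.2 hn).le
  refine (Finset.abs_sum_le_sum_abs _ _).trans (Finset.sum_le_sum fun e _ => ?_)
  exact corr_pt A hX hX' hh hh' e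

lemma tendsto_corr (U : Ultrafilter ℕ) (hU : (U : Filter ℕ) ≤ atTop) (A : Set ℕ) {h h' : ℕ}
    (hh : 0 < h) (hh' : 0 < h') :
    Tendsto (fun X => (Fintype.card (GX X) : ℝ)⁻¹ *
      (∑ e : GX X, fA A X (e + ev X h) * fA A X (e + ev X h'))) (U : Filter ℕ)
      (𝓝 (dens U {x | x * h ∈ A ∧ x * h' ∈ A})) := by
  have h1 := tendsto_dens U {x | x * h ∈ A ∧ x * h' ∈ A}
  have h2 : Tendsto (fun X => (1 - avgX X (gd h)) + (1 - avgX X (gd h'))) (U : Filter ℕ)
      (𝓝 0) := by
    have a := (avgX_dvd h hh).mono_left hU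
    have b := (avgX_dvd h' hh').mono_left hU
    have c := ((tendsto_const_nhds (x := (1 : ℝ))).sub a).add
      ((tendsto_const_nhds (x := (1 : ℝ))).sub b)
    rw [sub_self, add_zero] at c
    exact c
  have h3 : Tendsto (fun X => (Fintype.card (GX X) : ℝ)⁻¹ *
      (∑ e : GX X, fA A X (e + ev X h) * fA A X (e + ev X h')) -
      avgX X (({x | x * h ∈ A ∧ x * h' ∈ A} : Set ℕ).indicator (fun _ => (1 : ℝ))))
      (U : Filter ℕ) (𝓝 0) := by
    refine squeeze_zero_norm' ?_ h2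
    have h4 : ∀ᶠ X in (U : Filter ℕ), max h h' ≤ X := hU (eventually_ge_atTop _)
    filter_upwards [h4] with X hX
    rw [Real.norm_eq_abs]
    exact corr_diff A ((le_max_left _ _).trans hX) ((le_max_right _ _).trans hX) hh hh'
  have h5 := h3.add h1
  rw [zero_add] at h5
  refine h5.congr fun X => ?_
  ring

/-- the approximating measures -/
lemma exists_sX (A : Set ℕ) (X : ℕ) : ∃ μ : ProbabilityMeasure (ℕ → Circle),
    (0 < ∑ e : GX X, fA A X e → (μ : Measure (ℕ → Circle)) = sm (fA A X)) := by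
  by_cases hS : 0 < ∑ e : GX X, fA A X e
  · exact ⟨⟨sm (fA A X), isProb_sm _ (fA_01 A X) hS⟩, fun _ => rfl⟩
  · exact ⟨⟨Measure.dirac 1, inferInstance⟩, fun h => absurd h hS⟩

end Spec

open Spec in
theorem exists_spec (U : Ultrafilter ℕ) (hU : (U : Filter ℕ) ≤ atTop) (A : Set ℕ)
    (hA : 0 < dens U A) :
    ∃ s : Measure (ℕ → Circle), IsProbabilityMeasure s ∧
      (∀ h h' : ℕ, 0 < h → 0 < h' →
        ∫ l, (((ext l h' : Circle) : ℂ) * (starRingEnd ℂ) ((ext l h : Circle) : ℂ)) ∂s =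
          ((dens U {x | x * h ∈ A ∧ x * h' ∈ A} / dens U A : ℝ) : ℂ)) ∧
      0 < s {l | ∀ p, l p = 1} := by
  have hd := tendsto_dens U A
  have hSn : ∀ X : ℕ, avgX X (A.indicator (fun _ => (1 : ℝ))) =
      (Fintype.card (GX X) : ℝ)⁻¹ * ∑ e : GX X, fA A X e := fun X => avgX_eq X _
  have hev : ∀ᶠ X in (U : Filter ℕ), dens U A / 2 < avgX X (A.indicator (fun _ => (1 : ℝ))) :=
    hd.eventually (eventually_gt_nhds (by linarith))
  have hSpos : ∀ᶠ X in (U : Filter ℕ), 0 < ∑ e : GX X, fA A X e := by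
    filter_upwards [hev] with X hX
    rw [hSn] at hX
    have h1 : 0 < (Fintype.card (GX X) : ℝ)⁻¹ * ∑ e : GX X, fA A X e := by linarith
    exact (pos_iff_pos_of_mul_pos h1).1 (inv_pos.2 card_pos')
  choose sX hsX using exists_sX A
  obtain ⟨s, hs⟩ : ∃ s : ProbabilityMeasure (ℕ → Circle), Tendsto sX (U : Filter ℕ) (𝓝 s) :=
    ⟨(U.map sX).lim, Ultrafilter.le_nhds_lim (U.map sX)⟩
  refine ⟨(s : Measure (ℕ → Circle)), inferInstance, ?_, ?_⟩
  · intro h h' hh hh'
    have h1 := (ProbabilityMeasure.tendsto_iff_forall_integral_rclike_tendsto ℂ).1 hs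
      (BoundedContinuousFunction.mkOfCompact ⟨Ph h h', continuous_Ph h h'⟩)
    have h2 : Tendsto (fun X => ((((Fintype.card (GX X) : ℝ)⁻¹ *
        (∑ e : GX X, fA A X (e + ev X h) * fA A X (e + ev X h'))) /
          avgX X (A.indicator (fun _ => (1 : ℝ))) : ℝ) : ℂ)) (U : Filter ℕ)
        (𝓝 ((dens U {x | x * h ∈ A ∧ x * h' ∈ A} / dens U A : ℝ) : ℂ)) :=
      (Complex.continuous_ofReal.tendsto _).comp ((tendsto_corr U hU A hh hh').div hd hA.ne')
    have h3 : Tendsto (fun X => ((((Fintype.card (GX X) : ℝ)⁻¹ *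
        (∑ e : GX X, fA A X (e + ev X h) * fA A X (e + ev X h'))) /
          avgX X (A.indicator (fun _ => (1 : ℝ))) : ℝ) : ℂ)) (U : Filter ℕ)
        (𝓝 (∫ l, Ph h h' l ∂(s : Measure (ℕ → Circle)))) := by
      refine Tendsto.congr' ?_ h1
      have h4 : ∀ᶠ X in (U : Filter ℕ), max h h' ≤ X := hU (eventually_ge_atTop _)
      filter_upwards [hSpos, h4] with X hS hX
      have h5 : ∫ l, (BoundedContinuousFunction.mkOfCompact
          (⟨Ph h h', continuous_Ph h h'⟩ : C((ℕ → Circle), ℂ))) l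
            ∂((sX X : ProbabilityMeasure (ℕ → Circle)) : Measure (ℕ → Circle)) =
          ∫ l, Ph h h' l ∂(sm (fA A X)) := by
        rw [hsX X hS]; rfl
      rw [h5, corr_sm _ hS ((le_max_left _ _).trans hX) ((le_max_right _ _).trans hX) hh hh', hSn]
      congr 1
      have hn := (card_pos' (X := X)).ne'
      field_simp
    exact tendsto_nhds_unique h3 h2
  · have hcl : IsClosed {l : ℕ → Circle | ∀ p, l p = 1} := by
      have : {l : ℕ → Circle | ∀ p, l p = 1} = {1} := by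
        ext l
        simp only [Set.mem_ofPred_eq, Set.mem_singleton_iff]
        exact ⟨fun h => funext h, fun h p => by rw [h]; rfl⟩
      rw [this]
      exact isClosed_singleton
    have h1 := ProbabilityMeasure.limsup_measure_closed_le_of_tendsto hs hcl
    refine lt_of_lt_of_le ?_ h1
    have h2 : ENNReal.ofReal (dens U A / 2) ≤ limsup (fun X =>
        ((sX X : ProbabilityMeasure (ℕ → Circle)) : Measure (ℕ → Circle))
          {l | ∀ p, l p = 1}) (U : Filter ℕ) := by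
      refine le_limsup_of_frequently_le ?_ ?_
      · refine Eventually.frequently ?_
        filter_upwards [hev, hSpos] with X hX hS
        rw [hsX X hS]
        refine le_trans ?_ (sm_one _ hS)
        refine ENNReal.ofReal_le_ofReal ?_
        rw [hSn] at hX
        rw [div_eq_inv_mul (∑ e : GX X, fA A X e)]
        exact hX.le
      · isBoundedDefault
    refine lt_of_lt_of_le ?_ h2
    exact ENNReal.ofReal_pos.2 (by linarith)

end Pool.Agent.PPR
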