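import Pool.Agent.PPR.Core
import Pool.Agent.PPR.CoreB
import Pool.Agent.PPR.Lim
import Pool.Agent.PPR.Spec
import Pool.Agent.PPR.Fatou
import Pool.Agent.PPR.PosB

/-!
# Simultaneous recurrence
-/

set_option autoImplicit false

namespace Pool.Agent.PPR

open MeasureTheory ProbabilityTheory Filter Topology

theorem sc {D : ℕ} (L : Fin (D + 1) → ℕ → ℝ) (ε : ℝ) (hε : 0 < ε) :
    ∀ᶠ X in atTop, ∀ᶠ K in atTop,
      -ε ≤ avg X K (fun n => ((ee (phase L n) : Circle) : ℂ).re) := by
  by_contra hcon
  rw [Filter.not_eventually] at hcon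
  have h1 : ∃ᶠ X in atTop, ∃ᶠ K in atTop,
      avg X K (fun n => ((ee (phase L n) : Circle) : ℂ).re) ≤ -ε := by
    refine hcon.mono fun X hX => ?_
    rw [Filter.not_eventually] at hX
    exact hX.mono fun K hK => (not_le.1 hK).le
  obtain ⟨P, V0, hP, hle⟩ := exists_limLaw L ε h1
  have h2 : 0 ≤ (∫ u, ((u ones : Circle) : ℂ) ∂P).re := by
    by_cases h : ∃ (i : Fin D) (k : ℕ), 0 < k ∧ fac k ∉ V0 i
    · rw [core_a hP h]; simp
    · push Not at h
      exact core_b hP h
  linarith

theorem pos (U : Ultrafilter ℕ) (hU : (U : Filter ℕ) ≤ atTop) {J : ℕ} (A : Fin J → Set ℕ)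
    (hA : ∀ j, 0 < dens U (A j)) (P Q : Fin J → Polynomial ℕ) :
    ∃ n : ℕ, 2 ≤ n ∧ ∀ j,
      0 < dens U {x | x * n ^ ((P j).eval n) ∈ A j ∧ x * n ^ ((Q j).eval n) ∈ A j} := by
  classical
  by_contra hcon
  push Not at hcon
  choose s hs1 hs2 hs3 using fun j => exists_spec U hU (A j) (hA j)
  let S : Measure (Fin J → (ℕ → Circle)) := Measure.pi s
  have hSp : IsProbabilityMeasure S := inferInstance
  let G : Set (Fin J → (ℕ → Circle)) := Set.pi Set.univ fun _ => {l | ∀ p, l p = 1}
  have hG1 : MeasurableSet {l : ℕ → Circle | ∀ p, l p = 1} := by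
    have h0 : {l : ℕ → Circle | ∀ p, l p = 1} = ⋂ p, {l | l p = 1} := by ext l; simp
    rw [h0]
    refine MeasurableSet.iInter fun p => ?_
    exact measurableSet_eq_fun (measurable_pi_apply p) measurable_const
  have hG : MeasurableSet G := MeasurableSet.univ_pi fun _ => hG1
  have hmG : ∀ l, l ∈ G ↔ ∀ j p, l j p = 1 := by
    intro l
    simp [G, Set.mem_pi]
  let g : (Fin J → (ℕ → Circle)) → ℝ := G.indicator fun _ => 1
  let f : ℕ → ℕ → (Fin J → (ℕ → Circle)) → ℝ := fun X K l =>
    avg X K (fun n => ((Phi P Q n l : Circle) : ℂ).re)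
  have hPhm : ∀ n, Measurable fun l : Fin J → (ℕ → Circle) => ((Phi P Q n l : Circle) : ℂ).re :=
    fun n => Complex.measurable_re.comp (measurable_Phi P Q n)
  have hPhb : ∀ n (l : Fin J → (ℕ → Circle)), |((Phi P Q n l : Circle) : ℂ).re| ≤ 1 := by
    intro n l
    refine (Complex.abs_re_le_norm _).trans ?_
    rw [Circle.norm_coe]
  have hfm : ∀ X K, Measurable (f X K) := by
    intro X K
    simp only [f, avg_eq_sum, smul_eq_mul]
    exact measurable_const.mul (Finset.measurable_fun_sum _ fun a _ => hPhm _)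
  have hgm : Measurable g := measurable_const.indicator hG
  have hfb : ∀ X K l, |f X K l| ≤ 1 := fun X K l => abs_avg_le fun n => hPhb n l
  have hgb : ∀ l, |g l| ≤ 1 := by
    intro l
    simp only [g, Set.indicator_apply]
    split_ifs <;> norm_num
  have hh : ∀ᵐ l ∂S, ∀ ε : ℝ, 0 < ε → ∀ᶠ X in atTop, ∀ᶠ K in atTop, g l - ε ≤ f X K l := by
    refine Eventually.of_forall fun l ε hε => ?_
    by_cases hl : l ∈ G
    · refine Eventually.of_forall fun X => Eventually.of_forall fun K => ?_
      have h1 : f X K l = 1 := by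
        simp only [f]
        have h2 : ∀ n, ((Phi P Q n l : Circle) : ℂ).re = 1 := by
          intro n
          rw [Phi_one P Q n l ((hmG l).1 hl)]
          simp
        simp only [h2]
        exact avg_const X K 1
      have h3 : g l = 1 := Set.indicator_of_mem hl _
      rw [h1, h3]
      linarith
    · have h3 : g l = 0 := Set.indicator_of_notMem hl _
      obtain ⟨D, L, hL⟩ := Phi_phase P Q l
      filter_upwards [sc L ε hε] with X hX
      filter_upwards [hX] with K hK
      rw [h3, zero_sub]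
      simp only [f, hL]
      exact hK
  -- the mass of the trivial point
  have hβ : 0 < ∫ l, g l ∂S := by
    have h1 : ∫ l, g l ∂S = S.real G := by
      simp only [g]
      rw [integral_indicator_const _ hG, smul_eq_mul, mul_one]
    rw [h1]
    have h2 : S G ≠ 0 := by
      simp only [S, G]
      rw [Measure.pi_pi]
      exact Finset.prod_ne_zero_iff.2 fun j _ => (hs3 j).ne'
    exact ENNReal.toReal_pos h2 (measure_ne_top S G)
  set β := ∫ l, g l ∂S with hβd
  have hF := nested_fatou S f hfm g hgm 1 hfb hgb hh (β / 2) (by positivity)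
  -- the integral of the averages
  let w : ℕ → ℝ := fun n => ∫ l, ((Phi P Q n l : Circle) : ℂ).re ∂S
  have hint : ∀ n, Integrable (fun l => ((Phi P Q n l : Circle) : ℂ).re) S := fun n =>
    Integrable.of_bound (hPhm n).aestronglyMeasurable 1 (Eventually.of_forall fun l => by
      rw [Real.norm_eq_abs]; exact hPhb n l)
  have hfw : ∀ X K, ∫ l, f X K l ∂S = avg X K w := by
    intro X K
    simp only [f, avg_eq_sum]
    rw [integral_smul, integral_finsetSum _ fun a _ => hint _]
  have hw1 : ∀ n, 0 < n → w n ≤ if n = 1 then (1 : ℝ) else 0 := by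
    intro n hn
    by_cases h1 : n = 1
    · subst h1
      rw [if_pos rfl]
      have h2 : w 1 = 1 := by
        simp only [w, Phi_at_one]
        simp
      exact h2.le
    · rw [if_neg h1]
      obtain ⟨j, hj⟩ := hcon n (by omega)
      have h2 : w n = (∫ l, ((Phi P Q n l : Circle) : ℂ) ∂S).re := by
        simp only [w]
        have hi : Integrable (fun l => ((Phi P Q n l : Circle) : ℂ)) S :=
          Integrable.of_bound (measurable_Phi P Q n).aestronglyMeasurable 1
            (Eventually.of_forall fun l => by rw [Circle.norm_coe])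
        exact integral_re hi
      have h3 : ∫ l, ((Phi P Q n l : Circle) : ℂ) ∂S = 0 := by
        simp only [Phi_coe]
        have h4 := integral_fintype_prod_eq_prod (𝕜 := ℂ) (μ := s)
          (fun j (l : ℕ → Circle) => (((ext l (n ^ ((Q j).eval n)) : Circle) : ℂ) *
            (starRingEnd ℂ) ((ext l (n ^ ((P j).eval n)) : Circle) : ℂ)))
        refine h4.trans ?_
        refine Finset.prod_eq_zero (Finset.mem_univ j) ?_
        rw [hs2 j _ _ (pow_pos hn _) (pow_pos hn _)]
        have h5 : dens U {x | x * n ^ ((P j).eval n) ∈ A j ∧ x * n ^ ((Q j).eval n) ∈ A j} = 0 :=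
          le_antisymm hj (dens_nonneg U _)
        rw [h5, zero_div, Complex.ofReal_zero]
      rw [h2, h3, Complex.zero_re]
  have hfin : ∀ X K, avg X K w ≤ ((K : ℝ) + 1)⁻¹ := fun X K =>
    (avg_mono hw1).trans (avg_one_le X K)
  have hlim : Tendsto (fun K : ℕ => ((K : ℝ) + 1)⁻¹) atTop (𝓝 0) :=
    tendsto_inv_atTop_zero.comp (tendsto_atTop_add_const_right _ _ tendsto_natCast_atTop_atTop)
  have hsm : ∀ᶠ K : ℕ in atTop, ((K : ℝ) + 1)⁻¹ < β / 2 :=
    hlim.eventually_lt_const (by positivity)
  obtain ⟨X, hX⟩ := hF.exists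
  obtain ⟨K, hK1, hK2⟩ := (hX.and hsm).exists
  rw [hfw] at hK1
  have := hfin X K
  linarith

end Pool.Agent.PPR
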