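import Pool.Agent.PPR.LimA

/-!
# Phases and completely multiplicative functions; averages as sums
-/

set_option autoImplicit false

namespace Pool.Agent.PPR

open MeasureTheory ProbabilityTheory Filter Topology

lemma avg_eq_sum {E : Type*} [AddCommGroup E] [Module ℝ E] (X K : ℕ) (f : ℕ → E) :
    avg X K f = ((Fintype.card (Idx X K) : ℝ)⁻¹ : ℝ) •
      ∑ a : Idx X K, f (xx X a.1 * ((a.2 : ℕ) + 1)) := by
  rw [card_idx, mul_inv, mul_smul]
  unfold avg avgX avgK
  congr 1
  rw [Fintype.sum_prod_type, Finset.smul_sum]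
  refine Finset.sum_congr rfl fun e _ => ?_
  congr 1
  rw [Finset.sum_range]

lemma idx_pos (X K : ℕ) (a : Idx X K) : 0 < xx X a.1 * ((a.2 : ℕ) + 1) := by
  refine Nat.mul_pos ?_ (Nat.succ_pos _)
  exact Finset.prod_pos fun i _ => pow_pos (Nat.prime_nth_prime _).pos _

lemma card_idx_pos (X K : ℕ) : (0 : ℝ) < (Fintype.card (Idx X K) : ℝ) := by
  have : 0 < Fintype.card (Idx X K) := Fintype.card_pos
  exact_mod_cast this

lemma avg_mono {X K : ℕ} {f g : ℕ → ℝ} (h : ∀ n, 0 < n → f n ≤ g n) : avg X K f ≤ avg X K g := by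
  rw [avg_eq_sum, avg_eq_sum, smul_eq_mul, smul_eq_mul]
  refine mul_le_mul_of_nonneg_left ?_ (inv_nonneg.2 (card_idx_pos X K).le)
  exact Finset.sum_le_sum fun a _ => h _ (idx_pos X K a)

lemma avg_const (X K : ℕ) (c : ℝ) : avg X K (fun _ => c) = c := by
  rw [avg_eq_sum, Finset.sum_const, Finset.card_univ, nsmul_eq_mul, smul_eq_mul, ← mul_assoc,
    inv_mul_cancel₀ (card_idx_pos X K).ne', one_mul]

lemma abs_avg_le {X K : ℕ} {f : ℕ → ℝ} {B : ℝ} (h : ∀ n, |f n| ≤ B) : |avg X K f| ≤ B := by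
  rw [abs_le]
  constructor
  · have := avg_mono (X := X) (K := K) (f := fun _ => -B) (g := f) (fun n _ => (abs_le.1 (h n)).1)
    rwa [avg_const] at this
  · have := avg_mono (X := X) (K := K) (f := f) (g := fun _ => B) (fun n _ => (abs_le.1 (h n)).2)
    rwa [avg_const] at this

/-- the share of `n = 1` -/
lemma avg_one_le (X K : ℕ) : avg X K (fun n => if n = 1 then (1 : ℝ) else 0) ≤ ((K : ℝ) + 1)⁻¹ := by
  have h1 : ∀ x, avgK K (fun n => if n = 1 then (1 : ℝ) else 0) x ≤ ((K : ℝ) + 1)⁻¹ := by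
    intro x
    unfold avgK
    rw [smul_eq_mul]
    have h2 : ∑ j ∈ Finset.range (K + 1), (if x * (j + 1) = 1 then (1 : ℝ) else 0) ≤ 1 := by
      calc ∑ j ∈ Finset.range (K + 1), (if x * (j + 1) = 1 then (1 : ℝ) else 0)
          ≤ ∑ j ∈ Finset.range (K + 1), (if j = 0 then (1 : ℝ) else 0) := by
            refine Finset.sum_le_sum fun j _ => ?_
            by_cases hj : j = 0
            · rw [if_pos hj]
              split_ifs <;> norm_num
            · have h3 : ¬ (x * (j + 1) = 1) := by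
                intro h
                have := Nat.eq_one_of_mul_eq_one_left h
                omega
              rw [if_neg hj, if_neg h3]
        _ ≤ 1 := by
            rw [Finset.sum_ite_eq' (Finset.range (K + 1)) 0 (fun _ => (1 : ℝ))]
            split_ifs <;> norm_num
    calc ((K : ℝ) + 1)⁻¹ * ∑ j ∈ Finset.range (K + 1), (if x * (j + 1) = 1 then (1 : ℝ) else 0)
        ≤ ((K : ℝ) + 1)⁻¹ * 1 := mul_le_mul_of_nonneg_left h2 (by positivity)
      _ = ((K : ℝ) + 1)⁻¹ := mul_one _
  unfold avg avgX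
  rw [smul_eq_mul]
  calc ((((X : ℝ) + 1) ^ (X + 1))⁻¹ : ℝ) * ∑ e : Fin (X + 1) → ZMod (X + 1),
        avgK K (fun n => if n = 1 then (1 : ℝ) else 0) (xx X e)
      ≤ ((((X : ℝ) + 1) ^ (X + 1))⁻¹ : ℝ) * ∑ e : Fin (X + 1) → ZMod (X + 1),
        ((K : ℝ) + 1)⁻¹ := by
        refine mul_le_mul_of_nonneg_left ?_ (by positivity)
        exact Finset.sum_le_sum fun e _ => h1 _
    _ = ((K : ℝ) + 1)⁻¹ := by
        rw [Finset.sum_const, Finset.card_univ, Fintype.card_fun, ZMod.card, Fintype.card_fin,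
          nsmul_eq_mul]
        push_cast
        rw [← mul_assoc, inv_mul_cancel₀ (by positivity), one_mul]

/-! ### The functions `ext` -/

lemma ext_one (l : ℕ → Circle) : ext l 1 = 1 := by
  unfold ext
  rw [Nat.factorization_one, Finsupp.prod_zero_index]

lemma ext_pow (l : ℕ → Circle) (n m : ℕ) : ext l (n ^ m) = ext l n ^ m := by
  unfold ext
  rw [Nat.factorization_pow]
  by_cases hm : m = 0
  · subst hm
    simp
  · have h1 : (m • n.factorization).support = n.factorization.support :=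
      Finsupp.support_smul_eq hm
    unfold Finsupp.prod
    rw [h1, ← Finset.prod_pow]
    refine Finset.prod_congr rfl fun p _ => ?_
    rw [Finsupp.smul_apply, smul_eq_mul, mul_comm]
    exact pow_mul _ _ _

lemma ee_add (x y : ℝ) : ee (x + y) = ee x * ee y := by
  unfold ee
  rw [mul_add, Circle.exp_add]

lemma ee_zero : ee 0 = 1 := by
  unfold ee
  rw [mul_zero, Circle.exp_zero]

lemma ee_neg (x : ℝ) : ee (-x) = (ee x)⁻¹ := by
  rw [eq_inv_iff_mul_eq_one, ← ee_add, neg_add_cancel, ee_zero]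

lemma ee_sum {ι : Type*} (s : Finset ι) (f : ι → ℝ) : ee (∑ i ∈ s, f i) = ∏ i ∈ s, ee (f i) := by
  classical
  induction s using Finset.induction_on with
  | empty => rw [Finset.sum_empty, Finset.prod_empty, ee_zero]
  | insert a s ha ih => rw [Finset.sum_insert ha, Finset.prod_insert ha, ee_add, ih]

lemma ee_nsmul (n : ℕ) (x : ℝ) : ee ((n : ℝ) * x) = ee x ^ n := by
  induction n with
  | zero => rw [Nat.cast_zero, zero_mul, ee_zero, pow_zero]
  | succ n ih =>
    rw [pow_succ, ← ih, ← ee_add]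
    congr 1
    push_cast
    ring

lemma ee_surj (z : Circle) : ∃ x : ℝ, ee x = z := by
  obtain ⟨t, ht⟩ := Circle.exp_surjective z
  refine ⟨t / (2 * Real.pi), ?_⟩
  unfold ee
  rw [mul_div_cancel₀ _ (by positivity), ht]

lemma ext_ee (θ : ℕ → ℝ) (n : ℕ) :
    ext (fun p => ee (θ p)) n = ee (n.factorization.sum fun p k => (k : ℝ) * θ p) := by
  unfold ext Finsupp.prod Finsupp.sum
  rw [ee_sum]
  exact Finset.prod_congr rfl fun p _ => (ee_nsmul _ _).symm

lemma measurable_ext (n : ℕ) : Measurable fun l : ℕ → Circle => ext l n := by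
  unfold ext Finsupp.prod
  refine Finset.measurable_fun_prod _ fun p _ => ?_
  exact (measurable_pi_apply p).pow_const _

end Pool.Agent.PPR
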